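import Pool.Agent.H208.Tree.Sep

set_option autoImplicit false

/-!
# Topological facts on Thurston maps and their iterates
-/

noncomputable section

namespace Pool.Agent.H208.Tree

open Set Filter Topology OnePoint Pool.Agent.H208.Thu

/-- a finite branched covering of the sphere whose branch values lie in the forward invariant
finite set `P` -/
structure Brc (f : Sph → Sph) (P : Set Sph) : Prop where
  cont : Continuous f
  fin : P.Finite
  map : ∀ x ∈ P, f x ∈ P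
  loc : IsLocalHomeomorphOn f (f ⁻¹' Pᶜ)
  op : IsOpenMap f
  fib : ∀ y, (f ⁻¹' {y}).Finite

theorem nhds_le_of_localDegree {f : Sph → Sph} {p : Sph} {d : ℕ} (hd : 1 ≤ d)
    (h : LocalDegree f p d) : 𝓝 (f p) ≤ Filter.map f (𝓝 p) := by
  obtain ⟨φ, ψ, -, -, hp, hφp, hfp, hψ, hall⟩ := h
  intro V hV
  rw [mem_map] at hV
  have hU : f ⁻¹' V ∩ φ.source ∈ 𝓝 p := inter_mem hV (φ.open_source.mem_nhds hp)
  have hU2 : φ '' (f ⁻¹' V ∩ φ.source) ∈ 𝓝 (0 : ℂ) := by
    rw [← hφp]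
    have h1 := φ.map_nhds_eq hp
    rw [← h1]
    exact image_mem_map hU
  obtain ⟨r, hr0, hr⟩ := Metric.mem_nhds_iff.1 hU2
  have hN : {y | y ∈ ψ.source ∧ ‖ψ y‖ < r ^ d} ∈ 𝓝 (f p) := by
    refine Filter.inter_mem (ψ.open_source.mem_nhds hfp) ?_
    have h1 : ContinuousAt (fun y => ‖ψ y‖) (f p) := (ψ.continuousAt hfp).norm
    have h2 : ‖ψ (f p)‖ < r ^ d := by rw [hψ, norm_zero]; positivity
    exact h1.eventually (gt_mem_nhds h2)
  refine mem_of_superset hN ?_
  rintro y ⟨hy, hyr⟩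
  obtain ⟨z, hz⟩ : ∃ z : ℂ, z ^ d = ψ y := ⟨_, Complex.cpow_nat_inv_pow _ (by omega)⟩
  have hzr : ‖z‖ < r := by
    rw [← hz, norm_pow] at hyr
    exact lt_of_pow_lt_pow_left₀ d hr0.le hyr
  obtain ⟨x, ⟨hxV, hxs⟩, rfl⟩ := hr (show z ∈ Metric.ball 0 r by rwa [mem_ball_zero_iff])
  obtain ⟨h1, h2⟩ := hall x hxs
  have h3 : f x = y := ψ.injOn h1 hy (by rw [h2, hz])
  rw [← h3]
  exact hxV

theorem isolated_of_localDegree {f : Sph → Sph} {p : Sph} {d : ℕ} (h : LocalDegree f p d) :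
    ∃ U ∈ 𝓝 p, ∀ x ∈ U, f x = f p → x = p := by
  obtain ⟨φ, ψ, -, -, hp, hφp, hfp, hψ, hall⟩ := h
  refine ⟨φ.source, φ.open_source.mem_nhds hp, fun x hx hfx => ?_⟩
  obtain ⟨h1, h2⟩ := hall x hx
  rw [hfx, hψ] at h2
  have h3 : φ x = 0 := eq_zero_of_pow_eq_zero h2.symm
  exact φ.injOn hx hp (by rw [hφp, h3])

theorem loc_of_localDegree_one {f : Sph → Sph} {p : Sph} (h : LocalDegree f p 1) :
    ∃ e : OpenPartialHomeomorph Sph Sph, p ∈ e.source ∧ EqOn f e e.source := by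
  obtain ⟨φ, ψ, -, -, hp, hφp, hfp, hψ, hall⟩ := h
  refine ⟨φ.trans ψ.symm, ?_, ?_⟩
  · rw [OpenPartialHomeomorph.trans_source]
    refine ⟨hp, ?_⟩
    show φ p ∈ ψ.symm.source
    rw [hφp, ← hψ]
    exact ψ.map_source hfp
  · intro x hx
    rw [OpenPartialHomeomorph.trans_source] at hx
    obtain ⟨h1, h2⟩ := hall x hx.1
    rw [pow_one] at h2
    show f x = ψ.symm (φ x)
    rw [← h2, ψ.left_inv h1]

theorem finite_fiber {f : Sph → Sph} (hf : Continuous f)
    (h : ∀ p, ∃ U ∈ 𝓝 p, ∀ x ∈ U, f x = f p → x = p) (y : Sph) : (f ⁻¹' {y}).Finite := by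
  have hc : IsCompact (f ⁻¹' {y}) := (isClosed_singleton.preimage hf).isCompact
  refine hc.finite ?_
  rw [isDiscrete_iff_forall_mem_exists_isOpen]
  intro x hx
  obtain ⟨U, hU, hU2⟩ := h x
  obtain ⟨V, hVU, hVo, hxV⟩ := mem_nhds_iff.1 hU
  refine ⟨V, hVo, ?_⟩
  ext z
  constructor
  · rintro ⟨hzV, hz⟩
    exact hU2 z (hVU hzV) ((mem_singleton_iff.1 hz).trans (mem_singleton_iff.1 hx).symm)
  · intro hz
    rw [mem_singleton_iff] at hz
    rw [hz]
    exact ⟨hxV, hx⟩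

theorem post_map {f : Sph → Sph} : ∀ x ∈ post f, f x ∈ post f := by
  rintro _ ⟨n, hn, c, hc, rfl⟩
  exact ⟨n + 1, by omega, c, hc, Function.iterate_succ_apply' f n c⟩

theorem IsThurston.brc {f : Sph → Sph} (h : IsThurston f) : Brc f (post f) := by
  obtain ⟨⟨hc, hd⟩, hinj, hfin⟩ := h
  refine ⟨hc, hfin, post_map, ?_, ?_, ?_⟩
  · refine IsLocalHomeomorphOn.mk _ _ fun x hx => ?_
    obtain ⟨d, hd1, hd2⟩ := hd x
    have h1 : d = 1 := by
      by_contra hne
      exact hx ⟨1, le_rfl, x, ⟨d, by omega, hd2⟩, rfl⟩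
    subst h1
    exact loc_of_localDegree_one hd2
  · rw [isOpenMap_iff_nhds_le]
    intro x
    obtain ⟨d, hd1, hd2⟩ := hd x
    exact nhds_le_of_localDegree hd1 hd2
  · exact finite_fiber hc fun p => by
      obtain ⟨d, hd1, hd2⟩ := hd p
      exact isolated_of_localDegree hd2

theorem Brc.mem_iter {f : Sph → Sph} {P : Set Sph} (h : Brc f P) (n : ℕ) :
    ∀ x ∈ P, f^[n] x ∈ P := by
  induction n with
  | zero => exact fun x hx => hx
  | succ n ih =>
    intro x hx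
    rw [Function.iterate_succ_apply']
    exact h.map _ (ih x hx)

theorem Brc.comp {f g : Sph → Sph} {P : Set Sph} (hf : Brc f P) (hg : Brc g P) :
    Brc (f ∘ g) P := by
  refine ⟨hf.cont.comp hg.cont, hf.fin, fun x hx => hf.map _ (hg.map _ hx), ?_,
    hf.op.comp hg.op, fun y => ?_⟩
  · have h1 : f ∘ g ⁻¹' Pᶜ = g ⁻¹' (f ⁻¹' Pᶜ) := rfl
    refine IsLocalHomeomorphOn.comp (t := f ⁻¹' Pᶜ) hf.loc
      (hg.loc.mono ?_) ?_
    · intro x hx hgx
      exact hx (hf.map _ hgx)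
    · intro x hx
      exact hx
  · rw [preimage_comp]
    exact (hf.fib y).preimage' fun z _ => hg.fib z

theorem Brc.id {P : Set Sph} (hP : P.Finite) : Brc id P where
  cont := continuous_id
  fin := hP
  map := fun x hx => hx
  loc := IsLocalHomeomorphOn.mk _ _ fun x _ => ⟨OpenPartialHomeomorph.refl _, mem_univ _,
    fun _ _ => rfl⟩
  op := IsOpenMap.id
  fib := fun y => by rw [preimage_id]; exact finite_singleton y

theorem Brc.iter {f : Sph → Sph} {P : Set Sph} (h : Brc f P) (n : ℕ) : Brc (f^[n]) P := by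
  induction n with
  | zero => exact Brc.id h.fin
  | succ n ih =>
    rw [Function.iterate_succ']
    exact h.comp ih

/-- conjugation -/
theorem Brc.conj {f : Sph → Sph} {P : Set Sph} (hf : Brc f P) (h : Sph ≃ₜ Sph) :
    Brc (fun x => h (f (h.symm x))) (h '' P) := by
  refine ⟨h.continuous.comp (hf.cont.comp h.symm.continuous), hf.fin.image _, ?_, ?_,
    h.isOpenMap.comp (hf.op.comp h.symm.isOpenMap), fun y => ?_⟩
  · rintro _ ⟨x, hx, rfl⟩
    exact ⟨f x, hf.map x hx, by rw [h.symm_apply_apply]⟩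
  · refine IsLocalHomeomorphOn.mk _ _ fun x hx => ?_
    have h1 : h.symm x ∈ f ⁻¹' Pᶜ := fun hx' => hx ⟨_, hx', rfl⟩
    obtain ⟨e, he1, he2⟩ := hf.loc _ h1
    refine ⟨(h.symm.toOpenPartialHomeomorph.trans e).trans h.toOpenPartialHomeomorph, ?_, ?_⟩
    · simp [he1]
    · intro z hz
      show h (f (h.symm z)) = h (e (h.symm z))
      rw [he2]
  · have h1 : (fun x => h (f (h.symm x))) ⁻¹' {y} = h '' (f ⁻¹' {h.symm y}) := by
      ext x
      constructor
      · intro hx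
        refine ⟨h.symm x, ?_, h.apply_symm_apply x⟩
        rw [mem_preimage, mem_singleton_iff] at hx ⊢
        rw [← hx, h.symm_apply_apply]
      · rintro ⟨z, hz, rfl⟩
        rw [mem_preimage, mem_singleton_iff] at hz ⊢
        rw [h.symm_apply_apply, hz, h.apply_symm_apply]
    rw [h1]
    exact (hf.fib _).image _

theorem Brc.surj {f : Sph → Sph} {P : Set Sph} (hf : Brc f P) : Function.Surjective f := by
  have h1 : IsClopen (range f) := ⟨(isCompact_range hf.cont).isClosed, hf.op.isOpen_range⟩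
  have h2 := h1.eq_univ ⟨f ∞, ∞, rfl⟩
  intro y
  have : y ∈ range f := by rw [h2]; trivial
  exact this

theorem Brc.cov {f : Sph → Sph} {P : Set Sph} (hf : Brc f P) : IsCoveringMapOn f Pᶜ :=
  IsCoveringMapOn.of_isLocalHomeomorphOn hf.cont hf.loc

end Pool.Agent.H208.Tree
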