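import Pool.Agent.H208.Tree.Norm

set_option autoImplicit false

/-!
# The comb and the retraction of the plane onto it
-/

noncomputable section

namespace Pool.Agent.H208.Tree

open Set Filter Topology OnePoint Pool.Agent.H208.Thu unitInterval

/-- the comb with `n + 1` teeth -/
def comb (n : ℕ) : Set ℂ := {z | (0 ≤ z.re ∧ z.re ≤ n ∧ z.im = 0) ∨
  ∃ k : ℕ, k ≤ n ∧ z.re = k ∧ 0 ≤ z.im ∧ z.im ≤ 1}

/-- the tips of the teeth -/
def tips (n : ℕ) : Set ℂ := {z | ∃ k : ℕ, k ≤ n ∧ z = (k : ℂ) + Complex.I}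

/-- the tips of the teeth as points of the sphere -/
def P0 (n : ℕ) : Set Sph := {x | ∃ k : ℕ, k ≤ n ∧ x = (((k : ℂ) + Complex.I : ℂ) : Sph)}

theorem coe_mem_P0 {n : ℕ} {z : ℂ} : (z : Sph) ∈ P0 n ↔ z ∈ tips n := by
  constructor
  · rintro ⟨k, hk, h⟩
    exact ⟨k, hk, OnePoint.coe_eq_coe.1 h⟩
  · rintro ⟨k, hk, rfl⟩
    exact ⟨k, hk, rfl⟩

theorem tips_sub_comb (n : ℕ) : tips n ⊆ comb n := by
  rintro _ ⟨k, hk, rfl⟩
  right
  exact ⟨k, hk, by simp, by simp, by simp⟩

/-- truncation to `[0, 1]` -/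
def cl (x : ℝ) : ℝ := max 0 (min x 1)

theorem cl_nonneg (x : ℝ) : 0 ≤ cl x := le_max_left _ _
theorem cl_le (x : ℝ) : cl x ≤ 1 := max_le zero_le_one (min_le_right _ _)
theorem cl_of_nonpos {x : ℝ} (h : x ≤ 0) : cl x = 0 := max_eq_left ((min_le_left _ _).trans h)
theorem cl_of_ge {x : ℝ} (h : 1 ≤ x) : cl x = 1 := by
  rw [cl, min_eq_right h]; exact max_eq_right zero_le_one
theorem cl_of_mem {x : ℝ} (h : 0 ≤ x) (h1 : x ≤ 1) : cl x = x := by
  rw [cl, min_eq_left h1, max_eq_right h]
theorem continuous_cl : Continuous cl := by unfold cl; fun_prop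

/-- the truncated abscissa -/
def xb (n : ℕ) (z : ℂ) : ℝ := max 0 (min z.re n)

def rX (n : ℕ) (z : ℂ) : ℝ :=
  ∑ j ∈ Finset.range n, cl ((xb n z - j) * (1 + 2 * cl z.im) - cl z.im)

def rY (n : ℕ) (z : ℂ) : ℝ :=
  ∑ j ∈ Finset.range (n + 1), max 0 (cl z.im - (1 + 2 * cl z.im) * |xb n z - j|)

/-- the retraction -/
def r1 (n : ℕ) (z : ℂ) : ℂ := rX n z + rY n z * Complex.I

theorem r1_re (n : ℕ) (z : ℂ) : (r1 n z).re = rX n z := by simp [r1]
theorem r1_im (n : ℕ) (z : ℂ) : (r1 n z).im = rY n z := by simp [r1]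

theorem continuous_r1 (n : ℕ) : Continuous (r1 n) := by
  have h := continuous_cl
  unfold r1 rX rY xb
  fun_prop

theorem sum_step {n k : ℕ} (hk : k < n) {a : ℕ → ℝ} (h1 : ∀ j < k, a j = 1)
    (h2 : ∀ j, k < j → a j = 0) : ∑ j ∈ Finset.range n, a j = k + a k := by
  induction n with
  | zero => omega
  | succ n ih =>
    rw [Finset.sum_range_succ]
    by_cases h : k < n
    · rw [ih h, h2 n h, add_zero]
    · have : k = n := by omega
      subst this
      rw [Finset.sum_congr rfl fun j hj => h1 j (Finset.mem_range.1 hj)]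
      simp

theorem exists_cell {n : ℕ} (hn : 1 ≤ n) (z : ℂ) :
    ∃ k : ℕ, k < n ∧ (k : ℝ) ≤ xb n z ∧ xb n z ≤ k + 1 := by
  have h0 : 0 ≤ xb n z := le_max_left _ _
  have h1 : xb n z ≤ n := max_le (Nat.cast_nonneg n) (min_le_right _ _)
  by_cases h : xb n z < n
  · refine ⟨⌊xb n z⌋₊, (Nat.floor_lt h0).2 h, Nat.floor_le h0, (Nat.lt_floor_add_one _).le⟩
  · refine ⟨n - 1, by omega, ?_, ?_⟩
    · rw [Nat.cast_sub hn]
      push_cast
      linarith [not_lt.1 h]
    · rw [Nat.cast_sub hn]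
      push_cast
      linarith

theorem rX_cell {n k : ℕ} (hk : k < n) {z : ℂ} (h1 : (k : ℝ) ≤ xb n z) (h2 : xb n z ≤ k + 1) :
    rX n z = k + cl ((xb n z - k) * (1 + 2 * cl z.im) - cl z.im) := by
  have ht := cl_nonneg z.im
  have ht1 := cl_le z.im
  refine sum_step (a := fun j : ℕ => cl ((xb n z - j) * (1 + 2 * cl z.im) - cl z.im)) hk ?_ ?_
  · intro j hj
    apply cl_of_ge
    have h3 : (j : ℝ) + 1 ≤ k := by exact_mod_cast hj
    nlinarith
  · intro j hj
    apply cl_of_nonpos
    have h3 : (k : ℝ) + 1 ≤ j := by exact_mod_cast hj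
    nlinarith

theorem rY_cell {n k : ℕ} (hk : k < n) {z : ℂ} (h1 : (k : ℝ) ≤ xb n z) (h2 : xb n z ≤ k + 1) :
    rY n z = max 0 (cl z.im - (1 + 2 * cl z.im) * (xb n z - k)) +
      max 0 (cl z.im - (1 + 2 * cl z.im) * (k + 1 - xb n z)) := by
  have ht := cl_nonneg z.im
  have ht1 := cl_le z.im
  have h3 := Finset.sum_eq_add (s := Finset.range (n + 1))
    (f := fun j : ℕ => max 0 (cl z.im - (1 + 2 * cl z.im) * |xb n z - j|)) k (k + 1) (by omega)
    (fun j _ hj => by
      apply max_eq_left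
      have h4 : 1 ≤ |xb n z - j| := by
        rcases lt_or_gt_of_ne hj.1 with h | h
        · have h5 : (j : ℝ) + 1 ≤ k := by exact_mod_cast h
          rw [le_abs]
          left
          linarith
        · have h6 : k + 2 ≤ j := by omega
          have h5 : (k : ℝ) + 2 ≤ j := by exact_mod_cast h6
          rw [le_abs]
          right
          linarith
      nlinarith)
    (fun h => absurd (Finset.mem_range.2 (by omega)) h)
    (fun h => absurd (Finset.mem_range.2 (by omega)) h)
  rw [rY, h3]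
  congr 2
  · rw [abs_of_nonneg (by linarith)]
  · rw [abs_of_nonpos (by push_cast; linarith)]
    push_cast
    ring

/-- description of the retraction -/
theorem r1_cases {n : ℕ} (hn : 1 ≤ n) (z : ℂ) : ∃ k : ℕ, k < n ∧ (k : ℝ) ≤ xb n z ∧
    xb n z ≤ k + 1 ∧ ((rX n z = k ∧ rY n z = cl z.im - (1 + 2 * cl z.im) * (xb n z - k) ∧
      0 ≤ rY n z) ∨
    (rX n z = k + ((xb n z - k) * (1 + 2 * cl z.im) - cl z.im) ∧ k ≤ rX n z ∧ rX n z ≤ k + 1 ∧
      rY n z = 0) ∨
    (rX n z = k + 1 ∧ rY n z = cl z.im - (1 + 2 * cl z.im) * (k + 1 - xb n z) ∧ 0 ≤ rY n z)) := by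
  obtain ⟨k, hk, h1, h2⟩ := exists_cell hn z
  refine ⟨k, hk, h1, h2, ?_⟩
  rw [rX_cell hk h1 h2, rY_cell hk h1 h2]
  have ht := cl_nonneg z.im
  have ht1 := cl_le z.im
  set t := cl z.im
  set x := xb n z
  rcases le_or_gt ((x - k) * (1 + 2 * t)) t with h | h
  · left
    rw [cl_of_nonpos (by linarith), max_eq_right (by linarith : (0 : ℝ) ≤ t - (1 + 2 * t) * (x - k)),
      max_eq_left (by nlinarith : t - (1 + 2 * t) * (k + 1 - x) ≤ 0)]
    refine ⟨by ring, by ring, by linarith⟩
  · right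
    rcases le_or_gt ((x - k) * (1 + 2 * t)) (1 + t) with h' | h'
    · left
      rw [cl_of_mem (by linarith) (by linarith),
        max_eq_left (by linarith : t - (1 + 2 * t) * (x - k) ≤ 0),
        max_eq_left (by nlinarith : t - (1 + 2 * t) * (k + 1 - x) ≤ 0)]
      refine ⟨rfl, by linarith, by linarith, by ring⟩
    · right
      rw [cl_of_ge (by linarith),
        max_eq_left (by linarith : t - (1 + 2 * t) * (x - k) ≤ 0),
        max_eq_right (by nlinarith : 0 ≤ t - (1 + 2 * t) * (k + 1 - x))]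
      refine ⟨rfl, by ring, by nlinarith⟩

theorem r1_mem {n : ℕ} (hn : 1 ≤ n) (z : ℂ) : r1 n z ∈ comb n := by
  have ht := cl_nonneg z.im
  have ht1 := cl_le z.im
  obtain ⟨k, hk, h1, h2, h | h | h⟩ := r1_cases hn z
  · right
    refine ⟨k, hk.le, by rw [r1_re, h.1], by rw [r1_im]; exact h.2.2, ?_⟩
    rw [r1_im, h.2.1]
    nlinarith
  · left
    have h3 : (k : ℝ) + 1 ≤ n := by exact_mod_cast hk
    have h4 : (0 : ℝ) ≤ k := Nat.cast_nonneg k
    rw [r1_re, r1_im]
    exact ⟨by linarith [h.2.1], by linarith [h.2.2.1], h.2.2.2⟩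
  · right
    refine ⟨k + 1, hk, by rw [r1_re, h.1]; push_cast; ring, by rw [r1_im]; exact h.2.2, ?_⟩
    rw [r1_im, h.2.1]
    nlinarith

theorem r1_eq {n : ℕ} (hn : 1 ≤ n) {z : ℂ} (hz : z ∈ comb n) : r1 n z = z := by
  rcases hz with ⟨h0, h1, h2⟩ | ⟨j, hj, hre, h0, h1⟩
  · have hx : xb n z = z.re := by rw [xb, min_eq_left h1, max_eq_right h0]
    have ht : cl z.im = 0 := by rw [h2]; exact cl_of_nonpos le_rfl
    obtain ⟨k, hk, h3, h4, h | h | h⟩ := r1_cases hn z
    · rw [ht, hx] at h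
      apply Complex.ext
      · rw [r1_re]
        linarith [h.1, h.2.1, h.2.2]
      · rw [r1_im, h2, h.2.1]
        linarith [h.2.1, h.2.2]
    · rw [ht, hx] at h
      apply Complex.ext
      · rw [r1_re]
        linarith [h.1]
      · rw [r1_im, h2]
        linarith [h.2.2.2]
    · rw [ht, hx] at h
      rw [hx] at h3 h4
      apply Complex.ext
      · rw [r1_re]
        linarith [h.1, h.2.1, h.2.2]
      · rw [r1_im, h2, h.2.1]
        linarith [h.2.1, h.2.2]
  · have hjn : (j : ℝ) ≤ n := by exact_mod_cast hj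
    have hj0 : (0 : ℝ) ≤ j := Nat.cast_nonneg j
    have hx : xb n z = j := by rw [xb, hre, min_eq_left hjn, max_eq_right hj0]
    have ht : cl z.im = z.im := cl_of_mem h0 h1
    obtain ⟨k, hk, h3, h4, h⟩ := r1_cases hn z
    rw [ht, hx] at h
    rw [hx] at h3 h4
    have h5 : k ≤ j := by exact_mod_cast h3
    have h6 : j ≤ k + 1 := by exact_mod_cast h4
    rcases Nat.eq_or_lt_of_le h5 with h7 | h7
    · subst h7
      rcases h with h | h | h
      · apply Complex.ext
        · rw [r1_re, hre]; linarith [h.1]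
        · rw [r1_im]; linarith [h.2.1]
      · apply Complex.ext
        · rw [r1_re, hre]; nlinarith [h.1, h.2.1]
        · rw [r1_im]; nlinarith [h.1, h.2.1, h.2.2.2]
      · exfalso
        nlinarith [h.2.1, h.2.2]
    · have h8 : j = k + 1 := by omega
      have h9 : (j : ℝ) = k + 1 := by exact_mod_cast h8
      rcases h with h | h | h
      · exfalso
        rw [h9] at h
        nlinarith [h.2.1, h.2.2]
      · rw [h9] at h hre
        apply Complex.ext
        · rw [r1_re, hre]; nlinarith [h.1, h.2.2.1]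
        · rw [r1_im]; nlinarith [h.1, h.2.2.1, h.2.2.2]
      · rw [h9] at h hre
        apply Complex.ext
        · rw [r1_re, hre]; linarith [h.1]
        · rw [r1_im]; linarith [h.2.1]

/-- the segments from a point to its image under the retraction meet the tips only at the end -/
theorem r1_stop {n : ℕ} (hn : 1 ≤ n) {z : ℂ} {s : ℝ} (hs0 : 0 ≤ s) (hs1 : s < 1)
    (h : (1 - s) • z + s • r1 n z ∈ tips n) : r1 n z = z := by
  obtain ⟨j, hj, hjz⟩ := h
  have hre := congrArg Complex.re hjz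
  have him := congrArg Complex.im hjz
  simp only [Complex.add_re, Complex.add_im, Complex.real_smul, Complex.mul_re, Complex.mul_im,
    Complex.ofReal_re, Complex.ofReal_im, zero_mul, sub_zero, add_zero, Complex.natCast_re,
    Complex.natCast_im, Complex.I_re, Complex.I_im, zero_add, r1_re, r1_im] at hre him
  have ht := cl_nonneg z.im
  have ht1 := cl_le z.im
  have hjn : (j : ℝ) ≤ n := by exact_mod_cast hj
  have hj0 : (0 : ℝ) ≤ j := Nat.cast_nonneg j
  obtain ⟨k, hk, h1, h2, hc⟩ := r1_cases hn z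
  have hkn : (k : ℝ) + 1 ≤ n := by exact_mod_cast hk
  have hk0 : (0 : ℝ) ≤ k := Nat.cast_nonneg k
  have hs' : 0 < 1 - s := by linarith
  have hY1 : rY n z ≤ 1 := by
    rcases hc with h | h | h
    · rw [h.2.1]; nlinarith
    · rw [h.2.2.2]; norm_num
    · rw [h.2.1]; nlinarith
  have hX : (k : ℝ) ≤ rX n z ∧ rX n z ≤ k + 1 := by
    rcases hc with h | h | h
    · rw [h.1]; constructor <;> linarith
    · exact ⟨h.2.1, h.2.2.1⟩
    · rw [h.1]; constructor <;> linarith
  have hy : 1 ≤ z.im := by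
    by_contra hlt
    rw [not_le] at hlt
    nlinarith
  have ht2 : cl z.im = 1 := cl_of_ge hy
  rw [ht2] at hc
  -- the abscissa of `z` lies in `[0, n]`
  have hxb : xb n z = z.re := by
    rcases lt_or_ge z.re 0 with hneg | hpos
    · exfalso
      have h3 : xb n z = 0 := by
        rw [xb]
        exact max_eq_left ((min_le_left _ _).trans hneg.le)
      rw [h3] at h1 hc
      have hk00 : (k : ℝ) = 0 := le_antisymm h1 hk0
      rw [hk00] at hc
      have hX0 : rX n z = 0 := by
        rcases hc with h | h | h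
        · exact h.1
        · linarith [h.1, h.2.1]
        · linarith [h.1, h.2.1, h.2.2]
      rw [hX0] at hre
      nlinarith
    · rcases lt_or_ge (n : ℝ) z.re with hbig | hle
      · exfalso
        have h3 : xb n z = n := by
          rw [xb, min_eq_right hbig.le]
          exact max_eq_right (Nat.cast_nonneg n)
        rw [h3] at h2 hc
        have hk00 : (n : ℝ) = k + 1 := le_antisymm h2 hkn
        rw [hk00] at hc hbig hjn
        have hX0 : rX n z = k + 1 := by
          rcases hc with h | h | h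
          · linarith [h.1, h.2.1, h.2.2]
          · linarith [h.1, h.2.2.1]
          · exact h.1
        rw [hX0] at hre
        nlinarith
      · rw [xb, min_eq_left hle, max_eq_right hpos]
  rw [hxb] at h1 h2 hc
  -- the abscissa is an integer
  have hint : z.re = k ∨ z.re = k + 1 := by
    by_contra hcon
    rw [not_or] at hcon
    have h3 : (k : ℝ) < z.re := lt_of_le_of_ne h1 (Ne.symm hcon.1)
    have h4 : z.re < k + 1 := lt_of_le_of_ne h2 hcon.2
    have h5 : (k : ℝ) < j := by nlinarith [hX.1]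
    have h6 : (j : ℝ) < k + 1 := by nlinarith [hX.2]
    have h7 : k < j := by exact_mod_cast h5
    have h8 : j < k + 1 := by exact_mod_cast h6
    omega
  have hY : rX n z = z.re ∧ rY n z = 1 := by
    rcases hint with h3 | h3
    · rw [h3] at hc ⊢
      rcases hc with h | h | h
      · exact ⟨h.1, by linarith [h.2.1]⟩
      · exfalso; linarith [h.1, h.2.1]
      · exfalso; linarith [h.2.1, h.2.2]
    · rw [h3] at hc ⊢
      rcases hc with h | h | h
      · exfalso; linarith [h.2.1, h.2.2]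
      · exfalso; linarith [h.1, h.2.2.1]
      · exact ⟨h.1, by linarith [h.2.1]⟩
  rw [hY.2] at him
  have him2 : z.im = 1 := by nlinarith
  apply Complex.ext
  · rw [r1_re, hY.1]
  · rw [r1_im, hY.2, him2]

end Pool.Agent.H208.Tree
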