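import Pool.Agent.H208.Tree.Push

set_option autoImplicit false

/-!
# The edges of the preimage of the comb
-/

noncomputable section

namespace Pool.Agent.H208.Tree

open Set Filter Topology OnePoint Pool.Agent.H208.Thu unitInterval

/-- the edges of the comb -/
abbrev Ed (n : ℕ) := Fin n ⊕ Fin (n + 1)

/-- parametrisation of the edges: the spine from left to right, the teeth from the tip down -/
def ep {n : ℕ} : Ed n → ℝ → ℂ
  | Sum.inl k, s => ((k : ℕ) : ℂ) + s
  | Sum.inr k, s => ((k : ℕ) : ℂ) + (1 - s) * Complex.I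

theorem ep_inl_re {n : ℕ} (k : Fin n) (s : ℝ) : (ep (Sum.inl k : Ed n) s).re = k + s := by
  simp [ep]
theorem ep_inl_im {n : ℕ} (k : Fin n) (s : ℝ) : (ep (Sum.inl k : Ed n) s).im = 0 := by
  simp [ep]
theorem ep_inr_re {n : ℕ} (k : Fin (n + 1)) (s : ℝ) : (ep (Sum.inr k : Ed n) s).re = k := by
  simp [ep]
theorem ep_inr_im {n : ℕ} (k : Fin (n + 1)) (s : ℝ) : (ep (Sum.inr k : Ed n) s).im = 1 - s := by
  simp [ep]

theorem continuous_ep {n : ℕ} (e : Ed n) : Continuous (ep e) := by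
  rcases e with k | k
  · unfold ep; fun_prop
  · unfold ep; fun_prop

theorem ep_dist {n : ℕ} (e : Ed n) (s t : ℝ) : ‖ep e s - ep e t‖ = |s - t| := by
  rcases e with k | k
  · have : ep (Sum.inl k : Ed n) s - ep (Sum.inl k) t = ((s - t : ℝ) : ℂ) := by
      simp only [ep]; push_cast; ring
    rw [this, Complex.norm_real, Real.norm_eq_abs]
  · have : ep (Sum.inr k : Ed n) s - ep (Sum.inr k) t = ((t - s : ℝ) : ℂ) * Complex.I := by
      simp only [ep]; push_cast; ring
    rw [this, norm_mul, Complex.norm_I, mul_one, Complex.norm_real, Real.norm_eq_abs, abs_sub_comm]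

theorem ep_inj {n : ℕ} {e : Ed n} {s t : ℝ} (h : ep e s = ep e t) : s = t := by
  have h1 := ep_dist e s t
  rw [h, sub_self, norm_zero] at h1
  exact sub_eq_zero.1 (abs_eq_zero.1 h1.symm)

/-- affine combinations on an edge -/
theorem ep_aff {n : ℕ} (e : Ed n) (s t u : ℝ) :
    (1 - u) • ep e s + u • ep e t = ep e (s + u * (t - s)) := by
  rcases e with k | k
  · simp only [ep, Complex.real_smul]; push_cast; ring
  · simp only [ep, Complex.real_smul]; push_cast; ring

/-- the vertices of the comb -/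
def V0 (n : ℕ) : Set ℂ := {z | ∃ k : ℕ, k ≤ n ∧ (z = (k : ℂ) ∨ z = (k : ℂ) + Complex.I)}

theorem V0_finite (n : ℕ) : (V0 n).Finite := by
  have h : V0 n ⊆ (fun k : ℕ => (k : ℂ)) '' Iic n ∪ (fun k : ℕ => (k : ℂ) + Complex.I) '' Iic n := by
    rintro z ⟨k, hk, h | h⟩
    · exact Or.inl ⟨k, hk, h.symm⟩
    · exact Or.inr ⟨k, hk, h.symm⟩
  exact (((finite_Iic n).image _).union ((finite_Iic n).image _)).subset h

theorem tips_sub_V0 (n : ℕ) : tips n ⊆ V0 n := by
  rintro z ⟨k, hk, h⟩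
  exact ⟨k, hk, Or.inr h⟩

theorem V0_sub_comb (n : ℕ) : V0 n ⊆ comb n := by
  rintro z ⟨k, hk, h | h⟩
  · left
    rw [h]
    refine ⟨by simp, by simpa using hk, by simp⟩
  · exact tips_sub_comb n ⟨k, hk, h⟩

theorem ep_mem {n : ℕ} (e : Ed n) {s : ℝ} (h0 : 0 ≤ s) (h1 : s ≤ 1) : ep e s ∈ comb n := by
  rcases e with k | k
  · left
    have hk : ((k : ℕ) : ℝ) + 1 ≤ n := by exact_mod_cast k.2
    have hk0 : (0 : ℝ) ≤ (k : ℕ) := Nat.cast_nonneg _
    rw [ep_inl_re, ep_inl_im]
    exact ⟨by linarith, by linarith, rfl⟩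
  · right
    refine ⟨k, by have := k.2; omega, ep_inr_re k s, ?_, ?_⟩ <;> rw [ep_inr_im] <;> linarith

theorem ep_zero_mem {n : ℕ} (e : Ed n) : ep e 0 ∈ V0 n := by
  rcases e with k | k
  · exact ⟨k, k.2.le, Or.inl (by simp [ep])⟩
  · exact ⟨k, by have := k.2; omega, Or.inr (by simp [ep])⟩

theorem ep_one_mem {n : ℕ} (e : Ed n) : ep e 1 ∈ V0 n := by
  rcases e with k | k
  · exact ⟨k + 1, k.2, Or.inl (by simp [ep])⟩
  · exact ⟨k, by have := k.2; omega, Or.inl (by simp [ep])⟩

theorem exists_ep {n : ℕ} {z : ℂ} (hn : 1 ≤ n) (hz : z ∈ comb n) :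
    ∃ (e : Ed n) (s : ℝ), 0 ≤ s ∧ s ≤ 1 ∧ ep e s = z := by
  rcases hz with ⟨h0, h1, h2⟩ | ⟨k, hk, hre, h0, h1⟩
  · by_cases h : z.re < n
    · refine ⟨Sum.inl ⟨⌊z.re⌋₊, (Nat.floor_lt h0).2 h⟩, z.re - ⌊z.re⌋₊, ?_, ?_, ?_⟩
      · linarith [Nat.floor_le h0]
      · linarith [Nat.lt_floor_add_one z.re]
      · apply Complex.ext
        · rw [ep_inl_re]; simp
        · rw [ep_inl_im, h2]
    · have h3 : z.re = n := le_antisymm h1 (not_lt.1 h)
      refine ⟨Sum.inl ⟨n - 1, by omega⟩, 1, zero_le_one, le_rfl, ?_⟩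
      apply Complex.ext
      · rw [ep_inl_re, h3]
        simp only []
        rw [Nat.cast_sub hn]
        simp
      · rw [ep_inl_im, h2]
  · refine ⟨Sum.inr ⟨k, by omega⟩, 1 - z.im, by linarith, by linarith, ?_⟩
    apply Complex.ext
    · rw [ep_inr_re, hre]
    · rw [ep_inr_im]; ring

/-- a point in the interior of an edge determines the edge -/
theorem ep_unique {n : ℕ} {e e' : Ed n} {s s' : ℝ} (h0 : 0 < s) (h1 : s < 1) (h0' : 0 ≤ s')
    (h1' : s' ≤ 1) (h : ep e s = ep e' s') : e = e' ∧ s = s' := by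
  have hre := congrArg Complex.re h
  have him := congrArg Complex.im h
  rcases e with k | k <;> rcases e' with k' | k'
  · rw [ep_inl_re, ep_inl_re] at hre
    have h2 : ((k : ℕ) : ℝ) < (k' : ℕ) + 1 := by linarith
    have h3 : ((k' : ℕ) : ℝ) < (k : ℕ) + 1 := by linarith
    have h2' : (k : ℕ) < (k' : ℕ) + 1 := by exact_mod_cast h2
    have h3' : (k' : ℕ) < (k : ℕ) + 1 := by exact_mod_cast h3
    have h4 : k = k' := Fin.ext (by omega)
    subst h4
    exact ⟨rfl, by linarith⟩
  · rw [ep_inl_re, ep_inr_re] at hre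
    have h2 : ((k : ℕ) : ℝ) < (k' : ℕ) := by linarith
    have h3 : ((k' : ℕ) : ℝ) < (k : ℕ) + 1 := by linarith
    have h2' : (k : ℕ) < (k' : ℕ) := by exact_mod_cast h2
    have h3' : (k' : ℕ) < (k : ℕ) + 1 := by exact_mod_cast h3
    omega
  · rw [ep_inr_im, ep_inl_im] at him
    linarith
  · rw [ep_inr_re, ep_inr_re] at hre
    rw [ep_inr_im, ep_inr_im] at him
    have h4 : k = k' := Fin.ext (by exact_mod_cast hre)
    subst h4
    exact ⟨rfl, by linarith⟩

theorem ep_V0 {n : ℕ} {e : Ed n} {s : ℝ} (h0 : 0 ≤ s) (h1 : s ≤ 1) (h : ep e s ∈ V0 n) :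
    s = 0 ∨ s = 1 := by
  by_contra hcon
  rw [not_or] at hcon
  have h0' : 0 < s := lt_of_le_of_ne h0 (Ne.symm hcon.1)
  have h1' : s < 1 := lt_of_le_of_ne h1 hcon.2
  obtain ⟨k, hk, h | h⟩ := h
  · rcases e with j | j
    · have hre := congrArg Complex.re h
      rw [ep_inl_re, Complex.natCast_re] at hre
      have h2 : ((j : ℕ) : ℝ) < k := by linarith
      have h3 : (k : ℝ) < (j : ℕ) + 1 := by linarith
      have h2' : (j : ℕ) < k := by exact_mod_cast h2
      have h3' : k < (j : ℕ) + 1 := by exact_mod_cast h3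
      omega
    · have him := congrArg Complex.im h
      rw [ep_inr_im, Complex.natCast_im] at him
      linarith
  · have him := congrArg Complex.im h
    simp only [Complex.add_im, Complex.natCast_im, Complex.I_im, zero_add] at him
    rcases e with j | j
    · rw [ep_inl_im] at him
      linarith
    · rw [ep_inr_im] at him
      linarith

theorem ep_tips {n : ℕ} {e : Ed n} {s : ℝ} (h : ep e s ∈ tips n) : s = 0 := by
  obtain ⟨k, hk, h⟩ := h
  have him := congrArg Complex.im h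
  simp only [Complex.add_im, Complex.natCast_im, Complex.I_im, zero_add] at him
  rcases e with j | j
  · rw [ep_inl_im] at him
    linarith
  · rw [ep_inr_im] at him
    linarith

/-! Lifts of the edges -/

/-- `x` is a lift of the edge `e` -/
def IsLift {n : ℕ} (F : Sph → Sph) (e : Ed n) (x : C(I, Sph)) : Prop :=
  ∀ s : I, F (x s) = ((ep e s : ℂ) : Sph)

variable {F : Sph → Sph} {n : ℕ}

theorem symm_symm' (v : I) : σ (σ v) = v := symm_symm v

theorem IsLift.stop_down {e : Ed n} {x : C(I, Sph)} (hx : IsLift F e x) {s : I} : Stops (P0 n) fun u => F (x (min s (σ u))) := by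
  intro u u' huu hu
  simp only [] at hu ⊢
  rw [hx] at hu ⊢
  rw [hx]
  have h1 := ep_tips (coe_mem_P0.1 hu)
  have h2 : min s (σ u) = 0 := Subtype.ext h1
  have h3 : min s (σ u') ≤ min s (σ u) := min_le_min le_rfl (by
    show (1 : ℝ) - u' ≤ 1 - u
    have : (u : ℝ) ≤ u' := huu
    linarith)
  rw [h2] at h3
  have h4 : min s (σ u') = 0 := le_antisymm h3 nonneg'
  rw [h2, h4]

theorem IsLift.eq (hF : Brc F (P0 n)) {e : Ed n} {x y : C(I, Sph)} (hx : IsLift F e x)
    (hy : IsLift F e y) {s : I} (hs : ep e s ∉ tips n) (h : x s = y s) : x = y := by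
  have up : ∀ u : I, x (max s u) = y (max s u) := by
    refine lift_unique hF (γ₁ := fun u => x (max s u)) (γ₂ := fun u => y (max s u))
      (by fun_prop) (by fun_prop) (fun u => by rw [hx, hy]) ?_ ?_
    · intro u u' _ hu
      exfalso
      simp only [] at hu
      rw [hx] at hu
      have h1 := ep_tips (coe_mem_P0.1 hu)
      have h2 : max s u = 0 := Subtype.ext h1
      have h3 : s = 0 := le_antisymm (h2 ▸ le_max_left s u) nonneg'
      apply hs
      rw [h3]
      rw [h2] at hu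
      exact coe_mem_P0.1 hu
    · rw [max_eq_left (nonneg' (t := s)), h]
  have down : ∀ u : I, x (min s (σ u)) = y (min s (σ u)) := by
    refine lift_unique hF (γ₁ := fun u => x (min s (σ u))) (γ₂ := fun u => y (min s (σ u)))
      ?_ ?_ (fun u => by rw [hx, hy]) hx.stop_down ?_
    · exact x.continuous.comp (continuous_const.min continuous_symm)
    · exact y.continuous.comp (continuous_const.min continuous_symm)
    · rw [symm_zero, min_eq_left (le_one' (t := s)), h]
  ext v
  rcases le_total s v with hv | hv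
  · have := up v
    rwa [max_eq_right hv] at this
  · have := down (σ v)
    rwa [symm_symm', min_eq_right hv] at this

theorem exists_lift_through (hF : Brc F (P0 n)) {e : Ed n} {x : Sph} {s : I}
    (hx : F x = ((ep e s : ℂ) : Sph)) (hs : ep e s ∉ tips n) :
    ∃ y : C(I, Sph), IsLift F e y ∧ y s = x := by
  have hep := continuous_ep e
  have hs0 : s ≠ 0 ∨ ∀ u : I, ep e u ∉ tips n := by
    by_cases h : s = 0
    · right
      intro u hu
      have h1 := ep_tips hu
      have h2 : u = 0 := Subtype.ext h1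
      rw [h2, ← h] at hu
      exact hs hu
    · exact Or.inl h
  obtain ⟨Γ₁, a1, a2, a3⟩ := lift_path hF (γ := fun u : I => ((ep e (max s u : I) : ℂ) : Sph))
    (OnePoint.continuous_coe.comp (hep.comp (continuous_subtype_val.comp
      (continuous_const.max continuous_id)))) (fun u u' _ hu => by
      exfalso
      rcases hs0 with h | h
      · have h1 := ep_tips (coe_mem_P0.1 hu)
        have h2 : max s u = 0 := Subtype.ext h1
        exact h (le_antisymm (h2 ▸ le_max_left s u) nonneg')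
      · exact h _ (coe_mem_P0.1 hu)) (x := x) (by
      rw [max_eq_left (nonneg' (t := s)), hx])
  obtain ⟨Γ₂, b1, b2, b3⟩ := lift_path hF (γ := fun u : I => ((ep e (min s (σ u) : I) : ℂ) : Sph))
    (OnePoint.continuous_coe.comp (hep.comp (continuous_subtype_val.comp
      (continuous_const.min continuous_symm)))) (fun u u' huu hu => by
      have h1 := ep_tips (coe_mem_P0.1 hu)
      have h2 : min s (σ u) = 0 := Subtype.ext h1
      have h3 : min s (σ u') ≤ min s (σ u) := min_le_min le_rfl (by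
        show (1 : ℝ) - u' ≤ 1 - u
        have : (u : ℝ) ≤ u' := huu
        linarith)
      rw [h2] at h3
      have h4 : min s (σ u') = 0 := le_antisymm h3 nonneg'
      simp only []
      rw [h2, h4]) (x := x) (by
      rw [symm_zero, min_eq_left (le_one' (t := s)), hx])
  have c1 : ∀ u ≤ s, Γ₁ u = x := by
    intro u hu
    rw [← a3]
    refine const_fiber hF a1 (S := Icc 0 s) isPreconnected_Icc (y := ((ep e s : ℂ) : Sph))
      (fun v hv => ?_) ⟨nonneg', hu⟩ ⟨le_rfl, nonneg'⟩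
    rw [a2, max_eq_left hv.2]
  have c2 : ∀ u, s ≤ σ u → Γ₂ u = x := by
    intro u hu
    rw [← b3]
    refine const_fiber hF b1 (S := Icc 0 u) isPreconnected_Icc (y := ((ep e s : ℂ) : Sph))
      (fun v hv => ?_) ⟨nonneg', le_rfl⟩ ⟨le_rfl, nonneg'⟩
    have : s ≤ σ v := hu.trans (by
      show (1 : ℝ) - u ≤ 1 - v
      have : (v : ℝ) ≤ u := hv.2
      linarith)
    rw [b2, min_eq_left this]
  classical
  refine ⟨⟨fun v => if v ≤ s then Γ₂ (σ v) else Γ₁ v, ?_⟩, ?_, ?_⟩
  · refine continuous_if_le continuous_id continuous_const (b1.comp continuous_symm).continuousOn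
      a1.continuousOn ?_
    intro v hv
    rw [hv, c1 s le_rfl]
    exact c2 (σ s) (by rw [symm_symm'])
  · intro v
    show F (if v ≤ s then Γ₂ (σ v) else Γ₁ v) = _
    split_ifs with h
    · rw [b2, symm_symm', min_eq_right h]
    · rw [a2, max_eq_right (not_le.1 h).le]
  · show (if s ≤ s then Γ₂ (σ s) else Γ₁ s) = x
    rw [if_pos le_rfl]
    exact c2 (σ s) (by rw [symm_symm'])

theorem lifts_finite (hF : Brc F (P0 n)) (e : Ed n) : {x : C(I, Sph) | IsLift F e x}.Finite := by
  have hh : (2⁻¹ : ℝ) ∈ I := ⟨by norm_num, by norm_num⟩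
  set u : I := ⟨2⁻¹, hh⟩ with hu
  have htip : ep e u ∉ tips n := by
    intro h
    have := ep_tips h
    have h2 : (u : ℝ) = 2⁻¹ := rfl
    rw [h2] at this
    norm_num at this
  refine Set.Finite.of_finite_image (f := fun x : C(I, Sph) => x u)
    ((hF.fib ((ep e u : ℂ) : Sph)).subset ?_) ?_
  · rintro _ ⟨x, hx, rfl⟩
    exact hx u
  · intro x hx y hy hxy
    exact IsLift.eq hF hx hy htip hxy

theorem exists_lift_at (hF : Brc F (P0 n)) (hn : 1 ≤ n) {x : Sph} {z : ℂ} (hx : F x = (z : Sph))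
    (hz : z ∈ comb n) : ∃ (e : Ed n) (y : C(I, Sph)) (s : I), IsLift F e y ∧ y s = x := by
  by_cases htip : z ∈ tips n
  swap
  · obtain ⟨e, s, h0, h1, rfl⟩ := exists_ep hn hz
    obtain ⟨y, hy1, hy2⟩ := exists_lift_through hF (s := ⟨s, h0, h1⟩) hx htip
    exact ⟨e, y, ⟨s, h0, h1⟩, hy1, hy2⟩
  · obtain ⟨k, hk, rfl⟩ := htip
    set e : Ed n := Sum.inr ⟨k, by omega⟩ with he
    have hep0 : ep e 0 = (k : ℂ) + Complex.I := by simp [he, ep]
    set Z : Set Sph := ⋃ y ∈ {y : C(I, Sph) | IsLift F e y}, range y with hZ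
    have hZc : IsClosed Z := (lifts_finite hF e).isClosed_biUnion fun y _ =>
      (isCompact_range y.continuous).isClosed
    have hxZ : x ∈ closure Z := by
      rw [mem_closure_iff_nhds]
      intro O hO
      have h1 : F '' O ∈ 𝓝 (F x) := hF.op.image_mem_nhds hO
      rw [hx, ← hep0] at h1
      have h2 : ContinuousAt (fun t : ℝ => ((ep e t : ℂ) : Sph)) 0 :=
        (OnePoint.continuous_coe.comp (continuous_ep e)).continuousAt
      have h3 := h2 h1
      obtain ⟨r, hr0, hr⟩ := Metric.mem_nhds_iff.1 h3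
      set t : ℝ := min (r / 2) 1 with ht
      have ht0 : 0 < t := lt_min (half_pos hr0) one_pos
      have ht1 : t ≤ 1 := min_le_right _ _
      have htr : t ∈ Metric.ball (0 : ℝ) r := by
        rw [Metric.mem_ball, dist_zero_right, Real.norm_of_nonneg ht0.le]
        have := min_le_left (r / 2) 1
        linarith
      obtain ⟨w, hwO, hw⟩ := hr htr
      obtain ⟨y, hy1, hy2⟩ := exists_lift_through hF (s := ⟨t, ht0.le, ht1⟩) (x := w) hw (by
        intro h
        have := ep_tips h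
        simp only [] at this
        linarith)
      exact ⟨w, hwO, mem_iUnion₂.2 ⟨y, hy1, ⟨_, hy2⟩⟩⟩
    rw [hZc.closure_eq] at hxZ
    obtain ⟨y, hy, s, hs⟩ := mem_iUnion₂.1 hxZ
    exact ⟨e, y, s, hy, hs⟩

/-- reversed path -/
def rv (x : C(I, Sph)) : C(I, Sph) := x.comp ⟨σ, continuous_symm⟩

@[simp] theorem rv_apply (x : C(I, Sph)) (s : I) : rv x s = x (σ s) := rfl
theorem rv_zero (x : C(I, Sph)) : rv x 0 = x 1 := by simp
theorem rv_one (x : C(I, Sph)) : rv x 1 = x 0 := by simp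
@[simp] theorem rv_rv (x : C(I, Sph)) : rv (rv x) = x := by ext s; simp
theorem range_rv (x : C(I, Sph)) : range (rv x) = range x := by
  ext y
  constructor
  · rintro ⟨s, rfl⟩; exact ⟨σ s, rfl⟩
  · rintro ⟨s, rfl⟩; exact ⟨σ s, by simp⟩

/-- oriented edges of the preimage of the comb -/
def IsE (n : ℕ) (F : Sph → Sph) (x : C(I, Sph)) : Prop := ∃ e : Ed n, IsLift F e x ∨ IsLift F e (rv x)

theorem IsE.rev {x : C(I, Sph)} (h : IsE n F x) : IsE n F (rv x) := by
  obtain ⟨e, h | h⟩ := h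
  · exact ⟨e, Or.inr (by rwa [rv_rv])⟩
  · exact ⟨e, Or.inl h⟩

theorem isE_finite (hF : Brc F (P0 n)) : {x : C(I, Sph) | IsE n F x}.Finite := by
  have h1 : {x : C(I, Sph) | IsE n F x} =
      ⋃ e : Ed n, ({x | IsLift F e x} ∪ rv ⁻¹' {x | IsLift F e x}) := by
    ext x
    simp [IsE]
  rw [h1]
  refine finite_iUnion fun e => (lifts_finite hF e).union ((lifts_finite hF e).preimage ?_)
  intro x _ y _ h
  rw [← rv_rv x, h, rv_rv]

/-- the vertices of the preimage of the comb -/
def V1 (n : ℕ) (F : Sph → Sph) : Set Sph := {x | ∃ z ∈ V0 n, F x = (z : Sph)}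

theorem IsE.zero_mem {x : C(I, Sph)} (h : IsE n F x) : x 0 ∈ V1 n F := by
  obtain ⟨e, h | h⟩ := h
  · exact ⟨_, ep_zero_mem e, by rw [h]; rfl⟩
  · refine ⟨_, ep_one_mem e, ?_⟩
    have := h 1
    rw [rv_one] at this
    rw [this]; rfl

theorem IsE.one_mem {x : C(I, Sph)} (h : IsE n F x) : x 1 ∈ V1 n F := by
  rw [← rv_zero]
  exact h.rev.zero_mem

theorem IsE.injective {x : C(I, Sph)} (h : IsE n F x) : Function.Injective x := by
  obtain ⟨e, h | h⟩ := h
  · intro s t hst
    have h1 : ep e s = ep e t := OnePoint.coe_injective (by rw [← h, ← h, hst])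
    exact Subtype.ext (ep_inj h1)
  · intro s t hst
    have h1 : ep e (σ s : I) = ep e (σ t : I) := OnePoint.coe_injective (by
      rw [← h, ← h]
      simp [hst])
    exact symm_bijective.injective (Subtype.ext (ep_inj h1))

theorem IsE.zero_ne_one {x : C(I, Sph)} (h : IsE n F x) : x 0 ≠ x 1 := fun h' =>
  _root_.zero_ne_one (h.injective h')

theorem IsE.mem_comb {x : C(I, Sph)} (h : IsE n F x) (s : I) : ∃ z ∈ comb n, F (x s) = (z : Sph) := by
  obtain ⟨e, h | h⟩ := h
  · exact ⟨_, ep_mem e s.2.1 s.2.2, h s⟩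
  · refine ⟨_, ep_mem e (σ s).2.1 (σ s).2.2, ?_⟩
    have := h (σ s)
    rwa [rv_apply, symm_symm'] at this

theorem IsE.vertex {x : C(I, Sph)} (h : IsE n F x) {s : I} (hs : x s ∈ V1 n F) : s = 0 ∨ s = 1 := by
  obtain ⟨z, hz, hzs⟩ := hs
  obtain ⟨e, h | h⟩ := h
  · rw [h] at hzs
    have h1 : ep e s ∈ V0 n := by rwa [OnePoint.coe_injective hzs]
    rcases ep_V0 s.2.1 s.2.2 h1 with h2 | h2
    · exact Or.inl (Subtype.ext h2)
    · exact Or.inr (Subtype.ext h2)
  · have h3 := h (σ s)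
    rw [rv_apply, symm_symm', hzs] at h3
    have h1 : ep e (σ s : I) ∈ V0 n := by rwa [← OnePoint.coe_injective h3]
    rcases ep_V0 (σ s).2.1 (σ s).2.2 h1 with h2 | h2
    · right
      have : σ s = 0 := Subtype.ext h2
      rw [← symm_symm' s, this, symm_zero]
    · left
      have : σ s = 1 := Subtype.ext h2
      rw [← symm_symm' s, this, symm_one]

theorem IsE.eq_of_mem (hF : Brc F (P0 n)) {x y : C(I, Sph)} (hx : IsE n F x) (hy : IsE n F y)
    {s t : I} (h : x s = y t) (hs : x s ∉ V1 n F) : (y = x ∧ s = t) ∨ (y = rv x ∧ s = σ t) := by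
  have key : ∀ (x y : C(I, Sph)) (e e' : Ed n), IsLift F e x → IsLift F e' y → ∀ s t : I,
      x s = y t → x s ∉ V1 n F → y = x ∧ s = t := by
    intro x y e e' hx hy s t h hs
    have h1 : ep e s = ep e' t := OnePoint.coe_injective (by rw [← hx, ← hy, h])
    have h2 : ep e s ∉ V0 n := fun hv => hs ⟨_, hv, hx s⟩
    have h0 : (s : ℝ) ≠ 0 := fun h' => h2 (by rw [h']; exact ep_zero_mem e)
    have h0' : (s : ℝ) ≠ 1 := fun h' => h2 (by rw [h']; exact ep_one_mem e)
    obtain ⟨h3, h4⟩ := ep_unique (lt_of_le_of_ne s.2.1 (Ne.symm h0)) (lt_of_le_of_ne s.2.2 h0')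
      t.2.1 t.2.2 h1
    subst h3
    have h5 : s = t := Subtype.ext h4
    subst h5
    exact ⟨(IsLift.eq hF hx hy (fun ht => h2 (tips_sub_V0 n ht)) h).symm, rfl⟩
  obtain ⟨e, hx | hx⟩ := hx <;> obtain ⟨e', hy | hy⟩ := hy
  · exact Or.inl (key x y e e' hx hy s t h hs)
  · have h1 := key x (rv y) e e' hx hy s (σ t) (by simpa using h) hs
    right
    exact ⟨by rw [← h1.1, rv_rv], h1.2⟩
  · have h1 := key (rv x) y e e' hx hy (σ s) t (by simpa using h) (by simpa using hs)
    right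
    exact ⟨h1.1, by rw [← h1.2, symm_symm']⟩
  · have h1 := key (rv x) (rv y) e e' hx hy (σ s) (σ t) (by simpa using h) (by simpa using hs)
    left
    refine ⟨by rw [← rv_rv y, h1.1, rv_rv], ?_⟩
    rw [← symm_symm' s, h1.2, symm_symm']

end Pool.Agent.H208.Tree
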