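import Pool.Agent.H208.Tree.Lift

set_option autoImplicit false

/-!
# Uniform contraction of lifts for expanding Thurston maps
-/

noncomputable section

namespace Pool.Agent.H208.Tree

open Set Filter Topology OnePoint Pool.Agent.H208.Thu unitInterval

instance : SecondCountableTopology Sph := by
  have h1 : ∀ k : Bool, ∃ m : Sph ≃ₜ Sph, m (if k then ∞ else ((0 : ℂ) : Sph)) = ∞ :=
    fun k => exists_mob1 _
  choose m hm using h1
  have : ∀ k : Bool, SecondCountableTopology (range (emb (m k))) := fun k =>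
    (emb_open (m k)).isEmbedding.toHomeomorph.symm.secondCountableTopology
  refine TopologicalSpace.secondCountableTopology_of_countable_cover
    (U := fun b : Bool => range (emb (m b))) (fun b => (emb_open _).isOpen_range) ?_
  rw [eq_univ_iff_forall]
  intro x
  rw [mem_iUnion]
  by_cases hx : x = ∞
  · exact ⟨false, (mem_range_emb (hm false)).2 (by rw [hx]; exact infty_ne_coe _)⟩
  · exact ⟨true, (mem_range_emb (hm true)).2 hx⟩

instance : MetricSpace Sph := TopologicalSpace.metrizableSpaceMetric Sph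

variable {f : Sph → Sph} {P : Set Sph}

/-- radial lifts over a convex set with at most one branch value, its centre -/
theorem exists_radial (hf : Brc f P) (m : Sph ≃ₜ Sph) {B : Set ℂ} (hB : Convex ℝ B) {c : ℂ}
    (hc : c ∈ B) (hP : ∀ z ∈ B, emb m z ∈ P → z = c) :
    ∃ G : Sph → I → Sph, (∀ x z, z ∈ B → f x = emb m z → Continuous (G x) ∧ G x 0 = x ∧
      ∀ s : I, f (G x s) = emb m ((1 - (s : ℝ)) • z + (s : ℝ) • c)) ∧
      ContinuousOn (fun x => G x 1) (f ⁻¹' (emb m '' B)) := by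
  have hinj := (emb_open m).injective
  set A : Set Sph := f ⁻¹' (emb m '' B) with hA
  have hz : ∀ x : A, ∃ z ∈ B, emb m z = f x := fun x => x.2
  choose z hzB hze using hz
  have hzc : Continuous z := by
    have h1 : Continuous fun x : A => emb m (z x) := by
      simp only [hze]
      exact hf.cont.comp continuous_subtype_val
    exact (emb_open m).isInducing.continuous_iff.2 h1
  have hHc : Continuous fun p : A × I => emb m ((1 - (p.2 : ℝ)) • z p.1 + (p.2 : ℝ) • c) := by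
    refine (emb_cont m).comp ?_
    fun_prop
  have hmem : ∀ (x : A) (s : I), (1 - (s : ℝ)) • z x + (s : ℝ) • c ∈ B := fun x s =>
    hB (hzB x) hc (by linarith [s.2.2]) s.2.1 (by ring)
  obtain ⟨G, h1, h2, h3⟩ := lift_homotopy hf hHc (fun x s s' hss hs => by
    simp only [] at hs ⊢
    have h4 := hP _ (hmem x s) hs
    have h5 : ((1 - (s : ℝ)) : ℝ) • (z x - c) = 0 := by
      have h6 : (1 - (s : ℝ)) • (z x - c) = ((1 - (s : ℝ)) • z x + (s : ℝ) • c) - c := by
        simp only [Complex.real_smul]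
        push_cast
        ring
      rw [h6, h4, sub_self]
    rw [smul_eq_zero] at h5
    rcases h5 with h5 | h5
    · have h7 : s = 1 := Subtype.ext (by
        show (s : ℝ) = 1
        linarith)
      have h8 : s' = 1 := le_antisymm le_one' (h7 ▸ hss)
      rw [h7, h8]
    · rw [sub_eq_zero] at h5
      rw [h5]
      congr 1
      rw [← add_smul, ← add_smul]
      congr 1
      ring) (h₀ := fun x : A => (x : Sph)) continuous_subtype_val (fun x => by
    simp only [Icc.coe_zero, sub_zero, one_smul, zero_smul, add_zero]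
    exact (hze x).symm)
  classical
  refine ⟨fun x s => if h : x ∈ A then G (⟨x, h⟩, s) else x, ?_, ?_⟩
  · intro x w hw hfx
    have hx : x ∈ A := ⟨w, hw, hfx.symm⟩
    simp only [dif_pos hx]
    refine ⟨h1.comp (Continuous.prodMk_right _), h3 _, fun s => ?_⟩
    rw [h2]
    simp only []
    have : z ⟨x, hx⟩ = w := hinj (by rw [hze, ← hfx])
    rw [this]
  · rw [continuousOn_iff_continuous_domRestrict]
    have h4 : Continuous fun x : A => G (x, 1) := h1.comp (Continuous.prodMk_left 1)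
    refine h4.congr fun x => ?_
    show G (x, 1) = if h : (x : Sph) ∈ A then G (⟨x, h⟩, 1) else x
    rw [dif_pos x.2]

theorem radial_const (hf : Brc f P) {m : Sph ≃ₜ Sph} {B : Set ℂ} {c : ℂ} {G : Sph → I → Sph}
    (h : ∀ x z, z ∈ B → f x = emb m z → Continuous (G x) ∧ G x 0 = x ∧
      ∀ s : I, f (G x s) = emb m ((1 - (s : ℝ)) • z + (s : ℝ) • c))
    (hc : ContinuousOn (fun x => G x 1) (f ⁻¹' (emb m '' B))) {Y : Set Sph}
    (hY : IsPreconnected Y) (hYs : Y ⊆ f ⁻¹' (emb m '' B)) {x y : Sph} (hx : x ∈ Y) (hy : y ∈ Y) :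
    G x 1 = G y 1 := by
  refine hY.constant_of_mapsTo (f := fun x => G x 1) (T := f ⁻¹' {emb m c})
    (hf.fib _).isDiscrete (hc.mono hYs) ?_ hx hy
  intro u hu
  obtain ⟨z, hz, hzu⟩ := hYs hu
  obtain ⟨-, -, h3⟩ := h u z hz hzu.symm
  have := h3 1
  simp only [Icc.coe_one, sub_self, zero_smul, one_smul, zero_add] at this
  exact this

/-- the contraction property near a point of the Jordan curve -/
theorem expand_at (hf : Brc f P) {γ : Circle → Sph} (hγ : Continuous γ) (hi : Function.Injective γ)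
    (hPC : P ⊆ range γ) (hmesh : MeshTendsToZero f (range γ)) (p : Sph) :
    ∃ B : Set Sph, IsOpen B ∧ p ∈ B ∧ ∀ ε > 0, ∃ N : ℕ, ∀ n ≥ N, ∀ A : Set Sph, IsPreconnected A →
      A ⊆ f^[n] ⁻¹' B → ∀ x ∈ A, ∀ y ∈ A, dist x y < ε := by
  have hCc : IsClosed (range γ) := (isCompact_range hγ).isClosed
  -- the mesh in terms of the metric
  have hmesh' : ∀ ε > 0, ∃ N : ℕ, ∀ n ≥ N, ∀ x ∈ f^[n] ⁻¹' (range γ)ᶜ,
      ∀ y ∈ connectedComponentIn (f^[n] ⁻¹' (range γ)ᶜ) x, dist x y < ε := by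
    intro ε hε
    obtain ⟨N, hN⟩ := hmesh {U | ∃ y, U = Metric.ball y (ε / 2)} (by
      rintro U ⟨y, rfl⟩
      exact Metric.isOpen_ball) (by
      rw [sUnion_eq_univ_iff]
      intro y
      exact ⟨_, ⟨y, rfl⟩, Metric.mem_ball_self (half_pos hε)⟩)
    refine ⟨N, fun n hn x hx y hy => ?_⟩
    obtain ⟨U, ⟨c, rfl⟩, hU⟩ := hN n hn x hx
    have h1 := hU (mem_connectedComponentIn hx)
    have h2 := hU hy
    rw [Metric.mem_ball] at h1 h2
    have h3 := dist_triangle_right x y c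
    linarith
  by_cases hp : p ∈ range γ
  swap
  · refine ⟨(range γ)ᶜ, hCc.isOpen_compl, hp, fun ε hε => ?_⟩
    obtain ⟨N, hN⟩ := hmesh' ε hε
    refine ⟨N, fun n hn A hA hAs x hx y hy => hN n hn x (hAs hx) y ?_⟩
    exact hA.subset_connectedComponentIn hx hAs hy
  obtain ⟨θ, rfl⟩ := hp
  obtain ⟨y, hy⟩ := exists_ne_sph (γ θ)
  obtain ⟨m, hm1, hm2⟩ := exists_mob hy.symm
  have hm0 : emb m 0 = γ θ := by rw [emb, ← hm1, m.symm_apply_apply]
  have hinj := (emb_open m).injective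
  obtain ⟨r, hr0, hr⟩ : ∃ r > 0, ∀ z ∈ Metric.ball (0 : ℂ) r, emb m z ∈ P → z = 0 := by
    have h1 : IsClosed (P \ {γ θ}) := (hf.fin.subset sdiff_subset).isClosed
    have h2 : emb m ⁻¹' (P \ {γ θ})ᶜ ∈ 𝓝 (0 : ℂ) := by
      refine (h1.isOpen_compl.preimage (emb_cont m)).mem_nhds ?_
      rw [mem_preimage, hm0]
      exact fun h => h.2 rfl
    obtain ⟨r, hr0, hr⟩ := Metric.mem_nhds_iff.1 h2
    refine ⟨r, hr0, fun z hz hzP => ?_⟩
    by_contra hne
    exact hr hz ⟨hzP, fun h => hne (hinj (by rw [hm0]; exact h))⟩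
  set D : Set Sph := emb m '' Metric.ball 0 r with hD
  have hDo : IsOpen D := (emb_open m).isOpenMap _ Metric.isOpen_ball
  have hθD : γ θ ∈ D := ⟨0, Metric.mem_ball_self hr0, hm0⟩
  obtain ⟨B, hBo, hθB, hBD, hBloc⟩ := jordan_local hγ hi θ hDo hθD
  refine ⟨B, hBo, hθB, fun ε hε => ?_⟩
  obtain ⟨N, hN⟩ := hmesh' (ε / 4) (by positivity)
  refine ⟨N, fun n hn A hA hAs a ha b hb => ?_⟩
  have hF := hf.iter n
  set F := f^[n] with hFdef
  obtain ⟨G, hG1, hG2⟩ := exists_radial hF m (convex_ball (0 : ℂ) r) (Metric.mem_ball_self hr0) hr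
  set A' := connectedComponentIn (F ⁻¹' B) a with hA'
  have hA'o : IsOpen A' := (hBo.preimage hF.cont).connectedComponentIn
  have hAA' : A ⊆ A' := hA.subset_connectedComponentIn ha hAs
  have hA's : A' ⊆ F ⁻¹' B := connectedComponentIn_subset _ _
  have hA'D : A' ⊆ F ⁻¹' D := fun x hx => hBD (hA's hx)
  set w := G a 1 with hw
  have hconst : ∀ x ∈ A', G x 1 = w := fun x hx =>
    radial_const hF hG1 hG2 isPreconnected_connectedComponentIn hA'D hx (hAA' ha)
  have hFw : F w = γ θ := by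
    obtain ⟨z, hz, hza⟩ := hA'D (hAA' ha)
    have := (hG1 a z hz hza.symm).2.2 1
    simp only [Icc.coe_one, sub_self, zero_smul, one_smul, zero_add] at this
    rw [← hm0]
    exact this
  -- main claim
  have claim : ∀ x ∈ A', F x ∉ range γ → dist x w ≤ ε / 4 := by
    intro x hx hxC
    have hxx : x ∈ F ⁻¹' (range γ)ᶜ := hxC
    set W := connectedComponentIn (F ⁻¹' (range γ)ᶜ) x with hW
    have hwW : w ∈ closure W := by
      rw [mem_closure_iff_nhds]
      intro O hO
      obtain ⟨U, U', V, hU, hU', hV, hwU, hUO, hd, hwV, hVU⟩ := hF.sep hO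
      rw [hFw] at hwV
      obtain ⟨r₂, hr20, hr2⟩ : ∃ r₂ > 0, ∀ z ∈ Metric.ball (0 : ℂ) r₂,
          emb m z ∈ V ∩ B ∧ z ∈ Metric.ball (0 : ℂ) r := by
        have h2 : emb m ⁻¹' (V ∩ B) ∩ Metric.ball (0 : ℂ) r ∈ 𝓝 (0 : ℂ) := by
          refine inter_mem (((hV.inter hBo).preimage (emb_cont m)).mem_nhds ?_)
            (Metric.ball_mem_nhds _ hr0)
          rw [mem_preimage, hm0]
          exact ⟨hwV, hθB⟩
        obtain ⟨r₂, h3, h4⟩ := Metric.mem_nhds_iff.1 h2
        exact ⟨r₂, h3, fun z hz => h4 hz⟩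
      have hO2 : emb m '' Metric.ball 0 r₂ ∈ 𝓝 (γ θ) :=
        ((emb_open m).isOpenMap _ Metric.isOpen_ball).mem_nhds ⟨0, Metric.mem_ball_self hr20, hm0⟩
      obtain ⟨u, ⟨z, hz, rfl⟩, hu⟩ := mem_closure_iff_nhds.1 (jordan_closure hγ hi hxC θ) _ hO2
      have huC : emb m z ∉ range γ := connectedComponentIn_subset _ _ hu
      have h3 := hBloc (F x) (hA's hx) (emb m z) (hr2 z hz).1.2 hxC huC hu
      have hDC : IsOpen (D \ range γ) := hDo.sdiff hCc
      have hFxD : F x ∈ D \ range γ := ⟨hA'D hx, hxC⟩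
      have h4 : IsPathConnected (connectedComponentIn (D \ range γ) (F x)) :=
        hDC.connectedComponentIn.isConnected_iff_isPathConnected.1
          (isConnected_connectedComponentIn_iff.2 hFxD)
      obtain ⟨ρ, hρ⟩ := h4.joinedIn _ (mem_connectedComponentIn hFxD) _ h3
      have hρ' : ∀ s, ρ s ∈ D \ range γ := fun s => connectedComponentIn_subset _ _ (hρ s)
      obtain ⟨Γ, hΓ1, hΓ2, hΓ3⟩ := lift_path hF ρ.continuous
        (fun s s' _ hs => absurd (hPC hs) (hρ' s).2) (x := x) (by rw [ρ.source])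
      have hΓr : IsPreconnected (range Γ) := isPreconnected_range hΓ1
      have h5 : range Γ ⊆ W := by
        refine hΓr.subset_connectedComponentIn ⟨0, hΓ3⟩ ?_
        rintro _ ⟨s, rfl⟩
        rw [mem_preimage, hΓ2]
        exact (hρ' s).2
      have h6 : G (Γ 1) 1 = w := by
        rw [← hconst x hx]
        refine radial_const hF hG1 hG2 hΓr ?_ ⟨1, rfl⟩ ⟨0, hΓ3⟩
        rintro _ ⟨s, rfl⟩
        rw [mem_preimage, hΓ2]
        exact (hρ' s).1
      have h7 : F (Γ 1) = emb m z := by rw [hΓ2, ρ.target]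
      obtain ⟨g1, g2, g3⟩ := hG1 (Γ 1) z (hr2 z hz).2 h7
      have h8 : range (G (Γ 1)) ⊆ U ∪ U' := by
        rintro _ ⟨s, rfl⟩
        apply hVU
        rw [mem_preimage, g3]
        have h9 : (1 - (s : ℝ)) • z + (s : ℝ) • (0 : ℂ) ∈ Metric.ball (0 : ℂ) r₂ :=
          (convex_ball (0 : ℂ) r₂) hz (Metric.mem_ball_self hr20) (by linarith [s.2.2]) s.2.1
            (by ring)
        exact (hr2 _ h9).1.1
      have h10 := (isPreconnected_range g1).subset_left_of_subset_union hU hU' hd h8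
        ⟨w, ⟨1, h6⟩, hwU⟩
      exact ⟨Γ 1, hUO (h10 ⟨0, g2⟩), h5 ⟨1, rfl⟩⟩
    have hcl : IsClosed {y | dist x y ≤ ε / 4} := isClosed_le (by fun_prop) continuous_const
    have h11 : closure W ⊆ {y | dist x y ≤ ε / 4} :=
      closure_minimal (fun y hy => (hN n hn x hxx y hy).le) hcl
    exact h11 hwW
  have claim2 : ∀ x ∈ A', dist x w ≤ ε / 4 := by
    intro x hx
    have hdense : Dense (F ⁻¹' (range γ)ᶜ) := (jordan_dense hγ hi).preimage hF.op
    have h1 := hdense.open_subset_closure_inter hA'o hx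
    have hcl : IsClosed {y | dist y w ≤ ε / 4} := isClosed_le (by fun_prop) continuous_const
    exact closure_minimal (fun y hy => claim y hy.1 hy.2) hcl h1
  have h1 := claim2 a (hAA' ha)
  have h2 := claim2 b (hAA' hb)
  have h3 := dist_triangle_right a b w
  linarith

/-- uniform contraction of lifts -/
def Expand (f : Sph → Sph) (δ : ℝ) : Prop := ∀ ε > 0, ∃ N : ℕ, ∀ n ≥ N, ∀ A : Set Sph,
  IsPreconnected A → (∃ p, ∀ x ∈ A, dist (f^[n] x) p < δ) → ∀ x ∈ A, ∀ y ∈ A, dist x y < ε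

theorem exists_expand (hf : Brc f P) {γ : Circle → Sph} (hγ : Continuous γ)
    (hi : Function.Injective γ) (hPC : P ⊆ range γ) (hmesh : MeshTendsToZero f (range γ)) :
    ∃ δ > 0, Expand f δ := by
  choose B hBo hpB hB using expand_at hf hγ hi hPC hmesh
  obtain ⟨t, -, ht⟩ := isCompact_univ.elim_nhds_subcover B fun p _ => (hBo p).mem_nhds (hpB p)
  obtain ⟨δ, hδ, hleb⟩ := lebesgue_number_lemma_of_metric (ι := t) (c := fun p => B p)
    isCompact_univ (fun p => hBo p) (by
      intro x hx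
      obtain ⟨p, hp, hxp⟩ := mem_iUnion₂.1 (ht hx)
      exact mem_iUnion.2 ⟨⟨p, hp⟩, hxp⟩)
  refine ⟨δ, hδ, fun ε hε => ?_⟩
  choose N hN using fun p => hB p ε hε
  refine ⟨t.sup N, fun n hn A hA ⟨p, hp⟩ x hx y hy => ?_⟩
  obtain ⟨q, hq⟩ := hleb p (mem_univ p)
  refine hN q n ((Finset.le_sup q.2).trans hn) A hA (fun u hu => ?_) x hx y hy
  exact hq (hp u hu)

theorem Expand.conj {δ : ℝ} (hδ : 0 < δ) (h : Expand f δ) (m : Sph ≃ₜ Sph) :
    ∃ δ' > 0, Expand (fun x => m (f (m.symm x))) δ' := by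
  have u1 : UniformContinuous m := CompactSpace.uniformContinuous_of_continuous m.continuous
  have u2 : UniformContinuous m.symm :=
    CompactSpace.uniformContinuous_of_continuous m.symm.continuous
  rw [Metric.uniformContinuous_iff] at u1 u2
  obtain ⟨δ', hδ', h2⟩ := u2 δ hδ
  have hit : ∀ n x, (fun x => m (f (m.symm x)))^[n] x = m (f^[n] (m.symm x)) := by
    intro n
    induction n with
    | zero => intro x; simp
    | succ n ih =>
      intro x
      rw [Function.iterate_succ_apply', ih, Function.iterate_succ_apply', m.symm_apply_apply]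
  refine ⟨δ', hδ', fun ε hε => ?_⟩
  obtain ⟨ε', hε', h1⟩ := u1 ε hε
  obtain ⟨N, hN⟩ := h ε' hε'
  refine ⟨N, fun n hn A hA ⟨p, hp⟩ x hx y hy => ?_⟩
  have h3 := hN n hn (m.symm '' A) (hA.image _ m.symm.continuous.continuousOn) ⟨m.symm p, by
    rintro _ ⟨u, hu, rfl⟩
    have h4 := hp u hu
    rw [hit] at h4
    have h5 := h2 h4
    rwa [m.symm_apply_apply] at h5⟩ (m.symm x) ⟨x, hx, rfl⟩ (m.symm y) ⟨y, hy, rfl⟩
  have h6 := h1 h3
  rwa [m.apply_symm_apply, m.apply_symm_apply] at h6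

end Pool.Agent.H208.Tree
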