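import Pool.Agent.H208.Tree.Phi1

set_option autoImplicit false

/-!
# The homotopy from the identity to the embedding of the comb
-/

noncomputable section

namespace Pool.Agent.H208.Tree

open Set Filter Topology OnePoint Pool.Agent.H208.Thu unitInterval

variable {n : ℕ}

theorem comb_im {z : ℂ} (hz : z ∈ comb n) : 0 ≤ z.im ∧ z.im ≤ 1 := by
  rcases hz with ⟨-, -, h⟩ | ⟨k, -, -, h0, h1⟩
  · rw [h]; exact ⟨le_rfl, zero_le_one⟩
  · exact ⟨h0, h1⟩

theorem comb_pos {z : ℂ} (hz : z ∈ comb n) (h : 0 < z.im) : ∃ k : ℕ, k ≤ n ∧ z.re = k := by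
  rcases hz with ⟨-, -, h'⟩ | ⟨k, hk, hre, -, -⟩
  · linarith
  · exact ⟨k, hk, hre⟩

theorem comb_tip {z : ℂ} (hz : z ∈ comb n) (h : z.im = 1) : z ∈ tips n := by
  obtain ⟨k, hk, hre⟩ := comb_pos hz (by rw [h]; exact one_pos)
  refine ⟨k, hk, ?_⟩
  apply Complex.ext
  · simp [hre]
  · simp [h]

theorem tips_im {z : ℂ} (hz : z ∈ tips n) : z.im = 1 := by
  obtain ⟨k, -, rfl⟩ := hz
  simp

theorem tips_sep {z z' : ℂ} (hz : z ∈ tips n) (hz' : z' ∈ tips n) (h : ‖z - z'‖ < 1) : z = z' := by
  obtain ⟨k, -, rfl⟩ := hz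
  obtain ⟨k', -, rfl⟩ := hz'
  have h1 := (re_le_norm _).trans_lt h
  simp only [Complex.sub_re, Complex.add_re, Complex.natCast_re, Complex.I_re, add_zero,
    abs_lt] at h1
  have h2 : (k : ℝ) < k' + 1 := by linarith [h1.2]
  have h3 : (k' : ℝ) < k + 1 := by linarith [h1.1]
  have h2' : k < k' + 1 := by exact_mod_cast h2
  have h3' : k' < k + 1 := by exact_mod_cast h3
  have : k = k' := by omega
  rw [this]

/-- the tip above `z` -/
def vt (z : ℂ) : ℂ := (z.re : ℂ) + Complex.I

/-- the point of the comb above `z` at distance at least `t` from the top -/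
def qt (z : ℂ) (t : ℝ) : ℂ := (z.re : ℂ) + ((1 - max (1 - z.im) t : ℝ) : ℂ) * Complex.I

theorem qt_re (z : ℂ) (t : ℝ) : (qt z t).re = z.re := by simp [qt]
theorem qt_im (z : ℂ) (t : ℝ) : (qt z t).im = 1 - max (1 - z.im) t := by simp [qt]
theorem vt_re (z : ℂ) : (vt z).re = z.re := by simp [vt]
theorem vt_im (z : ℂ) : (vt z).im = 1 := by simp [vt]

theorem qt_mem {z : ℂ} (hz : z ∈ comb n) {t : ℝ} (ht : t ≤ 1) : qt z t ∈ comb n := by
  rcases hz with ⟨h0, h1, h⟩ | ⟨k, hk, hre, h0, h1⟩
  · left
    rw [qt_re, qt_im, h, sub_zero, max_eq_left ht]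
    exact ⟨h0, h1, by ring⟩
  · right
    refine ⟨k, hk, by rw [qt_re, hre], ?_, ?_⟩
    · rw [qt_im]
      have : max (1 - z.im) t ≤ 1 := max_le (by linarith) ht
      linarith
    · rw [qt_im]
      have := le_max_left (1 - z.im) t
      linarith

theorem qt_of_ge {z : ℂ} {t : ℝ} (h : t ≤ 1 - z.im) : qt z t = z := by
  apply Complex.ext
  · rw [qt_re]
  · rw [qt_im, max_eq_left h]; ring

theorem qt_sub_vt (z : ℂ) (t : ℝ) : ‖qt z t - vt z‖ = |max (1 - z.im) t| := by
  have : qt z t - vt z = ((-max (1 - z.im) t : ℝ) : ℂ) * Complex.I := by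
    apply Complex.ext
    · simp [qt, vt]
    · simp [qt, vt]
  rw [this, norm_mul, Complex.norm_I, mul_one, Complex.norm_real, Real.norm_eq_abs, abs_neg]

theorem sub_vt (z : ℂ) : ‖z - vt z‖ = |1 - z.im| := by
  have : z - vt z = ((-(1 - z.im) : ℝ) : ℂ) * Complex.I := by
    apply Complex.ext
    · simp [vt]
    · simp [vt]
  rw [this, norm_mul, Complex.norm_I, mul_one, Complex.norm_real, Real.norm_eq_abs, abs_neg]

/-- the ratio -/
def ct (z : ℂ) (t : ℝ) : ℝ := (1 - z.im) / max (1 - z.im) t

theorem ct_nonneg {z : ℂ} (hz : z ∈ comb n) (t : ℝ) : 0 ≤ ct z t := by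
  have := (comb_im hz).2
  exact div_nonneg (by linarith) ((show 0 ≤ 1 - z.im by linarith).trans (le_max_left _ _))

theorem ct_le {z : ℂ} (hz : z ∈ comb n) (t : ℝ) : ct z t ≤ 1 := by
  have := (comb_im hz).2
  exact div_le_one_of_le₀ (le_max_left _ _) ((show 0 ≤ 1 - z.im by linarith).trans (le_max_left _ _))

/-- the collapsing homotopy near the tips -/
def Hs (φ : ℂ → ℂ) (z : ℂ) (t : ℝ) : ℂ := vt z + (ct z t) • (φ (qt z t) - vt z)

variable {φ : ℂ → ℂ}

theorem vt_tip {z : ℂ} (hz : z ∈ tips n) : vt z = z := by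
  apply Complex.ext
  · rw [vt_re]
  · rw [vt_im, tips_im hz]

theorem vt_mem {z : ℂ} (hz : z ∈ comb n) (h : 0 < z.im) : vt z ∈ tips n := by
  obtain ⟨k, hk, hre⟩ := comb_pos hz h
  refine ⟨k, hk, ?_⟩
  rw [vt, hre]
  simp

theorem Hs_of_ge {z : ℂ} (hz : z ∈ comb n) {t : ℝ} (h0 : 0 ≤ t) (ht : t ≤ 1 - z.im)
    (hid : ∀ z ∈ tips n, φ z = z) : Hs φ z t = φ z := by
  unfold Hs
  rw [qt_of_ge ht]
  by_cases h : z.im = 1
  · have hz' := comb_tip hz h
    rw [hid z hz', vt_tip hz', sub_self, smul_zero, add_zero]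
  · have h1 : ct z t = 1 := by
      unfold ct
      rw [max_eq_left ht, div_self]
      intro h2
      apply h
      linarith
    rw [h1, one_smul]
    ring

theorem Hs_cont (hc : ContinuousOn φ (comb n)) (hid : ∀ z ∈ tips n, φ z = z) :
    ContinuousOn (fun p : ℂ × ℝ => Hs φ p.1 p.2) (comb n ×ˢ Icc 0 1) := by
  have hv : Continuous fun p : ℂ × ℝ => vt p.1 := by
    unfold vt
    have := Complex.continuous_re
    fun_prop
  have hq : Continuous fun p : ℂ × ℝ => qt p.1 p.2 := by
    unfold qt
    have := Complex.continuous_re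
    have := Complex.continuous_im
    fun_prop
  have hD : ContinuousOn (fun p : ℂ × ℝ => φ (qt p.1 p.2) - vt p.1) (comb n ×ˢ Icc 0 1) := by
    refine ContinuousOn.sub ?_ hv.continuousOn
    exact hc.comp (f := fun p : ℂ × ℝ => qt p.1 p.2) hq.continuousOn fun p hp =>
      qt_mem hp.1 hp.2.2
  unfold Hs
  refine hv.continuousOn.add ?_
  rintro ⟨z, t⟩ ⟨hz, ht⟩
  simp only [] at hz ht
  have hm : Continuous fun p : ℂ × ℝ => max (1 - p.1.im) p.2 := by
    have := Complex.continuous_im
    fun_prop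
  by_cases h : max (1 - z.im) t = 0
  · have h1 : z.im = 1 := by
      have h2 := le_max_left (1 - z.im) t
      have := (comb_im hz).2
      linarith
    have h2 : t = 0 := by
      have h3 := le_max_right (1 - z.im) t
      linarith [ht.1]
    have hzt := comb_tip hz h1
    have hval : φ (qt z t) - vt z = 0 := by
      rw [qt_of_ge (by rw [h1, h2]; norm_num), hid z hzt, vt_tip hzt, sub_self]
    have h3 := hD (z, t) ⟨hz, ht⟩
    have h4 : Tendsto (fun p : ℂ × ℝ => φ (qt p.1 p.2) - vt p.1)
        (𝓝[comb n ×ˢ Icc 0 1] (z, t)) (𝓝 0) := by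
      have := h3.tendsto
      simp only [hval] at this
      exact this
    show Tendsto _ _ _
    simp only [hval, smul_zero]
    refine squeeze_zero_norm' ?_ (tendsto_norm_zero.comp h4)
    filter_upwards [self_mem_nhdsWithin] with p hp
    rw [norm_smul, Real.norm_eq_abs, abs_of_nonneg (ct_nonneg hp.1 _)]
    exact mul_le_of_le_one_left (norm_nonneg _) (ct_le hp.1 _)
  · have h5 : ContinuousWithinAt (fun p : ℂ × ℝ => ct p.1 p.2) (comb n ×ˢ Icc 0 1) (z, t) := by
      refine ContinuousAt.continuousWithinAt ?_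
      unfold ct
      refine ContinuousAt.div ?_ hm.continuousAt h
      have := Complex.continuous_im
      exact Continuous.continuousAt (by fun_prop)
    exact h5.smul (hD (z, t) ⟨hz, ht⟩)

theorem Hs_dist {r : ℝ} (hφ : ∀ z ∈ comb n, ‖φ z - z‖ < r) (hr : r ≤ 1)
    (hid : ∀ z ∈ tips n, φ z = z) {z : ℂ} (hz : z ∈ comb n) {t : ℝ} (h0 : 0 ≤ t) (ht : t ≤ r) :
    ‖Hs φ z t - z‖ ≤ 3 * r := by
  have hr0 : 0 < r := (norm_nonneg _).trans_lt (hφ z hz)
  by_cases h : t ≤ 1 - z.im
  · rw [Hs_of_ge hz h0 h hid]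
    linarith [hφ z hz]
  · rw [not_le] at h
    have him := comb_im hz
    have hq := qt_mem hz (ht.trans hr)
    have h1 : ‖Hs φ z t - vt z‖ ≤ 2 * r := by
      unfold Hs
      rw [add_sub_cancel_left, norm_smul, Real.norm_eq_abs, abs_of_nonneg (ct_nonneg hz _)]
      refine (mul_le_of_le_one_left (norm_nonneg _) (ct_le hz _)).trans ?_
      have h2 := norm_sub_le_norm_sub_add_norm_sub (φ (qt z t)) (qt z t) (vt z)
      rw [qt_sub_vt, max_eq_right h.le, abs_of_nonneg h0] at h2
      linarith [hφ _ hq]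
    have h3 := norm_sub_le_norm_sub_add_norm_sub (Hs φ z t) (vt z) z
    rw [norm_sub_rev (vt z) z, sub_vt, abs_of_nonneg (by linarith)] at h3
    linarith

theorem exists_hom (hc : ContinuousOn φ (comb n)) (hi : InjOn φ (comb n)) {r : ℝ} (hr : r ≤ 1 / 4)
    (hφ : ∀ z ∈ comb n, ‖φ z - z‖ < r) (hid : ∀ z ∈ tips n, φ z = z) :
    ∃ Φ : ℂ → ℝ → ℂ, ContinuousOn (fun p : ℂ × ℝ => Φ p.1 p.2) (comb n ×ˢ Icc 0 1) ∧
      (∀ z, Φ z 0 = z) ∧ (∀ z ∈ comb n, Φ z 1 = φ z) ∧
      (∀ z ∈ comb n, ∀ t, 0 ≤ t → t ≤ 1 → ‖Φ z t - z‖ ≤ 3 * r) ∧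
      (∀ z ∈ tips n, ∀ t, Φ z t = z) ∧
      (∀ z ∈ comb n, z ∉ tips n → ∀ t, 0 ≤ t → t ≤ 1 → Φ z t ∉ tips n) := by
  have hid0 : ∀ z ∈ comb n, Hs φ z 0 = φ z := fun z hz =>
    Hs_of_ge hz le_rfl (by linarith [(comb_im hz).2]) hid
  have htipH : ∀ z ∈ tips n, ∀ t, Hs φ z t = z := by
    intro z hz t
    have h1 : ct z t = 0 := by rw [ct, tips_im hz]; simp
    rw [Hs, h1, zero_smul, add_zero, vt_tip hz]
  have hinj : ∀ z ∈ comb n, z ∉ tips n → φ z ∉ tips n := by
    intro z hz hzt h
    have h1 := hi hz (tips_sub_comb n h) (hid _ h).symm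
    apply hzt
    rw [h1]
    exact h
  refine ⟨fun z τ => (1 - min (2 * τ) 1) • z + (min (2 * τ) 1) •
    Hs φ z (r * (1 - max (2 * τ - 1) 0)), ?_, ?_, ?_, ?_, ?_, ?_⟩
  · have h1 : ContinuousOn (fun p : ℂ × ℝ => Hs φ p.1 (r * (1 - max (2 * p.2 - 1) 0)))
        (comb n ×ˢ Icc 0 1) := by
      refine (Hs_cont hc hid).comp (f := fun p : ℂ × ℝ => (p.1, r * (1 - max (2 * p.2 - 1) 0)))
        (by fun_prop) ?_
      rintro ⟨z, t⟩ ⟨hz, ht⟩
      have hr0 : 0 < r := (norm_nonneg _).trans_lt (hφ z hz)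
      have h2 : 0 ≤ max (2 * t - 1) 0 := le_max_right _ _
      have h3 : max (2 * t - 1) 0 ≤ 1 := max_le (by linarith [ht.2]) zero_le_one
      refine ⟨hz, ?_, ?_⟩
      · show 0 ≤ r * (1 - max (2 * t - 1) 0)
        exact mul_nonneg hr0.le (by linarith)
      · show r * (1 - max (2 * t - 1) 0) ≤ 1
        nlinarith
    exact (ContinuousOn.smul (f := fun p : ℂ × ℝ => 1 - min (2 * p.2) 1) (by fun_prop)
      (by fun_prop)).add (ContinuousOn.smul (f := fun p : ℂ × ℝ => min (2 * p.2) 1) (by fun_prop) h1)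
  · intro z
    simp
  · intro z hz
    norm_num
    exact hid0 z hz
  · intro z hz t h0 h1
    have hr0 : 0 < r := (norm_nonneg _).trans_lt (hφ z hz)
    have h2 : 0 ≤ max (2 * t - 1) 0 := le_max_right _ _
    have h3 : max (2 * t - 1) 0 ≤ 1 := max_le (by linarith) zero_le_one
    have h4 := Hs_dist hφ (by linarith) hid hz (t := r * (1 - max (2 * t - 1) 0))
      (mul_nonneg hr0.le (by linarith)) (by nlinarith)
    have h5 : 0 ≤ min (2 * t) 1 := le_min (by linarith) zero_le_one
    have h6 : min (2 * t) 1 ≤ 1 := min_le_right _ _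
    simp only []
    have h7 : (1 - min (2 * t) 1) • z + (min (2 * t) 1) • Hs φ z (r * (1 - max (2 * t - 1) 0)) - z =
        (min (2 * t) 1) • (Hs φ z (r * (1 - max (2 * t - 1) 0)) - z) := by
      rw [sub_smul, one_smul, smul_sub]
      ring
    rw [h7, norm_smul, Real.norm_eq_abs, abs_of_nonneg h5]
    exact (mul_le_of_le_one_left (norm_nonneg _) h6).trans h4
  · intro z hz t
    simp only []
    rw [htipH z hz, ← add_smul, sub_add_cancel, one_smul]
  · intro z hz hzt τ h0 h1 hmem
    simp only [] at hmem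
    have hr0 : 0 < r := (norm_nonneg _).trans_lt (hφ z hz)
    have him := comb_im hz
    have him1 : z.im < 1 := lt_of_le_of_ne him.2 fun h => hzt (comb_tip hz h)
    rcases le_total τ (1 / 2) with hτ | hτ
    · rw [min_eq_left (by linarith : 2 * τ ≤ 1), max_eq_right (by linarith : 2 * τ - 1 ≤ 0), sub_zero,
        mul_one] at hmem
      set a := 2 * τ with ha
      have ha0 : 0 ≤ a := by positivity
      have ha1 : a ≤ 1 := by linarith
      by_cases h : r ≤ 1 - z.im
      · rw [Hs_of_ge hz hr0.le h hid] at hmem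
        have h2 : ‖(1 - a) • z + a • φ z - z‖ < r := by
          have h3 : (1 - a) • z + a • φ z - z = a • (φ z - z) := by
            rw [sub_smul, one_smul, smul_sub]
            ring
          rw [h3, norm_smul, Real.norm_eq_abs, abs_of_nonneg ha0]
          exact (mul_le_of_le_one_left (norm_nonneg _) ha1).trans_lt (hφ z hz)
        have h4 := (im_le_norm _).trans_lt h2
        rw [Complex.sub_im, tips_im hmem, abs_lt] at h4
        linarith [h4.2]
      · rw [not_le] at h
        have hzpos : 0 < z.im := by linarith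
        have hv := vt_mem hz hzpos
        have hq := qt_mem hz (show r ≤ 1 by linarith)
        have hmax : max (1 - z.im) r = r := max_eq_right h.le
        have e1 : (1 - a) • z + a • Hs φ z r = vt z + ((1 - z.im) / r) •
            ((qt z r - vt z) + a • (φ (qt z r) - qt z r)) := by
          have e2 : z = vt z + ((1 - z.im) / r) • (qt z r - vt z) := by
            apply Complex.ext
            · simp [vt, qt]
            · simp only [Complex.add_im, vt_im, Complex.smul_im, Complex.sub_im, qt_im, hmax,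
                smul_eq_mul]
              field_simp
              ring
          have e3 : ct z r = (1 - z.im) / r := by rw [ct, hmax]
          rw [Hs, e3]
          set c := (1 - z.im) / r
          have e4 : (1 - a) • z = (1 - a) • (vt z + c • (qt z r - vt z)) := by rw [← e2]
          rw [e4]
          simp only [Complex.real_smul]
          push_cast
          ring
        rw [e1] at hmem
        have hbr : (qt z r - vt z) + a • (φ (qt z r) - qt z r) ≠ 0 := by
          intro h2
          have h3 : qt z r - vt z = -(a • (φ (qt z r) - qt z r)) := eq_neg_of_add_eq_zero_left h2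
          have h4 : ‖qt z r - vt z‖ = ‖a • (φ (qt z r) - qt z r)‖ := by rw [h3, norm_neg]
          rw [qt_sub_vt, hmax, abs_of_pos hr0, norm_smul, Real.norm_eq_abs, abs_of_nonneg ha0] at h4
          have h5 := mul_le_of_le_one_left (norm_nonneg (φ (qt z r) - qt z r)) ha1
          linarith [hφ _ hq]
        have hbn : ‖(qt z r - vt z) + a • (φ (qt z r) - qt z r)‖ < 2 * r := by
          refine (norm_add_le _ _).trans_lt ?_
          rw [qt_sub_vt, hmax, abs_of_pos hr0, norm_smul, Real.norm_eq_abs, abs_of_nonneg ha0]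
          have h5 := mul_le_of_le_one_left (norm_nonneg (φ (qt z r) - qt z r)) ha1
          linarith [hφ _ hq]
        have hc0 : 0 < (1 - z.im) / r := div_pos (by linarith) hr0
        have hc1 : (1 - z.im) / r ≤ 1 := (div_le_one hr0).2 h.le
        have h6 := tips_sep hmem hv (by
          rw [add_sub_cancel_left, norm_smul, Real.norm_eq_abs, abs_of_pos hc0]
          have := mul_le_of_le_one_left
            (norm_nonneg ((qt z r - vt z) + a • (φ (qt z r) - qt z r))) hc1
          linarith)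
        have h7 : ((1 - z.im) / r) • ((qt z r - vt z) + a • (φ (qt z r) - qt z r)) = 0 := by
          simpa using h6
        rcases smul_eq_zero.1 h7 with h8 | h8
        · linarith
        · exact hbr h8
    · rw [min_eq_right (by linarith : 1 ≤ 2 * τ), max_eq_left (by linarith : 0 ≤ 2 * τ - 1), sub_self,
        zero_smul, zero_add, one_smul] at hmem
      set t := r * (1 - (2 * τ - 1)) with ht
      have ht0 : 0 ≤ t := mul_nonneg hr0.le (by linarith)
      have htr : t ≤ r := by rw [ht]; nlinarith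
      by_cases h : t ≤ 1 - z.im
      · rw [Hs_of_ge hz ht0 h hid] at hmem
        exact hinj z hz hzt hmem
      · rw [not_le] at h
        have htpos : 0 < t := by linarith
        have hzpos : 0 < z.im := by linarith
        have hv := vt_mem hz hzpos
        have hq := qt_mem hz (show t ≤ 1 by linarith)
        have hmax : max (1 - z.im) t = t := max_eq_right h.le
        have hqt : qt z t ∉ tips n := by
          intro h2
          have := tips_im h2
          rw [qt_im, hmax] at this
          linarith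
        have hne : φ (qt z t) - vt z ≠ 0 := by
          intro h2
          apply hinj _ hq hqt
          rw [sub_eq_zero.1 h2]
          exact hv
        have hlt : ‖φ (qt z t) - vt z‖ < 2 * r := by
          have h2 := norm_sub_le_norm_sub_add_norm_sub (φ (qt z t)) (qt z t) (vt z)
          rw [qt_sub_vt, hmax, abs_of_nonneg ht0] at h2
          linarith [hφ _ hq]
        have e3 : ct z t = (1 - z.im) / t := by rw [ct, hmax]
        rw [Hs, e3] at hmem
        have hc0 : 0 < (1 - z.im) / t := div_pos (by linarith) htpos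
        have hc1 : (1 - z.im) / t ≤ 1 := (div_le_one htpos).2 h.le
        have h6 := tips_sep hmem hv (by
          rw [add_sub_cancel_left, norm_smul, Real.norm_eq_abs, abs_of_pos hc0]
          have := mul_le_of_le_one_left (norm_nonneg (φ (qt z t) - vt z)) hc1
          linarith)
        have h7 : ((1 - z.im) / t) • (φ (qt z t) - vt z) = 0 := by
          simpa using h6
        rcases smul_eq_zero.1 h7 with h8 | h8
        · linarith
        · exact hne h8

end Pool.Agent.H208.Tree
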