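import Pool.Agent.H208.Tree.Limit

set_option autoImplicit false

/-!
# Injectivity of the limit
-/

noncomputable section

namespace Pool.Agent.H208.Tree

open Set Filter Topology OnePoint Pool.Agent.H208.Thu unitInterval

variable {n : ℕ}

theorem conv01 {θ a b : ℝ} (h0 : 0 ≤ θ) (h1 : θ ≤ 1) (ha : 0 ≤ a) (ha1 : a ≤ 1) (hb : 0 ≤ b)
    (hb1 : b ≤ 1) : 0 ≤ a + θ * (b - a) ∧ a + θ * (b - a) ≤ 1 := by
  have e : a + θ * (b - a) = (1 - θ) * a + θ * b := by ring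
  rw [e]
  have k1 := mul_nonneg h0 hb
  have k2 := mul_nonneg (sub_nonneg.2 h1) ha
  have k3 := mul_nonneg h0 (sub_nonneg.2 hb1)
  have k4 := mul_nonneg (sub_nonneg.2 h1) (sub_nonneg.2 ha1)
  constructor
  · linarith
  · have : (1 - θ) * a + θ * b = 1 - θ * (1 - b) - (1 - θ) * (1 - a) := by ring
    linarith

theorem Markov.iter {g : ℂ → ℂ} (hg : Markov n g) (k : ℕ) : ∀ (e : Ed n) (t : ℝ), 0 ≤ t → t ≤ 1 →
    ∃ (e' : Ed n) (u v s₀ : ℝ), 0 ≤ u ∧ u ≤ 1 ∧ 0 ≤ v ∧ v ≤ 1 ∧ |v - u| ≤ (1 / 4) ^ k ∧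
      0 ≤ s₀ ∧ s₀ ≤ 1 ∧ t = u + s₀ * (v - u) ∧
      ∀ s, 0 ≤ s → s ≤ 1 → g^[k] (ep e (u + s * (v - u))) = ep e' s := by
  induction k with
  | zero =>
    intro e t h0 h1
    refine ⟨e, 0, 1, t, le_rfl, zero_le_one, zero_le_one, le_rfl, by simp, h0, h1, by ring, ?_⟩
    intro s _ _
    simp
  | succ k ih =>
    intro e t h0 h1
    obtain ⟨e', u, v, s₀, a1, a2, a3, a4, a5, a6, a7, a8, a9⟩ := ih e t h0 h1
    obtain ⟨e'', u', v', s₁, b1, b2, b3, b4, b5, b6, b7, b8, b9, b10⟩ := hg e' s₀ a6 a7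
    refine ⟨e'', u + u' * (v - u), u + v' * (v - u), s₁, ?_, ?_, ?_, ?_, ?_, b7, b8, ?_, ?_⟩
    · exact (conv01 b1 b2 a1 a2 a3 a4).1
    · exact (conv01 b1 b2 a1 a2 a3 a4).2
    · exact (conv01 b3 b4 a1 a2 a3 a4).1
    · exact (conv01 b3 b4 a1 a2 a3 a4).2
    · have : u + v' * (v - u) - (u + u' * (v - u)) = (v' - u') * (v - u) := by ring
      rw [this, abs_mul, pow_succ, mul_comm]
      exact mul_le_mul a5 b6 (abs_nonneg _) (by positivity)
    · rw [a8, b9]; ring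
    · intro s hs0 hs1
      obtain ⟨c1, c2⟩ := conv01 hs0 hs1 b1 b2 b3 b4
      have c3 := a9 _ c1 c2
      rw [Function.iterate_succ_apply', ← b10 s hs0 hs1, ← c3]
      congr 2
      ring_nf

theorem ball_tips {c : ℂ} {R : ℝ} (hR : R ≤ 1 - c.im) : ∀ z ∈ tips n, ‖z - c‖ < R → z = c := by
  intro z hz h
  exfalso
  have h1 := (im_le_norm _).trans_lt h
  rw [Complex.sub_im, tips_im hz, abs_lt] at h1
  linarith [h1.2]

theorem common_point (e₁ e₂ : Ed n) {a b : ℝ} (ha0 : 0 ≤ a) (ha1 : a ≤ 1) (hb0 : 0 ≤ b)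
    (hb1 : b ≤ 1) (h : ‖ep e₁ a - ep e₂ b‖ < 1 / 50) :
    ∃ s t R : ℝ, 0 ≤ s ∧ s ≤ 1 ∧ 0 ≤ t ∧ t ≤ 1 ∧ 0 < R ∧ R ≤ 1 / 2 ∧ ep e₁ s = ep e₂ t ∧
      |a - s| + 1 / 25 < R ∧ |b - t| + 1 / 25 < R ∧
      ∀ z ∈ tips n, ‖z - ep e₁ s‖ < R → z = ep e₁ s := by
  have hre := (re_le_norm _).trans_lt h
  have him := (im_le_norm _).trans_lt h
  rw [Complex.sub_re] at hre
  rw [Complex.sub_im] at him
  rcases e₁ with k | k <;> rcases e₂ with k' | k'
  · rw [ep_inl_re, ep_inl_re, abs_lt] at hre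
    have h2 : ((k : ℕ) : ℝ) < (k' : ℕ) + 2 := by linarith [hre.2]
    have h3 : ((k' : ℕ) : ℝ) < (k : ℕ) + 2 := by linarith [hre.1]
    have h2' : (k : ℕ) < (k' : ℕ) + 2 := by exact_mod_cast h2
    have h3' : (k' : ℕ) < (k : ℕ) + 2 := by exact_mod_cast h3
    rcases lt_trichotomy (k : ℕ) (k' : ℕ) with h4 | h4 | h4
    · have h5 : (k' : ℕ) = k + 1 := by omega
      rw [h5] at hre
      push_cast at hre
      refine ⟨1, 0, 1 / 4, zero_le_one, le_rfl, le_rfl, zero_le_one, by norm_num, by norm_num, ?_,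
        ?_, ?_, ball_tips (by rw [ep_inl_im]; norm_num)⟩
      · simp only [ep]
        rw [h5]
        push_cast
        ring
      · rw [abs_of_nonpos (by linarith)]; linarith [hre.1]
      · rw [sub_zero, abs_of_nonneg hb0]; linarith [hre.1]
    · have h5 : k = k' := Fin.ext h4
      subst h5
      refine ⟨a, a, 1 / 4, ha0, ha1, ha0, ha1, by norm_num, by norm_num, rfl, ?_, ?_,
        ball_tips (by rw [ep_inl_im]; norm_num)⟩
      · rw [sub_self, abs_zero]; norm_num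
      · have : |b - a| < 1 / 50 := by rw [abs_lt]; constructor <;> linarith [hre.1, hre.2]
        linarith
    · have h5 : (k : ℕ) = k' + 1 := by omega
      rw [h5] at hre
      push_cast at hre
      refine ⟨0, 1, 1 / 4, le_rfl, zero_le_one, zero_le_one, le_rfl, by norm_num, by norm_num, ?_,
        ?_, ?_, ball_tips (by rw [ep_inl_im]; norm_num)⟩
      · simp only [ep]
        rw [h5]
        push_cast
        ring
      · rw [sub_zero, abs_of_nonneg ha0]; linarith [hre.2]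
      · rw [abs_of_nonpos (by linarith)]; linarith [hre.2]
  · rw [ep_inl_re, ep_inr_re, abs_lt] at hre
    rw [ep_inl_im, ep_inr_im, abs_lt] at him
    have h2 : ((k : ℕ) : ℝ) < (k' : ℕ) + 1 := by linarith [hre.2]
    have h3 : ((k' : ℕ) : ℝ) < (k : ℕ) + 2 := by linarith [hre.1]
    have h2' : (k : ℕ) < (k' : ℕ) + 1 := by exact_mod_cast h2
    have h3' : (k' : ℕ) < (k : ℕ) + 2 := by exact_mod_cast h3
    have hb : |b - 1| + 1 / 25 < 1 / 4 := by
      rw [abs_of_nonpos (by linarith)]; linarith [him.1]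
    have h4 : (k' : ℕ) = k ∨ (k' : ℕ) = k + 1 := by omega
    rcases h4 with h4 | h4
    · rw [h4] at hre
      refine ⟨0, 1, 1 / 4, le_rfl, zero_le_one, zero_le_one, le_rfl, by norm_num, by norm_num, ?_,
        ?_, hb, ball_tips (by rw [ep_inl_im]; norm_num)⟩
      · simp only [ep]
        rw [h4]
        simp
      · rw [sub_zero, abs_of_nonneg ha0]; linarith [hre.2]
    · rw [h4] at hre
      push_cast at hre
      refine ⟨1, 1, 1 / 4, zero_le_one, le_rfl, zero_le_one, le_rfl, by norm_num, by norm_num, ?_,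
        ?_, hb, ball_tips (by rw [ep_inl_im]; norm_num)⟩
      · simp only [ep]
        rw [h4]
        simp
      · rw [abs_of_nonpos (by linarith)]; linarith [hre.1]
  · rw [ep_inr_re, ep_inl_re, abs_lt] at hre
    rw [ep_inr_im, ep_inl_im, abs_lt] at him
    have h2 : ((k' : ℕ) : ℝ) < (k : ℕ) + 1 := by linarith [hre.1]
    have h3 : ((k : ℕ) : ℝ) < (k' : ℕ) + 2 := by linarith [hre.2]
    have h2' : (k' : ℕ) < (k : ℕ) + 1 := by exact_mod_cast h2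
    have h3' : (k : ℕ) < (k' : ℕ) + 2 := by exact_mod_cast h3
    have hb : |a - 1| + 1 / 25 < 1 / 4 := by
      rw [abs_of_nonpos (by linarith)]; linarith [him.2]
    have h4 : (k : ℕ) = k' ∨ (k : ℕ) = k' + 1 := by omega
    rcases h4 with h4 | h4
    · rw [h4] at hre
      refine ⟨1, 0, 1 / 4, zero_le_one, le_rfl, le_rfl, zero_le_one, by norm_num, by norm_num, ?_,
        hb, ?_, ball_tips (by rw [ep_inr_im]; norm_num)⟩
      · simp only [ep]
        rw [h4]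
        simp
      · rw [sub_zero, abs_of_nonneg hb0]; linarith [hre.1]
    · rw [h4] at hre
      push_cast at hre
      refine ⟨1, 1, 1 / 4, zero_le_one, le_rfl, zero_le_one, le_rfl, by norm_num, by norm_num, ?_,
        hb, ?_, ball_tips (by rw [ep_inr_im]; norm_num)⟩
      · simp only [ep]
        rw [h4]
        simp
      · rw [abs_of_nonpos (by linarith)]; linarith [hre.2]
  · rw [ep_inr_re, ep_inr_re, abs_lt] at hre
    rw [ep_inr_im, ep_inr_im, abs_lt] at him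
    have h2 : ((k' : ℕ) : ℝ) < (k : ℕ) + 1 := by linarith [hre.1]
    have h3 : ((k : ℕ) : ℝ) < (k' : ℕ) + 1 := by linarith [hre.2]
    have h2' : (k' : ℕ) < (k : ℕ) + 1 := by exact_mod_cast h2
    have h3' : (k : ℕ) < (k' : ℕ) + 1 := by exact_mod_cast h3
    have h4 : k = k' := Fin.ext (by omega)
    subst h4
    rcases lt_or_ge a (1 / 4) with h5 | h5
    · refine ⟨0, 0, 1 / 2, le_rfl, zero_le_one, le_rfl, zero_le_one, by norm_num, le_rfl, rfl,
        ?_, ?_, ?_⟩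
      · rw [sub_zero, abs_of_nonneg ha0]; linarith
      · rw [sub_zero, abs_of_nonneg hb0]; linarith [him.2]
      · intro z hz hzc
        refine tips_sep hz ⟨k, by have := k.2; omega, ?_⟩ (by linarith)
        simp [ep]
    · refine ⟨a, a, 1 / 4, ha0, ha1, ha0, ha1, by norm_num, by norm_num, rfl, ?_, ?_,
        ball_tips (by rw [ep_inr_im]; linarith)⟩
      · rw [sub_self, abs_zero]; norm_num
      · have : |b - a| < 1 / 50 := by rw [abs_lt]; constructor <;> linarith [him.1, him.2]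
        linarith

theorem exists_k {l : ℝ} : ∀ᶠ k : ℕ in atTop, 0 < l → 2 * (1 / 4 : ℝ) ^ k < l := by
  have h1 : Tendsto (fun k : ℕ => 2 * (1 / 4 : ℝ) ^ k) atTop (𝓝 (2 * 0)) :=
    (tendsto_pow_atTop_nhds_zero_of_lt_one (by norm_num) (by norm_num)).const_mul 2
  rw [mul_zero] at h1
  by_cases hl : 0 < l
  · filter_upwards [h1.eventually (gt_mem_nhds hl)] with k hk _
    exact hk
  · exact Eventually.of_forall fun k h => absurd h hl

theorem Markov.expand {g : ℂ → ℂ} (hg : Markov n g) {k : ℕ} {e : Ed n} {a b R : ℝ} {c : ℂ}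
    (ha : 0 ≤ a) (hb : b ≤ 1) (hab : 2 * (1 / 4 : ℝ) ^ k < b - a) (hR : R ≤ 1 / 2)
    (h : ∀ t, a ≤ t → t ≤ b → ‖g^[k] (ep e t) - c‖ < R) : False := by
  have hpos : (0 : ℝ) < (1 / 4) ^ k := by positivity
  obtain ⟨e', u, v, s₀, a1, a2, a3, a4, a5, a6, a7, a8, a9⟩ :=
    hg.iter k e ((a + b) / 2) (by linarith) (by linarith)
  have h0 := a9 0 le_rfl zero_le_one
  have h1 := a9 1 zero_le_one le_rfl
  rw [zero_mul, add_zero] at h0
  rw [one_mul, add_sub_cancel] at h1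
  have hu : |u - (a + b) / 2| ≤ (1 / 4) ^ k := by
    rw [a8]
    have : u - (u + s₀ * (v - u)) = -(s₀ * (v - u)) := by ring
    rw [this, abs_neg, abs_mul, abs_of_nonneg a6]
    nlinarith [abs_nonneg (v - u)]
  have hv : |v - (a + b) / 2| ≤ (1 / 4) ^ k := by
    rw [a8]
    have : v - (u + s₀ * (v - u)) = (1 - s₀) * (v - u) := by ring
    rw [this, abs_mul, abs_of_nonneg (by linarith : 0 ≤ 1 - s₀)]
    nlinarith [abs_nonneg (v - u)]
  rw [abs_le] at hu hv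
  have k1 := h u (by linarith [hu.1]) (by linarith [hu.2])
  have k2 := h v (by linarith [hv.1]) (by linarith [hv.2])
  rw [h0] at k1
  rw [h1] at k2
  have k3 := norm_sub_le_norm_sub_add_norm_sub (ep e' 0) c (ep e' 1)
  rw [ep_dist, norm_sub_rev c] at k3
  norm_num at k3
  linarith

theorem seg_aux {g : ℂ → ℂ} {k : ℕ} {R : ℝ} {e e₁ : Ed n} {s u v s₀ σ₁ : ℝ} (u0 : 0 ≤ u)
    (u1 : u ≤ 1) (v0 : 0 ≤ v) (v1 : v ≤ 1) (t0 : 0 ≤ s₀) (t1 : s₀ ≤ 1) (w0 : 0 ≤ σ₁) (w1 : σ₁ ≤ 1)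
    (hs : s = u + s₀ * (v - u))
    (hgs : ∀ s, 0 ≤ s → s ≤ 1 → g^[k] (ep e (u + s * (v - u))) = ep e₁ s)
    (hR : |s₀ - σ₁| + 1 / 25 < R) :
    (0 ≤ u + σ₁ * (v - u) ∧ u + σ₁ * (v - u) ≤ 1) ∧
      ∀ θ, 0 ≤ θ → θ ≤ 1 → (0 ≤ s + θ * (u + σ₁ * (v - u) - s) ∧
        s + θ * (u + σ₁ * (v - u) - s) ≤ 1) ∧
        ‖g^[k] (ep e (s + θ * (u + σ₁ * (v - u) - s))) - ep e₁ σ₁‖ < R := by
  refine ⟨conv01 w0 w1 u0 u1 v0 v1, fun θ hθ0 hθ1 => ?_⟩
  obtain ⟨r0, r1⟩ := conv01 hθ0 hθ1 t0 t1 w0 w1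
  have e1 : s + θ * (u + σ₁ * (v - u) - s) = u + (s₀ + θ * (σ₁ - s₀)) * (v - u) := by
    rw [hs]; ring
  rw [e1, hgs _ r0 r1, ep_dist]
  refine ⟨conv01 r0 r1 u0 u1 v0 v1, ?_⟩
  have : s₀ + θ * (σ₁ - s₀) - σ₁ = (1 - θ) * (s₀ - σ₁) := by ring
  rw [this, abs_mul, abs_of_nonneg (sub_nonneg.2 hθ1)]
  have h1 := mul_nonneg hθ0 (abs_nonneg (s₀ - σ₁))
  linarith

/-- injectivity of the limit -/
theorem limit_inj {F : Sph → Sph} (hn : 1 ≤ n) (hF : Brc F (P0 n)) {g : ℂ → ℂ}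
    (hg : Markov n g) {gA : comb n → comb n} (hgA : ∀ z, (gA z : ℂ) = g z)
    {Φ : ℕ → (comb n) × I → Sph} (h : LSeq F (P0 n) gA Φ) (h0 : ∀ x : comb n, Φ 0 (x, 0) = (x : ℂ))
    (h1 : Function.Injective fun x => Φ 0 (x, 1)) {ρ η : ℝ} (hρη : ρ < η)
    (hη : ∀ z : ℂ, ‖z‖ ≤ n + 1 → ∀ x : Sph, dist x (z : Sph) < η →
      ∃ w : ℂ, x = (w : Sph) ∧ ‖w - z‖ < 1 / 100)
    (htr : ∀ i x s, dist (Φ i (x, s)) (Φ 0 (x, 0)) < ρ) {φ : comb n → Sph}
    (hφ : ∀ k x, φ x ∈ closure (Tk Φ k x)) : Function.Injective φ := by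
  have hgk : ∀ k (z : comb n), ((gA^[k] z : comb n) : ℂ) = g^[k] z := by
    intro k
    induction k with
    | zero => intro z; rfl
    | succ k ih =>
      intro z
      rw [Function.iterate_succ_apply', hgA, ih, Function.iterate_succ_apply']
  have hinj := fun k => (h.inj hF (by
    intro x y hxy
    simp only [h0] at hxy
    exact Subtype.ext (OnePoint.coe_injective hxy)) h1 k).1
  intro x y hxy
  by_contra hne
  obtain ⟨e, s, hs0, hs1, hes⟩ := exists_ep hn x.2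
  obtain ⟨e', s', hs0', hs1', hes'⟩ := exists_ep hn y.2
  obtain ⟨k, hk1, hk2, hk3, hk4, hk5⟩ : ∃ k : ℕ, (0 < |s - s'| → 2 * (1 / 4 : ℝ) ^ k < |s - s'|) ∧
      (0 < s → 2 * (1 / 4 : ℝ) ^ k < s) ∧ (0 < 1 - s → 2 * (1 / 4 : ℝ) ^ k < 1 - s) ∧
      (0 < s' → 2 * (1 / 4 : ℝ) ^ k < s') ∧ (0 < 1 - s' → 2 * (1 / 4 : ℝ) ^ k < 1 - s') :=
    (exists_k.and (exists_k.and (exists_k.and (exists_k.and exists_k)))).exists
  obtain ⟨e₁, u, v, s₀, a1, a2, a3, a4, a5, a6, a7, a8, a9⟩ := hg.iter k e s hs0 hs1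
  obtain ⟨e₂, u', v', s₀', b1, b2, b3, b4, b5, b6, b7, b8, b9⟩ := hg.iter k e' s' hs0' hs1'
  have hX : g^[k] (x : ℂ) = ep e₁ s₀ := by rw [← hes, a8]; exact a9 s₀ a6 a7
  have hY : g^[k] (y : ℂ) = ep e₂ s₀' := by rw [← hes', b8]; exact b9 s₀' b6 b7
  -- the image of the closure of the tracks
  have hcl : ∀ z : comb n, ∀ q ∈ closure (Tk Φ k z), ∃ w : ℂ, F^[k] q = (w : Sph) ∧
      ‖w - g^[k] z‖ < 1 / 100 := by
    intro z q hq
    have hsub : Tk Φ k z ⊆ {q | dist (F^[k] q) ((g^[k] z : ℂ) : Sph) ≤ ρ} := by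
      intro q hq
      obtain ⟨i, hi, t, rfl⟩ := mem_iUnion₂.1 hq
      obtain ⟨i', rfl⟩ : ∃ i', i = i' + k := ⟨i - k, (Nat.sub_add_cancel hi).symm⟩
      show dist (F^[k] (Φ (i' + k) (z, t))) _ ≤ ρ
      rw [h.iter]
      have := htr i' (gA^[k] z) t
      rw [h0, hgk] at this
      exact this.le
    have hcc : IsClosed {q | dist (F^[k] q) ((g^[k] z : ℂ) : Sph) ≤ ρ} :=
      isClosed_le (((hF.cont.iterate k)).dist continuous_const) continuous_const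
    have h2 := closure_minimal hsub hcc hq
    have hmem : g^[k] (z : ℂ) ∈ comb n := by rw [← hgk]; exact (gA^[k] z).2
    exact hη _ (norm_comb hmem) _ (lt_of_le_of_lt h2 hρη)
  have hXY : ‖ep e₁ s₀ - ep e₂ s₀'‖ < 1 / 50 := by
    obtain ⟨w, hw1, hw2⟩ := hcl x _ (hφ k x)
    obtain ⟨w', hw1', hw2'⟩ := hcl y _ (hφ k y)
    rw [hxy, hw1'] at hw1
    rw [← OnePoint.coe_injective hw1, hX] at hw2
    rw [hY] at hw2'
    have := norm_sub_le_norm_sub_add_norm_sub (ep e₁ s₀) w' (ep e₂ s₀')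
    rw [norm_sub_rev _ w'] at this
    linarith
  obtain ⟨σ₁, τ₁, R, c1, c2, c3, c4, c5, c6, c7, c8, c9, c10⟩ :=
    common_point e₁ e₂ a6 a7 b6 b7 hXY
  set c := ep e₁ σ₁ with hc
  -- affine pieces
  obtain ⟨⟨p1, p2⟩, hJ⟩ := seg_aux a1 a2 a3 a4 a6 a7 c1 c2 a8 a9 c8
  obtain ⟨⟨p1', p2'⟩, hJ'⟩ := seg_aux b1 b2 b3 b4 b6 b7 c3 c4 b8 b9 c9
  rw [← c7] at hJ'
  set α := u + σ₁ * (v - u) with hα
  set β := u' + τ₁ * (v' - u') with hβ
  have hgα : g^[k] (ep e α) = c := a9 σ₁ c1 c2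
  have hgβ : g^[k] (ep e' β) = c := by rw [b9 τ₁ c3 c4, c7]
  -- the two arcs meet
  have hFk := hF.iter k
  have hemb : ∀ z : ℂ, emb (Homeomorph.refl Sph) z = (z : Sph) := fun z => rfl
  obtain ⟨G, hG1, hG2⟩ := exists_radial hFk (Homeomorph.refl Sph) (convex_ball c R)
    (Metric.mem_ball_self c5) (fun z hz hzP => c10 z (coe_mem_P0.1 hzP) (by
      rwa [Metric.mem_ball, dist_eq_norm] at hz))
  have hFkφ : ∀ z : comb n, F^[k] (Φ k (z, 0)) = ((g^[k] z : ℂ) : Sph) := by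
    intro z
    have := h.iter k 0 z 0
    rw [zero_add, h0, hgk] at this
    exact this
  have harc : ∀ (z : comb n) (e : Ed n) (s α : ℝ) (e₁ : Ed n) (s₀ : ℝ) (hα : 0 ≤ α ∧ α ≤ 1),
      ep e s = z → g^[k] (z : ℂ) = ep e₁ s₀ → ‖ep e₁ s₀ - c‖ + 1 / 25 < R →
      (∀ θ, 0 ≤ θ → θ ≤ 1 → (0 ≤ s + θ * (α - s) ∧ s + θ * (α - s) ≤ 1) ∧
        ‖g^[k] (ep e (s + θ * (α - s))) - c‖ < R) → g^[k] (ep e α) = c →
      G (φ z) 1 = Φ k (⟨ep e α, ep_mem e hα.1 hα.2⟩, 0) := by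
    intro z e s α e₁ s₀ hα hz hgz hd hJ hgα
    set M₁ : Set Sph := closure (Tk Φ k z) with hM₁
    have m1 : IsPreconnected M₁ := (h.preconn ordConnected_Ici z).closure
    have m2 : M₁ ⊆ F^[k] ⁻¹' (emb (Homeomorph.refl Sph) '' Metric.ball c R) := by
      intro q hq
      obtain ⟨w, hw1, hw2⟩ := hcl z q hq
      refine ⟨w, ?_, hw1.symm⟩
      rw [Metric.mem_ball, dist_eq_norm]
      rw [hgz] at hw2
      have := norm_sub_le_norm_sub_add_norm_sub w (ep e₁ s₀) c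
      linarith
    set Γ : I → Sph := fun θ => Φ k (⟨ep e (s + θ * (α - s)),
      ep_mem e (hJ θ θ.2.1 θ.2.2).1.1 (hJ θ θ.2.1 θ.2.2).1.2⟩, 0) with hΓ
    have hΓc : Continuous Γ := by
      refine (h.cont k).comp (Continuous.prodMk (Continuous.subtype_mk ?_ _) continuous_const)
      exact (continuous_ep e).comp (by fun_prop)
    have m3 : range Γ ⊆ F^[k] ⁻¹' (emb (Homeomorph.refl Sph) '' Metric.ball c R) := by
      rintro _ ⟨θ, rfl⟩
      refine ⟨g^[k] (ep e (s + θ * (α - s))), ?_, ?_⟩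
      · rw [Metric.mem_ball, dist_eq_norm]
        exact (hJ θ θ.2.1 θ.2.2).2
      · simp only [hΓ]
        rw [hFkφ, hemb]
    have hΓ0 : Γ 0 = Φ k (z, 0) := by
      simp only [hΓ]
      congr 2
      apply Subtype.ext
      simp only [Icc.coe_zero, zero_mul, add_zero]
      exact hz
    have hΓ1 : Γ 1 = Φ k (⟨ep e α, ep_mem e hα.1 hα.2⟩, 0) := by
      simp only [hΓ]
      congr 2
      apply Subtype.ext
      simp only [Icc.coe_one, one_mul, add_sub_cancel]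
    have n1 := radial_const hFk hG1 hG2 m1 m2 (hφ k z) (subset_closure
      (mem_iUnion₂.2 ⟨k, mem_Ici.2 le_rfl, ⟨0, rfl⟩⟩ : Φ k (z, 0) ∈ Tk Φ k z))
    have n2 := radial_const hFk hG1 hG2 (isPreconnected_range hΓc) m3 ⟨0, hΓ0⟩ ⟨1, rfl⟩
    rw [n1, n2]
    have n3 : F^[k] (Γ 1) = (c : Sph) := by rw [hΓ1, hFkφ]; simp only []; rw [hgα]
    obtain ⟨q1, q2, q3⟩ := hG1 (Γ 1) c (Metric.mem_ball_self c5) n3
    rw [← hΓ1]
    refine (const_fiber hFk q1 (S := univ) isPreconnected_univ (y := (c : Sph)) (fun t _ => ?_)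
      (mem_univ 1) (mem_univ 0)).trans q2
    rw [q3, ← add_smul, sub_add_cancel, one_smul]
    rfl
  have r1 := harc x e s α e₁ s₀ ⟨p1, p2⟩ hes hX (by rw [hc, ep_dist]; exact c8) hJ hgα
  have r2 := harc y e' s' β e₂ s₀' ⟨p1', p2'⟩ hes' hY (by rw [c7, ep_dist]; exact c9) hJ' hgβ
  rw [hxy, r2] at r1
  have hαβ : ep e α = ep e' β := (congrArg Subtype.val (hinj k r1)).symm
  -- small segments
  have hsmall : ∀ (e : Ed n) (s α : ℝ), (∀ θ, 0 ≤ θ → θ ≤ 1 → (0 ≤ s + θ * (α - s) ∧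
        s + θ * (α - s) ≤ 1) ∧ ‖g^[k] (ep e (s + θ * (α - s))) - c‖ < R) →
      ∀ t ∈ uIcc s α, ‖g^[k] (ep e t) - c‖ < R := by
    intro e s α hJ t ht
    rw [← segment_eq_uIcc, segment_eq_image'] at ht
    obtain ⟨θ, hθ, rfl⟩ := ht
    exact (hJ θ hθ.1 hθ.2).2
  have S1 := hsmall e s α hJ
  have S2 := hsmall e' s' β hJ'
  by_cases hee : e = e'
  · subst hee
    have h3 := ep_inj hαβ
    have h4 : s ≠ s' := by
      rintro rfl
      exact hne (Subtype.ext (by rw [← hes, ← hes']))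
    have h5 := hk1 (abs_pos.2 (sub_ne_zero.2 h4))
    refine hg.expand (k := k) (e := e) (a := min s s') (b := max s s') (R := R) (c := c)
      (le_min hs0 hs0') (max_le hs1 hs1') (by rw [max_sub_min_eq_abs']; exact h5) c6 ?_
    intro t ht1 ht2
    have h6 : t ∈ uIcc s s' := ⟨ht1, ht2⟩
    rcases uIcc_subset_uIcc_union_uIcc (b := α) h6 with h7 | h7
    · exact S1 t h7
    · refine S2 t ?_
      rw [← h3, uIcc_comm]
      exact h7
  · have h3 : α = 0 ∨ α = 1 := by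
      by_contra hcon
      rw [not_or] at hcon
      exact hee (ep_unique (lt_of_le_of_ne p1 (Ne.symm hcon.1)) (lt_of_le_of_ne p2 hcon.2) p1' p2'
        hαβ).1
    have h4 : β = 0 ∨ β = 1 := by
      by_contra hcon
      rw [not_or] at hcon
      exact hee (ep_unique (lt_of_le_of_ne p1' (Ne.symm hcon.1)) (lt_of_le_of_ne p2' hcon.2) p1 p2
        hαβ.symm).1.symm
    have hone : ∀ (e : Ed n) (s α : ℝ), 0 ≤ s → s ≤ 1 → (0 < s → 2 * (1 / 4 : ℝ) ^ k < s) →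
        (0 < 1 - s → 2 * (1 / 4 : ℝ) ^ k < 1 - s) → (α = 0 ∨ α = 1) → s ≠ α →
        (∀ t ∈ uIcc s α, ‖g^[k] (ep e t) - c‖ < R) → False := by
      intro e s α hs0 hs1 hk2 hk3 hα hne hS
      rcases hα with rfl | rfl
      · have h5 := hk2 (lt_of_le_of_ne hs0 (Ne.symm hne))
        refine hg.expand (k := k) (e := e) (a := 0) (b := s) (R := R) (c := c) le_rfl hs1
          (by linarith) c6 fun t ht1 ht2 => hS t ?_
        rw [uIcc_of_ge hs0]
        exact ⟨ht1, ht2⟩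
      · have h5 := hk3 (by linarith [lt_of_le_of_ne hs1 hne])
        refine hg.expand (k := k) (e := e) (a := s) (b := 1) (R := R) (c := c) hs0 le_rfl
          (by linarith) c6 fun t ht1 ht2 => hS t ?_
        rw [uIcc_of_le hs1]
        exact ⟨ht1, ht2⟩
    by_cases h5 : s = α
    · by_cases h6 : s' = β
      · apply hne
        apply Subtype.ext
        rw [← hes, ← hes', h5, h6, hαβ]
      · exact hone e' s' β hs0' hs1' hk4 hk5 h4 h6 S2
    · exact hone e s α hs0 hs1 hk2 hk3 h3 h5 S1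

end Pool.Agent.H208.Tree
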