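import Pool.Agent.H208.Tree.Brc

set_option autoImplicit false

/-!
# Lifting of homotopies whose tracks stop at the branch values
-/

noncomputable section

namespace Pool.Agent.H208.Tree

open Set Filter Topology OnePoint Pool.Agent.H208.Thu unitInterval

/-- the path stops when it hits `P` -/
def Stops (P : Set Sph) (γ : I → Sph) : Prop := ∀ s s', s ≤ s' → γ s ∈ P → γ s' = γ s

variable {f : Sph → Sph} {P : Set Sph}

theorem Brc.sep (hf : Brc f P) {w : Sph} {O : Set Sph} (hO : O ∈ 𝓝 w) :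
    ∃ U U' V : Set Sph, IsOpen U ∧ IsOpen U' ∧ IsOpen V ∧ w ∈ U ∧ U ⊆ O ∧ Disjoint U U' ∧
      f w ∈ V ∧ f ⁻¹' V ⊆ U ∪ U' := by
  have hfin : (f ⁻¹' {f w}).Finite := hf.fib (f w)
  have h2 : IsCompact (f ⁻¹' {f w} \ {w}) := (hfin.subset sdiff_subset).isCompact
  obtain ⟨U, U', hU, hU', hwU, hU2, hd⟩ := SeparatedNhds.of_isCompact_isCompact
    (isCompact_singleton (x := w)) h2 disjoint_sdiff_right
  obtain ⟨O', hO'O, hO', hwO'⟩ := mem_nhds_iff.1 hO
  have hUO : IsOpen (U ∩ O') := hU.inter hO'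
  have hcl : IsClosed (f '' ((U ∩ O') ∪ U')ᶜ) :=
    hf.cont.isClosedMap _ (hUO.union hU').isClosed_compl
  refine ⟨U ∩ O', U', (f '' ((U ∩ O') ∪ U')ᶜ)ᶜ, hUO, hU', hcl.isOpen_compl,
    ⟨hwU rfl, hwO'⟩, fun x hx => hO'O hx.2, hd.mono_left inter_subset_left, ?_, ?_⟩
  · rintro ⟨x, hx, hxw⟩
    apply hx
    by_cases h : x = w
    · rw [h]; exact Or.inl ⟨hwU rfl, hwO'⟩
    · exact Or.inr (hU2 ⟨hxw, h⟩)
  · intro x hx
    by_contra h
    exact hx ⟨x, h, rfl⟩

/-- the covering map -/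
theorem Brc.cov' (hf : Brc f P) : IsCoveringMap ((Pᶜ).restrictPreimage f) :=
  hf.cov.isCoveringMap_restrictPreimage

theorem lift_unique_aux (hf : Brc f P) {γ₁ γ₂ : I → Sph} (h1 : Continuous γ₁) (h2 : Continuous γ₂)
    (e : ∀ s, f (γ₁ s) = f (γ₂ s)) (h0 : γ₁ 0 = γ₂ 0) {s : I} (hs : ∀ t ≤ s, f (γ₁ t) ∉ P) :
    γ₁ s = γ₂ s := by
  have m1 : ∀ t : I, f (γ₁ (min s t)) ∈ Pᶜ := fun t => hs _ (min_le_left _ _)
  have m2 : ∀ t : I, f (γ₂ (min s t)) ∈ Pᶜ := fun t => by rw [← e]; exact m1 t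
  have key := hf.cov'.eq_of_comp_eq (A := I) (g₁ := fun t => ⟨γ₁ (min s t), m1 t⟩)
    (g₂ := fun t => ⟨γ₂ (min s t), m2 t⟩) (by fun_prop) (by fun_prop) (by
      funext t
      exact Subtype.ext (e _)) 0 (by
      apply Subtype.ext
      show γ₁ (min s 0) = γ₂ (min s 0)
      rw [min_eq_right (nonneg' (t := s))]
      exact h0)
  have h3 := congrArg Subtype.val (congrFun key s)
  simpa using h3

theorem const_fiber (hf : Brc f P) {γ : I → Sph} (h1 : Continuous γ) {S : Set I}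
    (hS : IsPreconnected S) {y : Sph} (e : ∀ s ∈ S, f (γ s) = y) {s t : I} (hs : s ∈ S)
    (ht : t ∈ S) : γ s = γ t :=
  hS.constant_of_mapsTo (hf.fib y).isDiscrete h1.continuousOn (fun u hu => e u hu) hs ht

theorem lift_unique (hf : Brc f P) {γ₁ γ₂ : I → Sph} (h1 : Continuous γ₁) (h2 : Continuous γ₂)
    (e : ∀ s, f (γ₁ s) = f (γ₂ s)) (st : Stops P fun s => f (γ₁ s)) (h0 : γ₁ 0 = γ₂ 0) (s : I) :
    γ₁ s = γ₂ s := by
  by_cases hs : f (γ₁ s) ∈ P
  · set T : Set I := {t | f (γ₁ t) ∈ P} with hT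
    have hTc : IsClosed T := hf.fin.isClosed.preimage (hf.cont.comp h1)
    have hs0 : sInf T ∈ T := hTc.isCompact.sInf_mem ⟨s, hs⟩
    have hle : sInf T ≤ s := csInf_le (OrderBot.bddBelow _) hs
    have heq : γ₁ (sInf T) = γ₂ (sInf T) := by
      rcases (nonneg' : (0 : I) ≤ sInf T).eq_or_lt with h | h
      · rw [← h]; exact h0
      · have hsub : Iio (sInf T) ⊆ {t | γ₁ t = γ₂ t} := by
          intro t ht
          refine lift_unique_aux hf h1 h2 e h0 fun u hu hu' => ?_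
          exact absurd (csInf_le (OrderBot.bddBelow _) hu' : sInf T ≤ u)
            (not_le.2 (hu.trans_lt ht))
        have hcl : closure (Iio (sInf T)) ⊆ {t | γ₁ t = γ₂ t} :=
          closure_minimal hsub (isClosed_eq h1 h2)
        have hcl2 := closure_Iio' (a := sInf T) ⟨0, h⟩
        exact hcl (by rw [hcl2]; exact mem_Iic.2 le_rfl)
    have e1 : ∀ t ∈ Icc (sInf T) s, f (γ₁ t) = f (γ₁ (sInf T)) := fun t ht => st _ _ ht.1 hs0
    rw [← const_fiber hf h1 isPreconnected_Icc e1 (left_mem_Icc.2 hle) (right_mem_Icc.2 hle),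
      ← const_fiber hf h2 isPreconnected_Icc (fun t ht => by rw [← e]; exact e1 t ht)
        (left_mem_Icc.2 hle) (right_mem_Icc.2 hle)]
    exact heq
  · refine lift_unique_aux hf h1 h2 e h0 fun t ht htP => hs ?_
    have := st t s ht htP
    simp only [] at this
    rw [this]
    exact htP

theorem lift_path_aux (hf : Brc f P) {γ : I → Sph} (hγ : Continuous γ) {x : Sph} (hx : f x = γ 0)
    {u : I} (hu : ∀ t ≤ u, γ t ∉ P) :
    ∃ Γ : I → Sph, Continuous Γ ∧ (∀ s, f (Γ s) = γ (min u s)) ∧ Γ 0 = x := by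
  have m1 : ∀ t : I, γ (min u t) ∈ Pᶜ := fun t => hu _ (min_le_left _ _)
  have hx' : x ∈ f ⁻¹' Pᶜ := by
    rw [mem_preimage, hx]
    exact hu 0 nonneg'
  obtain ⟨Γ, h1, h2⟩ := hf.cov'.exists_path_lifts
    (⟨fun t => ⟨γ (min u t), m1 t⟩, by fun_prop⟩ : C(I, (Pᶜ : Set Sph))) ⟨x, hx'⟩ (by
      apply Subtype.ext
      show γ (min u 0) = f x
      rw [min_eq_right (nonneg' (t := u)), hx])
  refine ⟨fun s => Γ s, continuous_subtype_val.comp Γ.continuous, fun s => ?_, ?_⟩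
  · exact congrArg Subtype.val (congrFun h1 s)
  · show ((Γ 0 : f ⁻¹' Pᶜ) : Sph) = x
    rw [h2]

theorem lift_path (hf : Brc f P) {γ : I → Sph} (hγ : Continuous γ) (st : Stops P γ) {x : Sph}
    (hx : f x = γ 0) : ∃ Γ : I → Sph, Continuous Γ ∧ (∀ s, f (Γ s) = γ s) ∧ Γ 0 = x := by
  set T : Set I := {t | γ t ∈ P} with hT
  have hTc : IsClosed T := hf.fin.isClosed.preimage hγ
  rcases T.eq_empty_or_nonempty with hTe | hTne
  · obtain ⟨Γ, h1, h2, h3⟩ := lift_path_aux hf hγ hx (u := 1) (fun t _ ht => by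
      have : t ∈ T := ht
      rw [hTe] at this
      exact this)
    refine ⟨Γ, h1, fun s => ?_, h3⟩
    rw [h2, min_eq_right (le_one' (t := s))]
  have hs0 : sInf T ∈ T := hTc.isCompact.sInf_mem hTne
  set b := sInf T with hb
  have hbP : γ b ∈ P := hs0
  rcases (nonneg' : (0 : I) ≤ b).eq_or_lt with h | h
  · refine ⟨fun _ => x, continuous_const, fun s => ?_, rfl⟩
    rw [hx]
    have := st 0 s nonneg' (by rw [h]; exact hbP)
    exact this.symm
  have hlt : ∀ u : I, u < b → ∀ t ≤ u, γ t ∉ P := fun u hu t ht htP =>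
    absurd (csInf_le (OrderBot.bddBelow _) htP : sInf T ≤ t) (not_le.2 (ht.trans_lt hu))
  have hex : ∀ u : I, ∃ Γ : I → Sph, u < b → (Continuous Γ ∧ (∀ s, f (Γ s) = γ (min u s)) ∧
      Γ 0 = x) := by
    intro u
    by_cases hu : u < b
    · obtain ⟨Γ, hΓ⟩ := lift_path_aux hf hγ hx (hlt u hu)
      exact ⟨Γ, fun _ => hΓ⟩
    · exact ⟨fun _ => x, fun h => absurd h hu⟩
  choose G hG using hex
  have hcomp : ∀ u v : I, u ≤ v → v < b → ∀ s ≤ u, G u s = G v s := by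
    intro u v huv hv s hs
    obtain ⟨a1, a2, a3⟩ := hG u (huv.trans_lt hv)
    obtain ⟨b1, b2, b3⟩ := hG v hv
    have key := lift_unique_aux hf (γ₁ := fun t => G u (min u t)) (γ₂ := fun t => G v (min u t))
      (by fun_prop) (by fun_prop) (fun t => by
        rw [a2, b2, ← min_assoc, ← min_assoc, min_self, min_eq_right huv])
      (by rw [min_eq_right (nonneg' (t := u)), a3, b3]) (s := s) (fun t _ => by
        rw [a2]
        exact hlt u (huv.trans_lt hv) _ (min_le_left _ _))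
    simpa [min_eq_right hs] using key
  -- the limit point
  set Γ₀ : I → Sph := fun t => G t t with hΓ₀
  have hΓf : ∀ t < b, f (Γ₀ t) = γ t := by
    intro t ht
    rw [hΓ₀]
    show f (G t t) = γ t
    rw [(hG t ht).2.1, min_self]
  have hloc : ∀ u < b, ∀ t ≤ u, Γ₀ t = G u t := fun u hu t ht => hcomp t u ht hu t le_rfl
  have hcont : ContinuousOn Γ₀ (Iio b) := by
    intro t ht
    obtain ⟨u, htu, hub⟩ := exists_between (mem_Iio.1 ht)
    have h1 : ContinuousAt (G u) t := (hG u hub).1.continuousAt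
    refine (h1.congr ?_).continuousWithinAt
    filter_upwards [Iio_mem_nhds htu] with s hs
    exact (hloc u hub s hs.le).symm
  have : (𝓝[<] b).NeBot := by
    have hcl2 := closure_Iio' (a := b) ⟨0, h⟩
    rw [← mem_closure_iff_nhdsWithin_neBot, hcl2]
    exact mem_Iic.2 le_rfl
  obtain ⟨w, -, hw⟩ := isCompact_univ (X := Sph) (f := Filter.map Γ₀ (𝓝[<] b)) (by simp)
  have hfw : f w = γ b := by
    have h1 : ClusterPt (f w) (Filter.map f (Filter.map Γ₀ (𝓝[<] b))) :=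
      hw.map hf.cont.continuousAt tendsto_map
    have h2 : Tendsto f (Filter.map Γ₀ (𝓝[<] b)) (𝓝 (γ b)) := by
      rw [tendsto_map'_iff]
      refine (hγ.continuousAt.mono_left nhdsWithin_le_nhds : Tendsto γ (𝓝[<] b) (𝓝 (γ b))).congr' ?_
      filter_upwards [self_mem_nhdsWithin] with t ht
      exact (hΓf t ht).symm
    have h3 : ClusterPt (f w) (𝓝 (γ b)) := h1.mono h2
    by_contra hne
    rw [ClusterPt, (disjoint_nhds_nhds.2 hne).eq_bot] at h3
    exact h3.ne rfl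
  have hlim : Tendsto Γ₀ (𝓝[<] b) (𝓝 w) := by
    intro O hO
    obtain ⟨U, U', V, hU, hU', hV, hwU, hUO, hd, hwV, hVU⟩ := hf.sep hO
    have h1 : ∀ᶠ t in 𝓝[<] b, γ t ∈ V := nhdsWithin_le_nhds
      (hγ.continuousAt.eventually (hV.mem_nhds (by rw [← hfw]; exact hwV)))
    obtain ⟨c, hcb, hc⟩ := (mem_nhdsLT_iff_exists_Ioo_subset' h).1 h1
    have hsub : Γ₀ '' Ioo c b ⊆ U ∪ U' := by
      rintro _ ⟨t, ht, rfl⟩
      apply hVU
      rw [mem_preimage, hΓf t ht.2]
      exact hc ht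
    have hpre : IsPreconnected (Γ₀ '' Ioo c b) :=
      isPreconnected_Ioo.image _ (hcont.mono fun t ht => ht.2)
    have hne : (Γ₀ '' Ioo c b ∩ U).Nonempty := by
      have h2 : Γ₀ '' Ioo c b ∈ Filter.map Γ₀ (𝓝[<] b) :=
        image_mem_map (Ioo_mem_nhdsLT hcb)
      have h3 := clusterPt_iff_nonempty.1 hw (hU.mem_nhds hwU) h2
      rwa [inter_comm] at h3
    have h4 := hpre.subset_left_of_subset_union hU hU' hd hsub hne
    rw [Filter.mem_map]
    refine mem_of_superset (Ioo_mem_nhdsLT hcb) ?_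
    intro t ht
    exact hUO (h4 ⟨t, ht, rfl⟩)
  classical
  refine ⟨fun t => if t < b then Γ₀ t else w, ?_, ?_, ?_⟩
  · rw [continuous_iff_continuousAt]
    intro t
    rcases lt_trichotomy t b with ht | ht | ht
    · refine ((hcont t ht).continuousAt (Iio_mem_nhds ht)).congr ?_
      filter_upwards [Iio_mem_nhds ht] with s hs
      rw [if_pos (mem_Iio.1 hs)]
    · subst ht
      rw [ContinuousAt, if_neg (lt_irrefl _), ← nhdsLT_sup_nhdsGE]
      refine Tendsto.sup (hlim.congr' ?_) (tendsto_const_nhds.congr' ?_)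
      · filter_upwards [self_mem_nhdsWithin] with s hs
        rw [if_pos (mem_Iio.1 hs)]
      · filter_upwards [self_mem_nhdsWithin] with s hs
        rw [if_neg (not_lt.2 (mem_Ici.1 hs))]
    · refine (continuousAt_const (y := w)).congr ?_
      filter_upwards [Ioi_mem_nhds ht] with s hs
      rw [if_neg (not_lt.2 (mem_Ioi.1 hs).le)]
  · intro s
    simp only []
    split_ifs with hs
    · exact hΓf s hs
    · rw [hfw, st b s (not_lt.1 hs) hbP]
  · show (if (0 : I) < b then Γ₀ 0 else w) = x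
    rw [if_pos h]
    exact (hG 0 h).2.2

theorem lift_cont_aux (hf : Brc f P) {A : Type*} [TopologicalSpace A] {H G : A × I → Sph}
    (hH : Continuous H) (hG : ∀ a, Continuous fun s => G (a, s)) (hG0 : Continuous fun a => G (a, 0))
    (e : ∀ p, f (G p) = H p) {a₀ : A} {s₀ : I} (h : ∀ s ≤ s₀, H (a₀, s) ∉ P) :
    ContinuousAt G (a₀, s₀) := by
  have hPo : IsOpen (H ⁻¹' Pᶜ) := hf.fin.isClosed.isOpen_compl.preimage hH
  obtain ⟨u, v, hu, hv, hau, hsv, huv⟩ := generalized_tube_lemma (isCompact_singleton (x := a₀))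
    (isCompact_Icc (a := (0 : I)) (b := s₀)) hPo (by
      rintro ⟨a, s⟩ ⟨ha, hs⟩
      rw [mem_singleton_iff] at ha
      simp only [] at ha
      rw [ha]
      exact h s hs.2)
  obtain ⟨s₁, hs01, hs1v, hs1n⟩ : ∃ s₁ : I, s₀ ≤ s₁ ∧ Icc 0 s₁ ⊆ v ∧ Iic s₁ ∈ 𝓝 s₀ := by
    rcases (le_one' : s₀ ≤ 1).eq_or_lt with h1 | h1
    · refine ⟨s₀, le_rfl, hsv, ?_⟩
      rw [h1]
      exact mem_of_superset univ_mem fun s _ => mem_Iic.2 le_one'
    · obtain ⟨l, hl, hlv⟩ := exists_Ico_subset_of_mem_nhds (hv.mem_nhds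
        (hsv (right_mem_Icc.2 nonneg'))) ⟨1, h1⟩
      obtain ⟨s₁, h2, h3⟩ := exists_between hl
      refine ⟨s₁, h2.le, fun s hs => ?_, Iic_mem_nhds h2⟩
      by_cases h4 : s ≤ s₀
      · exact hsv ⟨hs.1, h4⟩
      · exact hlv ⟨(not_le.1 h4).le, hs.2.trans_lt h3⟩
  have m1 : ∀ p : I × u, H (p.2, min s₁ p.1) ∈ Pᶜ := fun p =>
    huv ⟨p.2.2, hs1v ⟨nonneg', min_le_left _ _⟩⟩
  have m2 : ∀ p : I × u, G (p.2, min s₁ p.1) ∈ f ⁻¹' Pᶜ := fun p => by
    rw [mem_preimage, e]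
    exact m1 p
  have key := hf.cov'.isLocalHomeomorph.continuous_lift hf.cov'.isSeparatedMap (A := u)
    (f := ⟨fun p => ⟨H (p.2, min s₁ p.1), m1 p⟩, by fun_prop⟩)
    (g := fun p => ⟨G (p.2, min s₁ p.1), m2 p⟩) (by
      funext p
      exact Subtype.ext (e _)) (by
      refine Continuous.subtype_mk ?_ _
      have h1 : Continuous fun a : u => G (a, 0) := hG0.comp continuous_subtype_val
      refine h1.congr fun a => ?_
      rw [min_eq_right (nonneg' (t := s₁))]) (fun a => by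
      refine Continuous.subtype_mk ?_ _
      exact (hG a).comp (continuous_const.min continuous_id))
  have key2 : ContinuousOn G (u ×ˢ Iic s₁) := by
    rw [continuousOn_iff_continuous_domRestrict]
    have h1 : Continuous fun q : (u ×ˢ Iic s₁ : Set (A × I)) =>
        (((fun p : I × u => (⟨G (p.2, min s₁ p.1), m2 p⟩ : f ⁻¹' Pᶜ)) (q.1.2, ⟨q.1.1, q.2.1⟩) :
          f ⁻¹' Pᶜ) : Sph) := by
      refine continuous_subtype_val.comp (key.comp ?_)
      fun_prop
    refine h1.congr fun q => ?_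
    show G (q.1.1, min s₁ q.1.2) = G q.1
    rw [min_eq_right (mem_Iic.1 q.2.2)]
  exact key2.continuousAt (prod_mem_nhds (hu.mem_nhds (hau rfl)) hs1n)

theorem lift_cont (hf : Brc f P) {A : Type*} [TopologicalSpace A] {H G : A × I → Sph}
    (hH : Continuous H) (st : ∀ a, Stops P fun s => H (a, s)) (hG : ∀ a, Continuous fun s => G (a, s))
    (hG0 : Continuous fun a => G (a, 0)) (e : ∀ p, f (G p) = H p) : Continuous G := by
  rw [continuous_iff_continuousAt]
  rintro ⟨a₀, s₀⟩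
  by_cases hs : H (a₀, s₀) ∈ P
  swap
  · refine lift_cont_aux hf hH hG hG0 e fun s hs' hP => hs ?_
    have := st a₀ s s₀ hs' hP
    simp only [] at this
    rw [this]
    exact hP
  set T : Set I := {t | H (a₀, t) ∈ P} with hT
  have hTc : IsClosed T := hf.fin.isClosed.preimage (hH.comp (Continuous.prodMk_right a₀))
  have hb : sInf T ∈ T := hTc.isCompact.sInf_mem ⟨s₀, hs⟩
  set b := sInf T with hbdef
  have hble : b ≤ s₀ := csInf_le (OrderBot.bddBelow _) hs
  have hlt : ∀ u : I, u < b → ∀ t ≤ u, H (a₀, t) ∉ P := fun u hu t ht htP =>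
    absurd (csInf_le (OrderBot.bddBelow _) htP : sInf T ≤ t) (not_le.2 (ht.trans_lt hu))
  have hconst : ∀ s, b ≤ s → H (a₀, s) = H (a₀, b) := fun s hs => st a₀ b s hs hb
  have hGconst : G (a₀, s₀) = G (a₀, b) :=
    const_fiber hf (hG a₀) (isPreconnected_Icc (a := b) (b := s₀))
      (fun t ht => by rw [e]; exact hconst t ht.1) (right_mem_Icc.2 hble) (left_mem_Icc.2 hble)
  intro O hO
  rw [hGconst] at hO
  obtain ⟨U, U', V, hU, hU', hV, hwU, hUO, hd, hwV, hVU⟩ := hf.sep hO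
  rw [e] at hwV
  -- the time `s₁`
  obtain ⟨s₁, hs1b, hs1V, hs1U, hs1c⟩ : ∃ s₁ : I, s₁ ≤ b ∧ (∀ s, s₁ ≤ s → H (a₀, s) ∈ V) ∧
      Ici s₁ ∈ 𝓝 s₀ ∧ (G (a₀, s₁) ∈ U ∧ ContinuousAt (fun a => G (a, s₁)) a₀) := by
    rcases (nonneg' : (0 : I) ≤ b).eq_or_lt with h | h
    · refine ⟨0, nonneg', fun s _ => ?_, mem_of_superset univ_mem fun s _ => mem_Ici.2 nonneg', ?_,
        hG0.continuousAt⟩
      · rw [hconst s (by rw [← h]; exact nonneg')]
        exact hwV
      · rw [h]; exact hwU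
    · have h1 : ∀ᶠ s in 𝓝[<] b, H (a₀, s) ∈ V ∧ G (a₀, s) ∈ U := by
        refine nhdsWithin_le_nhds (Filter.Eventually.and ?_ ?_)
        · exact (hH.comp (Continuous.prodMk_right a₀)).continuousAt.eventually (hV.mem_nhds hwV)
        · exact (hG a₀).continuousAt.eventually (hU.mem_nhds hwU)
      obtain ⟨c, hcb, hc⟩ := (mem_nhdsLT_iff_exists_Ioo_subset' h).1 h1
      obtain ⟨s₁, h2, h3⟩ := exists_between (mem_Iio.1 hcb)
      refine ⟨s₁, h3.le, fun s hs => ?_, Ici_mem_nhds (h3.trans_le hble), (hc ⟨h2, h3⟩).2, ?_⟩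
      · by_cases hsb : s < b
        · exact (hc ⟨h2.trans_le hs, hsb⟩).1
        · rw [hconst s (not_lt.1 hsb)]
          exact hwV
      · have h4 := lift_cont_aux hf hH hG hG0 e (hlt s₁ h3)
        exact ContinuousAt.comp (f := fun a => (a, s₁)) h4
          (Continuous.prodMk_left s₁).continuousAt
  obtain ⟨hs1U', hs1c⟩ := hs1c
  obtain ⟨u, v, hu, hv, hau, hsv, huv⟩ := generalized_tube_lemma (isCompact_singleton (x := a₀))
    (isCompact_Icc (a := s₁) (b := (1 : I))) (hV.preimage hH) (by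
      rintro ⟨a, s⟩ ⟨ha, hs⟩
      rw [mem_singleton_iff] at ha
      simp only [] at ha
      rw [ha]
      exact hs1V s hs.1)
  have hn1 : u ∩ {a | G (a, s₁) ∈ U} ∈ 𝓝 a₀ :=
    inter_mem (hu.mem_nhds (hau rfl)) (hs1c.eventually (hU.mem_nhds hs1U'))
  rw [Filter.mem_map]
  refine mem_of_superset (prod_mem_nhds hn1 hs1U) ?_
  rintro ⟨a, s⟩ ⟨⟨ha1, ha2⟩, hs⟩
  apply hUO
  have hsub : (fun s => G (a, s)) '' Icc s₁ s ⊆ U ∪ U' := by
    rintro _ ⟨t, ht, rfl⟩
    apply hVU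
    rw [mem_preimage, e]
    exact huv ⟨ha1, hsv ⟨ht.1, le_one'⟩⟩
  have h4 := (isPreconnected_Icc.image _ (hG a).continuousOn).subset_left_of_subset_union hU hU' hd
    hsub ⟨G (a, s₁), ⟨s₁, left_mem_Icc.2 hs, rfl⟩, ha2⟩
  exact h4 ⟨s, right_mem_Icc.2 hs, rfl⟩

/-- homotopy lifting for homotopies whose tracks stop at the branch values -/
theorem lift_homotopy (hf : Brc f P) {A : Type*} [TopologicalSpace A] {H : A × I → Sph}
    (hH : Continuous H) (st : ∀ a, Stops P fun s => H (a, s)) {h₀ : A → Sph} (hh₀ : Continuous h₀)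
    (e : ∀ a, f (h₀ a) = H (a, 0)) :
    ∃ G : A × I → Sph, Continuous G ∧ (∀ p, f (G p) = H p) ∧ ∀ a, G (a, 0) = h₀ a := by
  have hex : ∀ a, ∃ Γ : I → Sph, Continuous Γ ∧ (∀ s, f (Γ s) = H (a, s)) ∧ Γ 0 = h₀ a := fun a =>
    lift_path hf (hH.comp (Continuous.prodMk_right a)) (st a) (e a)
  choose Γ h1 h2 h3 using hex
  refine ⟨fun p => Γ p.1 p.2, ?_, fun p => h2 _ _, fun a => h3 a⟩
  refine lift_cont hf hH st (G := fun p => Γ p.1 p.2) (fun a => h1 a) ?_ fun p => h2 _ _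
  exact hh₀.congr fun a => (h3 a).symm

end Pool.Agent.H208.Tree
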