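import Pool.Agent.H208.Tree.Hom

set_option autoImplicit false

/-!
# Iterated lifts of a homotopy and their limit
-/

noncomputable section

namespace Pool.Agent.H208.Tree

open Set Filter Topology OnePoint Pool.Agent.H208.Thu unitInterval

variable {F : Sph → Sph} {P : Set Sph} {A : Type*}

/-- the tracks avoid `P` or are constant -/
def NiceH (P : Set Sph) (Φ : A × I → Sph) : Prop :=
  ∀ x, (∀ s, Φ (x, s) ∉ P) ∨ (∀ s, Φ (x, s) = Φ (x, 0))

theorem NiceH.stops {Φ : A × I → Sph} (h : NiceH P Φ) (x : A) : Stops P fun s => Φ (x, s) := by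
  intro s s' _ hs
  rcases h x with h' | h'
  · exact absurd hs (h' s)
  · simp only []
    rw [h' s, h' s']

theorem NiceH.stops_rev {Φ : A × I → Sph} (h : NiceH P Φ) (x : A) :
    Stops P fun s => Φ (x, σ s) := by
  intro s s' _ hs
  rcases h x with h' | h'
  · exact absurd hs (h' (σ s))
  · simp only []
    rw [h' (σ s), h' (σ s')]

theorem lift_step [TopologicalSpace A] (hF : Brc F P) {g : A → A} (hg : Continuous g)
    {Φ : A × I → Sph} (hΦ : Continuous Φ) (hN : NiceH P Φ)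
    (he : ∀ x, F (Φ (x, 1)) = Φ (g x, 0)) :
    ∃ Ψ : A × I → Sph, Continuous Ψ ∧ NiceH P Ψ ∧ (∀ x s, F (Ψ (x, s)) = Φ (g x, s)) ∧
      ∀ x, Ψ (x, 0) = Φ (x, 1) := by
  obtain ⟨Ψ, h1, h2, h3⟩ := lift_homotopy hF (H := fun p : A × I => Φ (g p.1, p.2))
    (by fun_prop) (fun x => hN.stops (g x)) (h₀ := fun x => Φ (x, 1)) (by fun_prop) he
  refine ⟨Ψ, h1, ?_, fun x s => h2 _, h3⟩
  intro x
  rcases hN (g x) with h | h
  · left
    intro s hs
    apply h s
    have := hF.map _ hs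
    rwa [h2] at this
  · right
    intro s
    refine const_fiber hF (γ := fun s => Ψ (x, s)) (h1.comp (Continuous.prodMk_right x))
      (S := univ) isPreconnected_univ (y := Φ (g x, 0)) (fun t _ => ?_) (mem_univ _) (mem_univ _)
    rw [h2]
    exact h t

theorem exists_seq [TopologicalSpace A] (hF : Brc F P) {g : A → A} (hg : Continuous g)
    {Φ₀ : A × I → Sph} (hΦ : Continuous Φ₀) (hN : NiceH P Φ₀)
    (he : ∀ x, F (Φ₀ (x, 1)) = Φ₀ (g x, 0)) :
    ∃ Φ : ℕ → A × I → Sph, Φ 0 = Φ₀ ∧ (∀ j, Continuous (Φ j)) ∧ (∀ j, NiceH P (Φ j)) ∧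
      (∀ j x s, F (Φ (j + 1) (x, s)) = Φ j (g x, s)) ∧ ∀ j x, Φ (j + 1) (x, 0) = Φ j (x, 1) := by
  have hstep : ∀ Φ : {Φ : A × I → Sph // Continuous Φ ∧ NiceH P Φ ∧
      ∀ x, F (Φ (x, 1)) = Φ (g x, 0)}, ∃ Ψ : {Φ : A × I → Sph // Continuous Φ ∧ NiceH P Φ ∧
      ∀ x, F (Φ (x, 1)) = Φ (g x, 0)}, (∀ x s, F (Ψ.1 (x, s)) = Φ.1 (g x, s)) ∧
      ∀ x, Ψ.1 (x, 0) = Φ.1 (x, 1) := by
    rintro ⟨Φ, h1, h2, h3⟩
    obtain ⟨Ψ, k1, k2, k3, k4⟩ := lift_step hF hg h1 h2 h3
    exact ⟨⟨Ψ, k1, k2, fun x => by rw [k3, k4]⟩, k3, k4⟩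
  choose T hT1 hT2 using hstep
  set S : ℕ → {Φ : A × I → Sph // Continuous Φ ∧ NiceH P Φ ∧
      ∀ x, F (Φ (x, 1)) = Φ (g x, 0)} := fun j => T^[j] ⟨Φ₀, hΦ, hN, he⟩ with hS
  have hSs : ∀ j, S (j + 1) = T (S j) := fun j => Function.iterate_succ_apply' _ _ _
  refine ⟨fun j => (S j).1, rfl, fun j => (S j).2.1, fun j => (S j).2.2.1, fun j x s => ?_,
    fun j x => ?_⟩
  · simp only []; rw [hSs]; exact hT1 _ _ _
  · simp only []; rw [hSs]; exact hT2 _ _

/-- a sequence of lifts -/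
structure LSeq [TopologicalSpace A] (F : Sph → Sph) (P : Set Sph) (g : A → A)
    (Φ : ℕ → A × I → Sph) : Prop where
  cont : ∀ j, Continuous (Φ j)
  nice : ∀ j, NiceH P (Φ j)
  map : ∀ j x s, F (Φ (j + 1) (x, s)) = Φ j (g x, s)
  glue : ∀ j x, Φ (j + 1) (x, 0) = Φ j (x, 1)

variable [TopologicalSpace A] {g : A → A} {Φ : ℕ → A × I → Sph}

theorem LSeq.iter (h : LSeq F P g Φ) (k i : ℕ) (x : A) (s : I) :
    F^[k] (Φ (i + k) (x, s)) = Φ i (g^[k] x, s) := by
  induction k generalizing x with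
  | zero => rfl
  | succ k ih =>
    rw [Function.iterate_succ_apply, ← add_assoc, h.map, ih, Function.iterate_succ_apply]

/-- the union of the tracks from time `k` on -/
def Tk (Φ : ℕ → A × I → Sph) (k : ℕ) (x : A) : Set Sph := ⋃ i ∈ Ici k, range fun s => Φ i (x, s)

theorem LSeq.preconn (h : LSeq F P g Φ) {t : Set ℕ} (ht : OrdConnected t) (x : A) :
    IsPreconnected (⋃ i ∈ t, range fun s => Φ i (x, s)) := by
  refine IsPreconnected.biUnion_of_chain ht (fun i _ => ?_) (fun i _ _ => ?_)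
  · exact isPreconnected_range ((h.cont i).comp (Continuous.prodMk_right x))
  · refine ⟨Φ i (x, 1), ⟨1, rfl⟩, ⟨0, ?_⟩⟩
    exact h.glue i x

theorem LSeq.track {ε ρ δ : ℝ} (h : LSeq F P g Φ)
    (hF : ∀ A : Set Sph, IsPreconnected A → (∃ p, ∀ x ∈ A, dist (F x) p < δ) →
      ∀ x ∈ A, ∀ y ∈ A, dist x y < ε)
    (h0 : ∀ x s, dist (Φ 0 (x, s)) (Φ 0 (x, 0)) < ε) (hε : 0 < ε) (hρ : 2 * ε ≤ ρ) (hδ : ρ ≤ δ) :
    ∀ i x s, dist (Φ i (x, s)) (Φ 0 (x, 0)) < ρ := by
  have key : ∀ i, ∀ i' ≤ i, ∀ x s, dist (Φ i' (x, s)) (Φ 0 (x, 0)) < ρ := by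
    intro i
    induction i with
    | zero =>
      intro i' hi' x s
      have : i' = 0 := by omega
      subst this
      linarith [h0 x s]
    | succ i ih =>
      intro i' hi' x s
      by_cases hi0 : i' = 0
      · subst hi0
        linarith [h0 x s]
      · have h1 := hF (⋃ l ∈ Icc 1 (i + 1), range fun s => Φ l (x, s)) (h.preconn ordConnected_Icc x)
          ⟨Φ 0 (g x, 0), by
            intro y hy
            obtain ⟨l, hl, t, rfl⟩ := mem_iUnion₂.1 hy
            obtain ⟨l', rfl⟩ : ∃ l', l = l' + 1 := ⟨l - 1, by have := hl.1; omega⟩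
            simp only []
            rw [h.map]
            exact (ih l' (by have := hl.2; omega) (g x) t).trans_le hδ⟩
          (Φ i' (x, s)) (mem_iUnion₂.2 ⟨i', ⟨by omega, hi'⟩, ⟨s, rfl⟩⟩)
          (Φ 0 (x, 1)) (mem_iUnion₂.2 ⟨1, ⟨le_rfl, by omega⟩, ⟨0, h.glue 0 x⟩⟩)
        have h2 := dist_triangle (Φ i' (x, s)) (Φ 0 (x, 1)) (Φ 0 (x, 0))
        linarith [h0 x 1]
  exact fun i => key i i le_rfl

theorem LSeq.inj (h : LSeq F P g Φ) (hF : Brc F P) (h0 : Function.Injective fun x => Φ 0 (x, 0))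
    (h1 : Function.Injective fun x => Φ 0 (x, 1)) (k : ℕ) :
    (Function.Injective fun x => Φ k (x, 0)) ∧ Function.Injective fun x => Φ k (x, 1) := by
  induction k with
  | zero => exact ⟨h0, h1⟩
  | succ k ih =>
    have e0 : Function.Injective fun x => Φ (k + 1) (x, 0) := by
      intro x y hxy
      simp only [] at hxy
      rw [h.glue, h.glue] at hxy
      exact ih.2 hxy
    refine ⟨e0, ?_⟩
    intro x y hxy
    simp only [] at hxy
    have hg : g x = g y := by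
      apply ih.2
      show Φ k (g x, 1) = Φ k (g y, 1)
      rw [← h.map, ← h.map, hxy]
    have h2 := lift_unique hF (γ₁ := fun s => Φ (k + 1) (x, σ s))
      (γ₂ := fun s => Φ (k + 1) (y, σ s))
      ((h.cont (k + 1)).comp (Continuous.prodMk continuous_const continuous_symm))
      ((h.cont (k + 1)).comp (Continuous.prodMk continuous_const continuous_symm))
      (fun s => by rw [h.map, h.map, hg]) (by
        have h3 := (h.nice k).stops_rev (g x)
        intro s s' hss hs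
        simp only [h.map] at hs ⊢
        exact h3 s s' hss hs) (by
        simp only [symm_zero]
        exact hxy) 1
    simp only [symm_one] at h2
    exact e0 h2

theorem LSeq.limit {f : Sph → Sph} {N' : ℕ} (h : LSeq (f^[N']) P g Φ) (hN' : 1 ≤ N') {ρ δ : ℝ}
    (hE : Expand f δ) (hF : Continuous (f^[N'])) (hρ : ρ ≤ δ)
    (htr : ∀ i x s, dist (Φ i (x, s)) (Φ 0 (x, 0)) < ρ) :
    ∃ φ : A → Sph, Continuous φ ∧ (∀ x, f^[N'] (φ x) = φ (g x)) ∧
      ∀ k x, φ x ∈ closure (Tk Φ k x) := by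
  have hc : ∀ ε > 0, ∃ K, ∀ k ≥ K, ∀ x, ∀ a ∈ Tk Φ k x, ∀ b ∈ Tk Φ k x, dist a b < ε := by
    intro ε hε
    obtain ⟨K, hK⟩ := hE ε hε
    refine ⟨K, fun k hk x => hK (N' * k) (by nlinarith) (Tk Φ k x) (h.preconn ordConnected_Ici x)
      ⟨Φ 0 (g^[k] x, 0), ?_⟩⟩
    intro y hy
    obtain ⟨i, hi, s, rfl⟩ := mem_iUnion₂.1 hy
    obtain ⟨i', rfl⟩ : ∃ i', i = i' + k := ⟨i - k, (Nat.sub_add_cancel hi).symm⟩
    rw [Function.iterate_mul]
    simp only []
    rw [h.iter]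
    exact (htr i' _ s).trans_le hρ
  have hmem : ∀ k i x, k ≤ i → Φ i (x, 0) ∈ Tk Φ k x := fun k i x hki =>
    mem_iUnion₂.2 ⟨i, hki, ⟨0, rfl⟩⟩
  have hlim : ∀ x, ∃ y, Tendsto (fun k => Φ k (x, 0)) atTop (𝓝 y) := by
    intro x
    apply cauchySeq_tendsto_of_complete
    rw [Metric.cauchySeq_iff]
    intro ε hε
    obtain ⟨K, hK⟩ := hc ε hε
    exact ⟨K, fun i hi j hj => hK K le_rfl x _ (hmem K i x hi) _ (hmem K j x hj)⟩
  choose φ hφ using hlim
  refine ⟨φ, ?_, ?_, ?_⟩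
  · have hu : TendstoUniformly (fun k x => Φ k (x, 0)) φ atTop := by
      rw [Metric.tendstoUniformly_iff]
      intro ε hε
      obtain ⟨K, hK⟩ := hc (ε / 2) (by positivity)
      filter_upwards [eventually_ge_atTop K] with k hk x
      have h1 : dist (φ x) (Φ k (x, 0)) ≤ ε / 2 := by
        refine le_of_tendsto ((hφ x).dist tendsto_const_nhds) ?_
        filter_upwards [eventually_ge_atTop K] with j hj
        exact (hK K le_rfl x _ (hmem K j x hj) _ (hmem K k x hk)).le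
      linarith
    refine hu.continuous (Eventually.frequently (Eventually.of_forall fun k => ?_))
    exact (h.cont k).comp (Continuous.prodMk_left 0)
  · intro x
    have h1 : Tendsto (fun k => f^[N'] (Φ (k + 1) (x, 0))) atTop (𝓝 (f^[N'] (φ x))) :=
      (hF.tendsto _).comp ((tendsto_add_atTop_iff_nat 1).2 (hφ x))
    simp only [h.map] at h1
    exact tendsto_nhds_unique h1 (hφ (g x))
  · intro k x
    refine mem_closure_of_tendsto (hφ x) ?_
    filter_upwards [eventually_ge_atTop k] with i hi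
    exact hmem k i x hi

end Pool.Agent.H208.Tree
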