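import Pool.Agent.H208.Thu.Defs

set_option autoImplicit false

/-!
# Continuous logarithms and separation properties of plane sets
-/

noncomputable section

namespace Pool.Agent.H208.Tree

open Set Filter Topology OnePoint Pool.Agent.H208.Thu

theorem exp_const {A : Type*} [TopologicalSpace A] {s : Set A} (hs : IsPreconnected s) {g h : A → ℂ}
    (hg : ContinuousOn g s) (hh : ContinuousOn h s)
    (e : ∀ a ∈ s, Complex.exp (g a) = Complex.exp (h a)) {a b : A} (ha : a ∈ s) (hb : b ∈ s) :
    g a - h a = g b - h b := by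
  refine Complex.isCoveringMap_exp.constOn_of_comp (g := fun a => g a - h a) hs (hg.sub hh) ?_ ha hb
  intro c hc c' hc'
  rw [Subtype.mk.injEq, Complex.exp_sub, Complex.exp_sub, e c hc, e c' hc',
    div_self (Complex.exp_ne_zero _), div_self (Complex.exp_ne_zero _)]

theorem exists_log {A : Type*} [TopologicalSpace A] [SimplyConnectedSpace A]
    [LocallyPathConnectedSpace A] {f : A → ℂ} (hf : Continuous f) (h0 : ∀ a, f a ≠ 0) :
    ∃ L : A → ℂ, Continuous L ∧ ∀ a, Complex.exp (L a) = f a := by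
  have a0 : A := Classical.arbitrary A
  obtain ⟨L, ⟨-, hL⟩, -⟩ := Complex.isCoveringMapOn_exp.existsUnique_continuousMap_lifts
    (⟨f, hf⟩ : C(A, ℂ)) (a₀ := a0) (e₀ := Complex.log (f a0)) (Complex.exp_log (h0 a0)) h0
  exact ⟨L, L.continuous, fun a => congrFun hL a⟩

/-- the identity has a logarithm on `K` -/
def LogOn (K : Set ℂ) (p : ℂ) : Prop :=
  ∃ g : ℂ → ℂ, ContinuousOn g K ∧ ∀ z ∈ K, Complex.exp (g z) = z - p

theorem compl_coe_image (K : Set ℂ) : ((↑) '' K : Set Sph)ᶜ = (↑) '' Kᶜ ∪ {∞} :=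
  OnePoint.compl_image_coe K

theorem ray_conn {z : ℂ} (hz : z ≠ 0) :
    IsPreconnected (((fun t : ℝ => ((t * z : ℂ) : Sph)) '' Ici 1) ∪ {∞}) := by
  have h1 : IsPreconnected ((fun t : ℝ => ((t * z : ℂ) : Sph)) '' Ici 1) :=
    isPreconnected_Ici.image _ (by
      apply Continuous.continuousOn
      exact OnePoint.continuous_coe.comp (by fun_prop))
  refine h1.subset_closure subset_union_left ?_
  rintro x (hx | hx)
  · exact subset_closure hx
  · rw [mem_singleton_iff] at hx
    subst hx
    have h2 : Tendsto (fun t : ℝ => ((t * z : ℂ) : Sph)) atTop (𝓝 ∞) := by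
      have h3 : Tendsto ((↑) : ℂ → Sph) (cocompact ℂ) (𝓝 ∞) := by
        rw [← coclosedCompact_eq_cocompact]; exact OnePoint.tendsto_coe_infty
      refine h3.comp ?_
      rw [← Metric.cobounded_eq_cocompact, ← tendsto_norm_atTop_iff_cobounded]
      have h4 : Tendsto (fun t : ℝ => t * ‖z‖) atTop atTop :=
        tendsto_id.atTop_mul_const (norm_pos_iff.2 hz)
      refine h4.congr' ?_
      filter_upwards [eventually_ge_atTop (0 : ℝ)] with t ht
      rw [norm_mul, Complex.norm_real, Real.norm_of_nonneg ht]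
    exact mem_closure_of_tendsto h2 (by
      filter_upwards [eventually_ge_atTop (1 : ℝ)] with t ht
      exact ⟨t, ht, rfl⟩)

theorem closure_comp_subset {X : Type*} [TopologicalSpace X] {F : Set X} {x : X} :
    closure (connectedComponentIn F x) ∩ F ⊆ connectedComponentIn F x := by
  rintro z ⟨hz, hzF⟩
  by_cases hx : x ∈ F
  · have h1 : IsPreconnected (insert z (connectedComponentIn F x)) :=
      isPreconnected_connectedComponentIn.subset_closure (subset_insert _ _)
        (insert_subset hz subset_closure)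
    exact (h1.subset_connectedComponentIn (mem_insert_of_mem _ (mem_connectedComponentIn hx))
      (insert_subset hzF (connectedComponentIn_subset _ _))) (mem_insert _ _)
  · rw [connectedComponentIn_eq_empty hx, closure_empty] at hz
    exact absurd hz (notMem_empty z)

theorem sep_of_log {K : Set ℂ} (hK : IsCompact K) (h0 : (0 : ℂ) ∉ K) (hlog : LogOn K 0) :
    (∞ : Sph) ∈ connectedComponentIn ((↑) '' K : Set Sph)ᶜ ((0 : ℂ) : Sph) := by
  by_contra hcon
  obtain ⟨g, hg, hexp⟩ := hlog
  -- a global extension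
  obtain ⟨G, hG⟩ : ∃ G : C(ℂ, ℂ), ∀ z ∈ K, G z = g z := by
    obtain ⟨G, hG⟩ := ContinuousMap.exists_extension (X := ℂ) (e := ((↑) : K → ℂ))
      hK.isClosed.isClosedEmbedding_subtypeVal (⟨K.domRestrict g, hg.domRestrict⟩ : C(K, ℂ))
    exact ⟨G, fun z hz => DFunLike.congr_fun hG ⟨z, hz⟩⟩
  obtain ⟨R, hR0, hR⟩ : ∃ R : ℝ, 0 < R ∧ ∀ z ∈ K, ‖z‖ < R := by
    obtain ⟨R, hR⟩ := hK.isBounded.exists_norm_le
    exact ⟨max R 0 + 1, by positivity, fun z hz => by
      have := hR z hz
      have := le_max_left R 0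
      linarith⟩
  set O := connectedComponentIn Kᶜ (0 : ℂ) with hO
  have hOo : IsOpen O := hK.isClosed.isOpen_compl.connectedComponentIn
  have h0O : (0 : ℂ) ∈ O := mem_connectedComponentIn h0
  have hOK : O ⊆ Kᶜ := connectedComponentIn_subset _ _
  have hOR : ∀ z ∈ O, ‖z‖ < R := by
    intro z hz
    by_contra hzR
    rw [not_lt] at hzR
    have hz0 : z ≠ 0 := by
      rintro rfl
      rw [norm_zero] at hzR
      linarith
    apply hcon
    have h1 : IsPreconnected ((↑) '' O : Set Sph) :=
      isPreconnected_connectedComponentIn.image _ OnePoint.continuous_coe.continuousOn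
    have h2 := ray_conn hz0
    have h3 : IsPreconnected ((↑) '' O ∪ (((fun t : ℝ => ((t * z : ℂ) : Sph)) '' Ici 1) ∪ {∞})
        : Set Sph) := by
      refine IsPreconnected.union (z : Sph) ⟨z, hz, rfl⟩ (Or.inl ⟨1, mem_Ici.2 le_rfl, ?_⟩) h1 h2
      simp
    refine h3.subset_connectedComponentIn (Or.inl ⟨0, h0O, rfl⟩) ?_ (Or.inr (Or.inr rfl))
    rw [compl_coe_image]
    rintro x (⟨w, hw, rfl⟩ | ⟨t, ht, rfl⟩ | hx)
    · exact Or.inl ⟨w, hOK hw, rfl⟩
    · refine Or.inl ⟨t * z, ?_, rfl⟩
      intro hmem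
      have h4 := hR _ hmem
      rw [norm_mul, Complex.norm_real, Real.norm_of_nonneg (by linarith [mem_Ici.1 ht])] at h4
      have h5 : 1 * ‖z‖ ≤ t * ‖z‖ := mul_le_mul_of_nonneg_right ht (norm_nonneg z)
      linarith
    · exact Or.inr hx
  classical
  set k : ℂ → ℂ := fun z => if z ∈ O then z * Complex.exp (-G z) else 1 with hk
  have hkc : Continuous k := by
    refine Continuous.if ?_ (by fun_prop) continuous_const
    intro z hz
    have hz1 : z ∈ closure O := hz.1
    have hz2 : z ∉ O := fun h => hz.2 (by rw [hOo.interior_eq.symm] at h; exact h)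
    have hzK : z ∈ K := by
      by_contra hzK
      exact hz2 (closure_comp_subset ⟨hz1, hzK⟩)
    have h1 := hexp z hzK
    rw [sub_zero, ← hG z hzK] at h1
    rw [← h1, ← Complex.exp_add, h1]
    have : G z + -G z = 0 := by ring
    rw [this, Complex.exp_zero]
  have hk0 : ∀ z, z ≠ 0 → k z ≠ 0 := by
    intro z hz
    simp only [hk]
    split_ifs
    · exact mul_ne_zero hz (Complex.exp_ne_zero _)
    · exact one_ne_zero
  obtain ⟨L, hLc, hL⟩ := exists_log (f := fun ζ : ℂ => k (Complex.exp ζ))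
    (hkc.comp Complex.continuous_exp) (fun ζ => hk0 _ (Complex.exp_ne_zero _))
  have hper : ∀ ζ : ℂ, Complex.exp (ζ + 2 * Real.pi * Complex.I) = Complex.exp ζ := fun ζ => by
    rw [Complex.exp_periodic ζ]
  have hd : ∀ ζ ζ' : ℂ, L (ζ + 2 * Real.pi * Complex.I) - L ζ =
      L (ζ' + 2 * Real.pi * Complex.I) - L ζ' := by
    intro ζ ζ'
    exact exp_const (s := univ) (g := fun ζ => L (ζ + 2 * Real.pi * Complex.I)) (h := L)
      isPreconnected_univ (by fun_prop) hLc.continuousOn
      (fun a _ => by rw [hL, hL, hper]) (mem_univ _) (mem_univ _)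
  -- far away
  have hfar : L ((Real.log R : ℝ) + 2 * Real.pi * Complex.I) - L ((Real.log R : ℝ) : ℂ) = 0 := by
    have hcx : IsPreconnected {ζ : ℂ | Real.log R ≤ ζ.re} := (convex_halfSpace_re_ge _).isPreconnected
    have h1 := exp_const (g := L) (h := fun _ => 0) hcx hLc.continuousOn continuousOn_const
      (fun a ha => by
        rw [hL, Complex.exp_zero]
        simp only [hk]
        rw [if_neg]
        intro hmem
        have h2 := hOR _ hmem
        rw [Complex.norm_exp] at h2
        have h3 : Real.log R ≤ a.re := ha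
        have h4 := Real.exp_le_exp.2 h3
        rw [Real.exp_log hR0] at h4
        linarith)
      (a := (Real.log R : ℝ) + 2 * Real.pi * Complex.I) (b := ((Real.log R : ℝ) : ℂ))
      (by simp) (by simp)
    simpa [sub_eq_zero] using h1
  -- near zero
  obtain ⟨r, hr0, hr⟩ := Metric.isOpen_iff.1 hOo 0 h0O
  have hnear : L ((Real.log (r / 2) : ℝ) + 2 * Real.pi * Complex.I) - L ((Real.log (r / 2) : ℝ) : ℂ)
      = 2 * Real.pi * Complex.I := by
    have hcx : IsPreconnected {ζ : ℂ | ζ.re ≤ Real.log (r / 2)} :=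
      (convex_halfSpace_re_le _).isPreconnected
    have h1 := exp_const (g := L) (h := fun ζ => ζ - G (Complex.exp ζ)) hcx hLc.continuousOn
      (by fun_prop)
      (fun a ha => by
        rw [hL]
        simp only [hk]
        rw [if_pos, sub_eq_add_neg, Complex.exp_add]
        apply hr
        rw [Metric.mem_ball, dist_zero_right, Complex.norm_exp]
        have h3 : a.re ≤ Real.log (r / 2) := ha
        have h4 := Real.exp_le_exp.2 h3
        rw [Real.exp_log (by positivity)] at h4
        linarith)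
      (a := (Real.log (r / 2) : ℝ) + 2 * Real.pi * Complex.I) (b := ((Real.log (r / 2) : ℝ) : ℂ))
      (by simp) (by simp)
    rw [hper] at h1
    linear_combination h1
  have h1 := hd ((Real.log R : ℝ) : ℂ) ((Real.log (r / 2) : ℝ) : ℂ)
  rw [hfar, hnear] at h1
  have h2 : (2 * Real.pi * Complex.I : ℂ) ≠ 0 := Complex.two_pi_I_ne_zero
  exact h2 h1.symm

theorem LogOn.move {K : Set ℂ} {e e' : ℂ} (h : ∀ z ∈ K, ‖e' - e‖ < ‖z - e‖) (hQ : LogOn K e) :
    LogOn K e' := by
  obtain ⟨q, hq1, hq2⟩ := hQ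
  have hne : ∀ z ∈ K, z - e ≠ 0 := by
    intro z hz h0
    have := h z hz
    rw [h0, norm_zero] at this
    exact absurd this (not_lt.2 (norm_nonneg _))
  have hn : ∀ z ∈ K, 1 + -((e' - e) / (z - e)) ∈ Complex.slitPlane := by
    intro z hz
    apply Complex.mem_slitPlane_of_norm_lt_one
    rw [norm_neg, norm_div, div_lt_one (norm_pos_iff.2 (hne z hz))]
    exact h z hz
  refine ⟨fun z => q z + Complex.log (1 + -((e' - e) / (z - e))), ?_, fun z hz => ?_⟩
  · refine hq1.add (ContinuousOn.clog ?_ hn)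
    exact continuousOn_const.add ((continuousOn_const.div
      (continuousOn_id.sub continuousOn_const) hne).neg)
  · rw [Complex.exp_add, hq2 z hz, Complex.exp_log (Complex.slitPlane_ne_zero (hn z hz))]
    have := hne z hz
    field_simp
    ring

theorem LogOn.far {K : Set ℂ} {e : ℂ} (h : ∀ z ∈ K, ‖z‖ < ‖e‖) : LogOn K e := by
  rcases K.eq_empty_or_nonempty with hK | ⟨z0, hz0⟩
  · subst hK
    exact ⟨fun _ => 0, continuousOn_empty _, fun z hz => absurd hz (notMem_empty z)⟩
  have he : e ≠ 0 := by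
    rintro rfl
    have := h z0 hz0
    rw [norm_zero] at this
    exact absurd this (not_lt.2 (norm_nonneg _))
  have hn : ∀ z ∈ K, 1 + -(z / e) ∈ Complex.slitPlane := by
    intro z hz
    apply Complex.mem_slitPlane_of_norm_lt_one
    rw [norm_neg, norm_div, div_lt_one (norm_pos_iff.2 he)]
    exact h z hz
  refine ⟨fun z => Complex.log (-e) + Complex.log (1 + -(z / e)), ?_, fun z hz => ?_⟩
  · exact continuousOn_const.add (ContinuousOn.clog (by fun_prop) hn)
  · rw [Complex.exp_add, Complex.exp_log (neg_ne_zero.2 he),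
      Complex.exp_log (Complex.slitPlane_ne_zero (hn z hz))]
    field_simp
    ring

theorem log_of_joined {K : Set ℂ} (hK : IsCompact K) (h0 : (0 : ℂ) ∉ K)
    (hJ : (∞ : Sph) ∈ connectedComponentIn ((↑) '' K : Set Sph)ᶜ ((0 : ℂ) : Sph)) : LogOn K 0 := by
  obtain ⟨R, hR0, hR⟩ : ∃ R : ℝ, 0 < R ∧ ∀ z ∈ K, ‖z‖ < R := by
    obtain ⟨R, hR⟩ := hK.isBounded.exists_norm_le
    exact ⟨max R 0 + 1, by positivity, fun z hz => by
      have := hR z hz
      have := le_max_left R 0
      linarith⟩
  have hpre : IsPreconnected (connectedComponentIn ((↑) '' K : Set Sph)ᶜ ((0 : ℂ) : Sph)) :=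
    isPreconnected_connectedComponentIn
  have h0m : ((0 : ℂ) : Sph) ∈ connectedComponentIn ((↑) '' K : Set Sph)ᶜ ((0 : ℂ) : Sph) := by
    apply mem_connectedComponentIn
    rintro ⟨z, hz, hz0⟩
    rw [OnePoint.coe_eq_coe] at hz0
    exact h0 (hz0 ▸ hz)
  have key := hpre.induction₂
    (fun x y : Sph => ((x = ∞ ∨ LogOn K (toC x)) ↔ (y = ∞ ∨ LogOn K (toC y)))) ?_
    (fun x y z _ _ _ h h' => h.trans h') (fun x y _ _ h => h.symm) hJ h0m
  · rcases key.1 (Or.inl rfl) with h1 | h1
    · exact absurd h1 (coe_ne_infty _)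
    · exact h1
  · intro x hx
    induction x using OnePoint.rec with
    | infty =>
      have h1 : ∀ᶠ y in 𝓝 (∞ : Sph), y = ∞ ∨ R < ‖toC y‖ := by
        have h2 : IsOpen {y : Sph | y = ∞ ∨ R < ‖toC y‖} := by
          rw [OnePoint.isOpen_def]
          constructor
          · intro _
            have h3 : ((↑) ⁻¹' {y : Sph | y = ∞ ∨ R < ‖toC y‖} : Set ℂ)ᶜ = Metric.closedBall 0 R := by
              ext z
              simp
            rw [h3]
            exact isCompact_closedBall 0 R
          · have h3 : ((↑) ⁻¹' {y : Sph | y = ∞ ∨ R < ‖toC y‖} : Set ℂ) = {z | R < ‖z‖} := by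
              ext z
              simp
            rw [h3]
            exact isOpen_lt continuous_const continuous_norm
        exact h2.mem_nhds (Or.inl rfl)
      refine eventually_nhdsWithin_of_eventually_nhds ?_
      filter_upwards [h1] with y hy
      refine ⟨fun _ => ?_, fun _ => Or.inl rfl⟩
      rcases hy with hy | hy
      · exact Or.inl hy
      · exact Or.inr (LogOn.far fun t ht => (hR t ht).trans hy)
    | coe e =>
      have heK : e ∉ K := fun h => connectedComponentIn_subset _ _ hx ⟨e, h, rfl⟩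
      obtain ⟨m, hm0, hmle⟩ : ∃ m : ℝ, 0 < m ∧ ∀ z ∈ K, m ≤ ‖z - e‖ := by
        rcases K.eq_empty_or_nonempty with hKe | hKne
        · exact ⟨1, one_pos, by rw [hKe]; simp⟩
        · obtain ⟨t0, ht0K, ht0⟩ := hK.exists_isMinOn hKne
            ((continuous_id.sub continuous_const).norm.continuousOn : ContinuousOn
              (fun t => ‖t - e‖) K)
          exact ⟨‖t0 - e‖, norm_pos_iff.2 (sub_ne_zero.2 (fun h => heK (h ▸ ht0K))),
            fun z hz => ht0 hz⟩
      have h1 : ∀ᶠ y : Sph in 𝓝 (e : Sph), ∃ w : ℂ, y = (w : Sph) ∧ ‖w - e‖ < m / 2 := by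
        rw [OnePoint.nhds_coe_eq, eventually_map]
        filter_upwards [Metric.ball_mem_nhds e (half_pos hm0)] with w hw
        rw [Metric.mem_ball, dist_eq_norm] at hw
        exact ⟨w, rfl, hw⟩
      refine eventually_nhdsWithin_of_eventually_nhds ?_
      filter_upwards [h1] with y hy
      obtain ⟨w, rfl, hw⟩ := hy
      have hx0 : ((e : Sph) = ∞) ↔ False := ⟨fun h => coe_ne_infty e h, False.elim⟩
      have hy0 : ((w : Sph) = ∞) ↔ False := ⟨fun h => coe_ne_infty w h, False.elim⟩
      rw [hx0, hy0, false_or, false_or, toC_coe, toC_coe]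
      constructor
      · exact LogOn.move fun z hz => by
          have := hmle z hz
          linarith
      · refine LogOn.move fun z hz => ?_
        have h5 := hmle z hz
        have h6 : ‖z - e‖ ≤ ‖z - w‖ + ‖w - e‖ := by
          have : z - e = (z - w) + (w - e) := by ring
          rw [this]
          exact norm_add_le _ _
        rw [norm_sub_rev]
        linarith

theorem LogOn.union {K₁ K₂ : Set ℂ} (h₁ : IsClosed K₁) (h₂ : IsClosed K₂)
    (hc : IsPreconnected (K₁ ∩ K₂)) {p : ℂ} (l₁ : LogOn K₁ p) (l₂ : LogOn K₂ p) :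
    LogOn (K₁ ∪ K₂) p := by
  obtain ⟨g₁, hg₁, he₁⟩ := l₁
  obtain ⟨g₂, hg₂, he₂⟩ := l₂
  obtain ⟨c, hc1, hcc⟩ : ∃ c : ℂ, Complex.exp c = 1 ∧ ∀ z ∈ K₁ ∩ K₂, g₁ z = g₂ z + c := by
    rcases (K₁ ∩ K₂).eq_empty_or_nonempty with he | ⟨z0, hz0⟩
    · exact ⟨0, Complex.exp_zero, by rw [he]; simp⟩
    · refine ⟨g₁ z0 - g₂ z0, ?_, fun z hz => ?_⟩
      · rw [Complex.exp_sub, he₁ z0 hz0.1, he₂ z0 hz0.2, ← he₂ z0 hz0.2,
          div_self (Complex.exp_ne_zero _)]
      · have := exp_const hc (hg₁.mono inter_subset_left) (hg₂.mono inter_subset_right)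
          (fun a ha => by rw [he₁ a ha.1, he₂ a ha.2]) hz hz0
        linear_combination this
  classical
  refine ⟨fun z => if z ∈ K₁ then g₁ z else g₂ z + c, ?_, ?_⟩
  · refine ContinuousOn.union_of_isClosed (hg₁.congr fun z hz => ?_)
      ((hg₂.add (continuousOn_const (c := c))).congr fun z hz => ?_) h₁ h₂
    · rw [if_pos hz]
    · split_ifs with h
      · exact hcc z ⟨h, hz⟩
      · rfl
  · intro z hz
    simp only []
    split_ifs with h
    · exact he₁ z h
    · rw [Complex.exp_add, hc1, mul_one]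
      exact he₂ z (hz.resolve_left h)

end Pool.Agent.H208.Tree
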