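import Pool.Agent.H208.Tree.Inj

set_option autoImplicit false

/-!
# Invariant embedded combs
-/

noncomputable section

namespace Pool.Agent.H208.Tree

open Set Filter Topology OnePoint Pool.Agent.H208.Thu unitInterval

variable {n : ℕ}

instance (n : ℕ) : CompactSpace (comb n) := by
  rw [← isCompact_iff_compactSpace]
  rcases Nat.eq_zero_or_pos n with h | h
  · subst h
    have h1 : comb 0 = (fun t : ℝ => (t : ℂ) * Complex.I) '' Icc 0 1 := by
      ext z
      constructor
      · rintro (⟨h0, h1, h2⟩ | ⟨k, hk, hre, h0, h1⟩)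
        · refine ⟨0, ⟨le_rfl, zero_le_one⟩, ?_⟩
          have : z.re = 0 := le_antisymm (by simpa using h1) h0
          apply Complex.ext <;> simp [this, h2]
        · refine ⟨z.im, ⟨h0, h1⟩, ?_⟩
          have hk0 : k = 0 := by omega
          subst hk0
          apply Complex.ext
          · simp [hre]
          · simp
      · rintro ⟨t, ht, rfl⟩
        right
        exact ⟨0, le_rfl, by simp, by simpa using ht.1, by simpa using ht.2⟩
    rw [h1]
    exact isCompact_Icc.image (by fun_prop)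
  · have h1 : comb n = ⋃ e : Ed n, ep e '' Icc 0 1 := by
      ext z
      constructor
      · intro hz
        obtain ⟨e, s, h0, h1, rfl⟩ := exists_ep h hz
        exact mem_iUnion.2 ⟨e, s, ⟨h0, h1⟩, rfl⟩
      · intro hz
        obtain ⟨e, s, hs, rfl⟩ := mem_iUnion.1 hz
        exact ep_mem e hs.1 hs.2
    rw [h1]
    exact isCompact_iUnion fun e => isCompact_Icc.image (continuous_ep e)

/-- coe is uniformly continuous on bounded sets -/
theorem coe_unif (R : ℝ) {ε : ℝ} (hε : 0 < ε) : ∃ r > 0, ∀ z w : ℂ, ‖z‖ ≤ R → ‖w - z‖ < r →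
    dist (w : Sph) (z : Sph) < ε := by
  have hu := (isCompact_closedBall (0 : ℂ) (R + 1)).uniformContinuousOn_of_continuous
    (OnePoint.continuous_coe (X := ℂ)).continuousOn
  rw [Metric.uniformContinuousOn_iff] at hu
  obtain ⟨η, hη, hu⟩ := hu ε hε
  refine ⟨min η 1, lt_min hη one_pos, fun z w hz hw => ?_⟩
  have h1 : ‖w‖ ≤ R + 1 := by
    have : w = (w - z) + z := by ring
    rw [this]
    refine (norm_add_le _ _).trans ?_
    linarith [hw.trans_le (min_le_right η 1)]
  refine hu w (by rwa [mem_closedBall_zero_iff]) z (by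
    rw [mem_closedBall_zero_iff]; linarith) ?_
  rw [dist_eq_norm]
  exact hw.trans_le (min_le_left η 1)

theorem exists_comb {f : Sph → Sph} (hn : 1 ≤ n) (hf : Brc f (P0 n)) {δ : ℝ} (hδ : 0 < δ)
    (hE : Expand f δ) : ∃ N : ℕ, ∀ N' ≥ N, ∃ φ : comb n → Sph, Continuous φ ∧
      Function.Injective φ ∧ (∀ z : comb n, (z : ℂ) ∈ tips n → φ z = (z : ℂ)) ∧
      ∀ z, ∃ w, f^[N'] (φ z) = φ w := by
  obtain ⟨η, hη, hcmp⟩ := compare (n + 1) (η := 1 / 100) (by norm_num)
  set ρ := min δ η / 2 with hρdef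
  have hρ : 0 < ρ := by positivity
  have hρδ : ρ ≤ δ := by
    have := min_le_left δ η
    have : 0 < min δ η := lt_min hδ hη
    rw [hρdef]; linarith
  have hρη : ρ < η := by
    have := min_le_right δ η
    have : 0 < min δ η := lt_min hδ hη
    rw [hρdef]; linarith
  set ε := ρ / 2 with hεdef
  have hε : 0 < ε := by positivity
  obtain ⟨r₁, hr₁, hcoe⟩ := coe_unif (n + 1) hε
  set r := min (r₁ / 24) (1 / 24) with hrdef
  have hr : 0 < r := by positivity
  have hr24 : r ≤ 1 / 24 := min_le_right _ _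
  have hrr : r ≤ r₁ / 24 := min_le_left _ _
  obtain ⟨N₁, hN₁⟩ := hE ε hε
  obtain ⟨N₂, hN₂⟩ := exists_phi1 hn hf hδ hE hr hr24
  refine ⟨max (max N₁ N₂) 1, fun N' hN' => ?_⟩
  have hN1 : 1 ≤ N' := (le_max_right _ _).trans hN'
  have hNa : N₁ ≤ N' := ((le_max_left _ _).trans (le_max_left _ _)).trans hN'
  have hNb : N₂ ≤ N' := ((le_max_right _ _).trans (le_max_left _ _)).trans hN'
  obtain ⟨φ₁, g, a1, a2, a3, a4, a5, a6⟩ := hN₂ N' hNb
  obtain ⟨Φ', b1, b2, b3, b4, b5, b6⟩ := exists_hom a1 a2 (r := 4 * r) (by linarith) a3 a4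
  have hF := hf.iter N'
  have hFs := hN₁ N' hNa
  set F := f^[N'] with hFdef
  set gA : comb n → comb n := fun z => ⟨g z, (a5 z z.2).1⟩ with hgA
  have hgAc : Continuous gA := by
    refine Continuous.subtype_mk ?_ _
    rw [isOpenEmbedding_coe.isInducing.continuous_iff]
    have h1 : Continuous fun z : comb n => F (φ₁ z : Sph) :=
      hF.cont.comp (OnePoint.continuous_coe.comp (continuousOn_iff_continuous_domRestrict.1 a1))
    refine h1.congr fun z => ?_
    exact (a5 z z.2).2
  set Φ₀ : (comb n) × I → Sph := fun p => ((Φ' p.1 p.2 : ℂ) : Sph) with hΦ₀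
  have hΦ₀c : Continuous Φ₀ := by
    refine OnePoint.continuous_coe.comp ?_
    exact b1.comp_continuous (f := fun p : (comb n) × I => ((p.1 : ℂ), (p.2 : ℝ))) (by fun_prop)
      fun p => ⟨p.1.2, p.2.2⟩
  have hnice : NiceH (P0 n) Φ₀ := by
    intro z
    by_cases hz : (z : ℂ) ∈ tips n
    · right
      intro s
      simp only [hΦ₀]
      rw [b5 z hz, b5 z hz]
    · left
      intro s hs
      exact b6 z z.2 hz s s.2.1 s.2.2 (coe_mem_P0.1 hs)
  have he : ∀ z, F (Φ₀ (z, 1)) = Φ₀ (gA z, 0) := by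
    intro z
    simp only [hΦ₀, Icc.coe_one, Icc.coe_zero]
    rw [b3 z z.2, b2]
    exact (a5 z z.2).2
  obtain ⟨Φ, c1, c2, c3, c4, c5⟩ := exists_seq hF hgAc hΦ₀c hnice he
  have hL : LSeq F (P0 n) gA Φ := ⟨c2, c3, c4, c5⟩
  have hΦ0 : ∀ z : comb n, Φ 0 (z, 0) = ((z : ℂ) : Sph) := by
    intro z
    rw [c1]
    simp only [hΦ₀, Icc.coe_zero]
    rw [b2]
  have htr := hL.track (ε := ε) (ρ := ρ) (δ := δ) hFs (by
    intro z s
    rw [hΦ0, c1]
    simp only [hΦ₀]
    refine hcoe _ _ (norm_comb z.2) ?_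
    have := b4 z z.2 s s.2.1 s.2.2
    linarith) hε (by rw [hεdef]; linarith) hρδ
  obtain ⟨φ, d1, d2, d3⟩ := hL.limit hN1 hE hF.cont hρδ htr
  refine ⟨φ, d1, ?_, ?_, fun z => ⟨gA z, d2 z⟩⟩
  · refine limit_inj hn hF a6 (gA := gA) (fun z => rfl) hL hΦ0 ?_ hρη hcmp htr d3
    intro x y hxy
    simp only [c1, hΦ₀, Icc.coe_one] at hxy
    rw [b3 x x.2, b3 y y.2] at hxy
    exact Subtype.ext (a2 x.2 y.2 (OnePoint.coe_injective hxy))
  · have hgt : ∀ z : comb n, (z : ℂ) ∈ tips n → ((gA z : comb n) : ℂ) ∈ tips n := by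
      intro z hz
      have h1 := (a5 z z.2).2
      rw [a4 z hz] at h1
      have h2 := hF.map _ (coe_mem_P0.2 hz)
      rw [h1] at h2
      exact coe_mem_P0.1 h2
    have hall : ∀ i, ∀ z : comb n, (z : ℂ) ∈ tips n → ∀ s, Φ i (z, s) = ((z : ℂ) : Sph) := by
      intro i
      induction i with
      | zero =>
        intro z hz s
        rw [c1]
        simp only [hΦ₀]
        rw [b5 z hz]
      | succ i ih =>
        intro z hz s
        have h1 : Φ (i + 1) (z, s) = Φ (i + 1) (z, 0) := by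
          refine const_fiber hF (γ := fun s => Φ (i + 1) (z, s))
            ((c2 (i + 1)).comp (Continuous.prodMk_right z)) (S := univ) isPreconnected_univ
            (y := (((gA z : comb n) : ℂ) : Sph)) (fun t _ => ?_) (mem_univ _) (mem_univ _)
          rw [c4, ih _ (hgt z hz)]
        rw [h1, c5, ih z hz]
    intro z hz
    have h1 : Tk Φ 0 z ⊆ {((z : ℂ) : Sph)} := by
      intro q hq
      obtain ⟨i, -, s, rfl⟩ := mem_iUnion₂.1 hq
      exact hall i z hz s
    exact closure_minimal h1 isClosed_singleton (d3 0 z)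

instance : LocallyPathConnectedSpace ℂ := by infer_instance

/-- the complement of an embedded comb is connected -/
theorem compl_comb (hn : 1 ≤ n) {φ : comb n → Sph} (hφ : Continuous φ)
    (hi : Function.Injective φ) : IsPreconnected (range φ)ᶜ := by
  have hS : Simply (range φ) := simply_range (B := ℂ) hφ hi
    (ρ := fun z : ℂ => (⟨r1 n z, r1_mem hn z⟩ : comb n))
    (Continuous.subtype_mk (continuous_r1 n) _) (s := fun a : comb n => (a : ℂ))
    continuous_subtype_val fun a => Subtype.ext (r1_eq hn a.2)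
  have hc : IsClosed (range φ) := (isCompact_range hφ).isClosed
  refine isPreconnected_of_forall_pair fun x hx y hy => ?_
  have h1 := hS.same hc hx hy
  exact ⟨connectedComponentIn (range φ)ᶜ x, connectedComponentIn_subset _ _,
    mem_connectedComponentIn hx, h1, isPreconnected_connectedComponentIn⟩

theorem connected_comb (hn : 1 ≤ n) {φ : comb n → Sph} (hφ : Continuous φ) :
    IsConnected (range φ) := by
  have h1 : range φ = range fun z : ℂ => φ (⟨r1 n z, r1_mem hn z⟩ : comb n) := by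
    ext y
    constructor
    · rintro ⟨a, rfl⟩
      exact ⟨a, congrArg φ (Subtype.ext (r1_eq hn a.2))⟩
    · rintro ⟨z, rfl⟩
      exact ⟨_, rfl⟩
  rw [h1]
  exact isConnected_range (hφ.comp (Continuous.subtype_mk (continuous_r1 n) _))

end Pool.Agent.H208.Tree
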