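import Pool.Agent.H208.Tree.Expand

set_option autoImplicit false

/-!
# Normalisation of the set of branch values
-/

noncomputable section

namespace Pool.Agent.H208.Tree

open Set Filter Topology OnePoint Pool.Agent.H208.Thu unitInterval

theorem compl_finite_preconnected {S : Set Sph} (hS : S.Finite) : IsPreconnected Sᶜ := by
  rcases S.eq_empty_or_nonempty with h | ⟨y, hy⟩
  · rw [h, compl_empty]
    exact isPreconnected_univ
  · obtain ⟨m, hm⟩ := exists_mob1 y
    have h1 : Sᶜ = emb m '' (emb m ⁻¹' S)ᶜ := by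
      ext x
      constructor
      · intro hx
        obtain ⟨z, rfl⟩ := (mem_range_emb hm).2 (fun h : x = y => hx (h ▸ hy))
        exact ⟨z, hx, rfl⟩
      · rintro ⟨z, hz, rfl⟩
        exact hz
    rw [h1]
    have h2 : (emb m ⁻¹' S).Finite := hS.preimage (emb_open m).injective.injOn
    exact (h2.countable.isConnected_compl_of_one_lt_rank (by simp)).isPreconnected.image _
      (emb_cont m).continuousOn

theorem nhdsNE_neBot_sph (p : Sph) : (𝓝[≠] p).NeBot := inferInstance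

/-- a map of degree at least two has at least two branch values -/
theorem Brc.two_le {f : Sph → Sph} {P : Set Sph} (hf : Brc f P) (hinj : ¬ Function.Injective f) :
    2 ≤ P.ncard := by
  by_contra hcard
  apply hinj
  obtain ⟨p, hp⟩ : ∃ p, P ⊆ {p} := by
    have h1 : P.ncard ≤ 1 := by omega
    rcases P.eq_empty_or_nonempty with h | ⟨p, hp⟩
    · exact ⟨∞, by rw [h]; exact empty_subset _⟩
    · refine ⟨p, fun q hq => ?_⟩
      exact (Set.ncard_le_one hf.fin).1 h1 q hq p hp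
  obtain ⟨m, hm⟩ := exists_mob1 p
  have hfib : ∀ c : ℂ, ∀ x y, f x = emb m c → f y = emb m c → x = y := by
    intro c
    obtain ⟨G, hG1, hG2⟩ := exists_radial hf m (convex_univ) (mem_univ c) (fun z _ hz => by
      exfalso
      exact (mem_range_emb hm).1 ⟨z, rfl⟩ (hp hz))
    have hend : ∀ x, f x = emb m c → G x 1 = x := by
      intro x hx
      obtain ⟨h1, h2, h3⟩ := hG1 x c (mem_univ _) hx
      have h4 := const_fiber hf h1 (S := univ) isPreconnected_univ (y := emb m c) (fun s _ => by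
        rw [h3, ← add_smul]
        congr 1
        have : (1 - (s : ℝ) + s) = 1 := by ring
        rw [this, one_smul]) (mem_univ 1) (mem_univ 0)
      rw [h4, h2]
    have hY : IsPreconnected (f ⁻¹' {p})ᶜ := compl_finite_preconnected (hf.fib p)
    intro x y hx hy
    rw [← hend x hx, ← hend y hy]
    refine radial_const hf hG1 hG2 hY ?_ ?_ ?_
    · intro u hu
      obtain ⟨z, hz⟩ := (mem_range_emb hm).2 (fun h : f u = p => hu h)
      exact ⟨z, mem_univ _, hz⟩
    · intro h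
      exact (mem_range_emb hm).1 ⟨c, rfl⟩ (hx.symm.trans h)
    · intro h
      exact (mem_range_emb hm).1 ⟨c, rfl⟩ (hy.symm.trans h)
  intro x y hxy
  by_cases hfx : f x = p
  · by_contra hne
    obtain ⟨O, O', hO, hO', hxO, hyO', hd⟩ := t2_separation hne
    have h1 : f '' O ∩ f '' O' ∈ 𝓝 p := by
      refine inter_mem ((hf.op _ hO).mem_nhds ⟨x, hxO, hfx⟩)
        ((hf.op _ hO').mem_nhds ⟨y, hyO', hxy ▸ hfx⟩)
    have h2 : ∃ u ∈ f '' O ∩ f '' O', u ≠ p := by
      have h3 : (f '' O ∩ f '' O') ∩ {p}ᶜ ∈ 𝓝[≠] p :=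
        inter_mem (mem_nhdsWithin_of_mem_nhds h1) self_mem_nhdsWithin
      obtain ⟨u, hu1, hu2⟩ := (nhdsNE_neBot_sph p).nonempty_of_mem h3
      exact ⟨u, hu1, hu2⟩
    obtain ⟨u, ⟨⟨a, ha, hau⟩, ⟨b, hb, hbu⟩⟩, hup⟩ := h2
    obtain ⟨c, rfl⟩ := (mem_range_emb hm).2 hup
    have := hfib c a b hau hbu
    subst this
    exact disjoint_left.1 hd ha hb
  · obtain ⟨c, hc⟩ := (mem_range_emb hm).2 hfx
    exact hfib c x y hc.symm (hxy ▸ hc.symm)

/-- vertical shears -/
def vshear (v : ℝ → ℝ) (hv : Continuous v) : ℂ ≃ₜ ℂ where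
  toFun z := z + (v z.re : ℂ) * Complex.I
  invFun z := z - (v z.re : ℂ) * Complex.I
  left_inv z := by simp
  right_inv z := by simp
  continuous_toFun := by fun_prop
  continuous_invFun := by fun_prop

/-- horizontal shears -/
def hshear (v : ℝ → ℝ) (hv : Continuous v) : ℂ ≃ₜ ℂ where
  toFun z := z + (v z.im : ℂ)
  invFun z := z - (v z.im : ℂ)
  left_inv z := by simp
  right_inv z := by simp
  continuous_toFun := by fun_prop
  continuous_invFun := by fun_prop

theorem exists_interp {N : ℕ} {X : Fin N → ℝ} (hX : Function.Injective X) (Y : Fin N → ℝ) :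
    ∃ v : ℝ → ℝ, Continuous v ∧ ∀ k, v (X k) = Y k := by
  refine ⟨fun x => (Lagrange.interpolate Finset.univ X Y).eval x, by fun_prop, fun k => ?_⟩
  exact Lagrange.eval_interpolate_at_node _ hX.injOn (Finset.mem_univ k)

theorem exists_slope {N : ℕ} {q : Fin N → ℂ} (hq : Function.Injective q) :
    ∃ t : ℝ, Function.Injective fun k => (q k).re + t * (q k).im := by
  set S : Set ℝ := ⋃ p : Fin N × Fin N, {t | q p.1 ≠ q p.2 ∧
    (q p.1).re + t * (q p.1).im = (q p.2).re + t * (q p.2).im} with hS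
  have hfin : S.Finite := by
    refine finite_iUnion fun p => ?_
    refine Set.Subsingleton.finite ?_
    rintro s ⟨hs1, hs2⟩ t ⟨-, ht2⟩
    by_contra hst
    have h1 : (s - t) * ((q p.1).im - (q p.2).im) = 0 := by linear_combination hs2 - ht2
    rcases mul_eq_zero.1 h1 with h2 | h2
    · exact hst (by linarith)
    · apply hs1
      have h3 : (q p.1).im = (q p.2).im := by linarith
      apply Complex.ext _ h3
      rw [h3] at hs2
      linarith
  obtain ⟨t, ht⟩ := hfin.infinite_compl.nonempty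
  refine ⟨t, fun j k hjk => ?_⟩
  by_contra hne
  exact ht (mem_iUnion.2 ⟨(j, k), fun h => hne (hq h), hjk⟩)

theorem exists_norm_plane {N : ℕ} {q : Fin N → ℂ} (hq : Function.Injective q) :
    ∃ h : ℂ ≃ₜ ℂ, ∀ k, h (q k) = (k : ℂ) + Complex.I := by
  obtain ⟨t, ht⟩ := exists_slope hq
  obtain ⟨v, hv, hv2⟩ := exists_interp ht fun k => (k : ℝ) - (q k).im
  have hk : Function.Injective fun k : Fin N => ((k : ℕ) : ℝ) := fun a b h => by
    have h' : ((a : ℕ) : ℝ) = ((b : ℕ) : ℝ) := h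
    exact Fin.ext (by exact_mod_cast h')
  obtain ⟨w, hw, hw2⟩ := exists_interp hk fun k => (k : ℝ) - ((q k).re + t * (q k).im)
  refine ⟨(((hshear (fun x => t * x) (by fun_prop)).trans (vshear v hv)).trans
    (hshear w hw)).trans (vshear (fun x => 1 - x) (by fun_prop)), fun k => ?_⟩
  have h1 : hshear (fun x => t * x) (by fun_prop) (q k) = q k + ((t * (q k).im : ℝ) : ℂ) := rfl
  have h2 : vshear v hv (q k + ((t * (q k).im : ℝ) : ℂ)) =
      (((q k).re + t * (q k).im : ℝ) : ℂ) + ((k : ℝ) : ℂ) * Complex.I := by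
    show q k + ((t * (q k).im : ℝ) : ℂ) + ((v (q k + ((t * (q k).im : ℝ) : ℂ)).re : ℝ) : ℂ) *
      Complex.I = _
    have h3 : (q k + ((t * (q k).im : ℝ) : ℂ)).re = (q k).re + t * (q k).im := by
      rw [Complex.add_re, Complex.ofReal_re]
    rw [h3, hv2]
    apply Complex.ext <;> simp
  have h4 : hshear w hw ((((q k).re + t * (q k).im : ℝ) : ℂ) + ((k : ℝ) : ℂ) * Complex.I) =
      ((k : ℝ) : ℂ) + ((k : ℝ) : ℂ) * Complex.I := by
    show (((q k).re + t * (q k).im : ℝ) : ℂ) + ((k : ℝ) : ℂ) * Complex.I +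
      ((w ((((q k).re + t * (q k).im : ℝ) : ℂ) + ((k : ℝ) : ℂ) * Complex.I).im : ℝ) : ℂ) = _
    have h5 : ((((q k).re + t * (q k).im : ℝ) : ℂ) + ((k : ℝ) : ℂ) * Complex.I).im = (k : ℝ) := by
      simp
    rw [h5, hw2]
    push_cast
    ring
  show vshear (fun x => 1 - x) (by fun_prop)
    (hshear w hw (vshear v hv (hshear (fun x => t * x) (by fun_prop) (q k)))) = _
  rw [h1, h2, h4]
  show ((k : ℝ) : ℂ) + ((k : ℝ) : ℂ) * Complex.I +
    ((1 - (((k : ℝ) : ℂ) + ((k : ℝ) : ℂ) * Complex.I).re : ℝ) : ℂ) * Complex.I = _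
  have h6 : ((((k : ℕ) : ℝ) : ℂ) + (((k : ℕ) : ℝ) : ℂ) * Complex.I).re = ((k : ℕ) : ℝ) := by simp
  rw [h6]
  push_cast
  ring

/-- the normal form of a finite set with at least two points -/
theorem exists_norm {P : Set Sph} (hP : P.Finite) (h2 : 2 ≤ P.ncard) :
    ∃ (h : Sph ≃ₜ Sph) (n : ℕ), 1 ≤ n ∧
      h '' P = {x | ∃ k : ℕ, k ≤ n ∧ x = (((k : ℂ) + Complex.I : ℂ) : Sph)} := by
  have hinf : Infinite Sph := inferInstance
  obtain ⟨y, hy⟩ : ∃ y, y ∉ P := by
    obtain ⟨y, hy⟩ := hP.infinite_compl.nonempty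
    exact ⟨y, hy⟩
  obtain ⟨m, hm⟩ := exists_mob1 y
  have e : P ≃ Fin P.ncard := by
    have := hP.fintype
    rw [Set.ncard_eq_toFinset_card']
    exact (Fintype.equivFinOfCardEq (by rw [Set.toFinset_card]))
  have hq : ∀ k : Fin P.ncard, ∃ z : ℂ, (z : Sph) = m (e.symm k) := by
    intro k
    have h1 : m (e.symm k) ≠ ∞ := fun h => hy (by
      have h2 : ((e.symm k : P) : Sph) = y := m.injective (h.trans hm.symm)
      rw [← h2]
      exact (e.symm k).2)
    exact ne_infty_iff_exists.1 h1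
  choose q hq using hq
  have hqi : Function.Injective q := by
    intro j k hjk
    have h1 := hq j
    rw [hjk, hq k] at h1
    exact e.symm.injective (Subtype.ext (m.injective h1.symm))
  obtain ⟨h, hh⟩ := exists_norm_plane hqi
  refine ⟨m.trans h.onePointCongr, P.ncard - 1, by omega, ?_⟩
  ext x
  constructor
  · rintro ⟨p, hp, rfl⟩
    refine ⟨e ⟨p, hp⟩, by have := (e ⟨p, hp⟩).2; omega, ?_⟩
    show h.onePointCongr (m p) = _
    have h1 := hq (e ⟨p, hp⟩)
    rw [e.symm_apply_apply] at h1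
    rw [← h1]
    show ((h (q (e ⟨p, hp⟩)) : ℂ) : Sph) = _
    rw [hh]
  · rintro ⟨k, hk, rfl⟩
    have hk' : k < P.ncard := by omega
    refine ⟨e.symm ⟨k, hk'⟩, (e.symm ⟨k, hk'⟩).2, ?_⟩
    show h.onePointCongr (m (e.symm ⟨k, hk'⟩)) = _
    rw [← hq ⟨k, hk'⟩]
    show ((h (q ⟨k, hk'⟩) : ℂ) : Sph) = _
    rw [hh]

end Pool.Agent.H208.Tree
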