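import Pool.Agent.H208.Tree.Tree1

set_option autoImplicit false

/-!
# The embedding of the comb onto a tree in its preimage
-/

noncomputable section

namespace Pool.Agent.H208.Tree

open Set Filter Topology OnePoint Pool.Agent.H208.Thu unitInterval

variable {F : Sph → Sph} {n : ℕ}

/-- the breakpoints -/
theorem exists_break {m : ℕ} (hm : 0 < m) {t : ℕ → ℝ} (h01 : ∀ j < m, 0 ≤ t j ∧ t j ≤ 1)
    (hmono : ∀ i j, i ≤ j → j < m → t i ≤ t j) {κ : ℝ} (hκ : 0 < κ) (hκ1 : κ ≤ 1)
    (h0 : |t 0| ≤ 2 * κ) (h1 : |1 - t (m - 1)| ≤ 2 * κ)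
    (hstep : ∀ j, j + 1 < m → |t (j + 1) - t j| ≤ 2 * κ) :
    ∃ s : ℕ → ℝ, s 0 = 0 ∧ s m = 1 ∧ (∀ j < m, s j < s (j + 1)) ∧
      (∀ j < m, |s j - t j| ≤ 3 * κ ∧ |s (j + 1) - t j| ≤ 3 * κ) := by
  classical
  have hm' : (0 : ℝ) < m := by exact_mod_cast hm
  set t' : ℕ → ℝ := fun j => if j = 0 then 0 else if j < m then t j else 1 with ht'
  have ht'01 : ∀ j, 0 ≤ t' j ∧ t' j ≤ 1 := by
    intro j
    simp only [ht']
    split_ifs with h h'
    · exact ⟨le_rfl, zero_le_one⟩
    · exact h01 j h'
    · exact ⟨zero_le_one, le_rfl⟩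
  have hmono' : ∀ j, t' j ≤ t' (j + 1) := by
    intro j
    by_cases hj : j = 0
    · have : t' j = 0 := by simp only [ht', if_pos hj]
      rw [this]
      exact (ht'01 _).1
    · by_cases hj' : j + 1 < m
      · simp only [ht', if_neg hj, if_neg (Nat.succ_ne_zero j), if_pos hj',
          if_pos (show j < m by omega)]
        exact hmono j (j + 1) (by omega) hj'
      · have : t' (j + 1) = 1 := by simp only [ht', if_neg (Nat.succ_ne_zero j), if_neg hj']
        rw [this]
        exact (ht'01 _).2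
  set s : ℕ → ℝ := fun j => (1 - κ) * t' j + κ * (j / m) with hs
  have hst : ∀ j ≤ m, |s j - t' j| ≤ κ := by
    intro j hj
    have hj' : (j : ℝ) ≤ m := by exact_mod_cast hj
    have e1 : s j - t' j = κ * (j / m - t' j) := by simp only [hs]; ring
    have e2 : (0 : ℝ) ≤ j / m := by positivity
    have e3 : (j : ℝ) / m ≤ 1 := (div_le_one hm').2 hj'
    have e4 : |(j : ℝ) / m - t' j| ≤ 1 := by
      rw [abs_le]
      have := ht'01 j
      constructor <;> linarith
    rw [e1, abs_mul, abs_of_pos hκ]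
    nlinarith [abs_nonneg ((j : ℝ) / m - t' j)]
  refine ⟨s, ?_, ?_, ?_, ?_⟩
  · simp [hs, ht']
  · simp only [hs, ht', if_neg hm.ne', lt_irrefl, if_false, div_self hm'.ne']
    ring
  · intro j hj
    simp only [hs]
    have e1 : ((j + 1 : ℕ) : ℝ) / m = j / m + 1 / m := by push_cast; ring
    have e2 : 0 < κ * (1 / m) := by positivity
    have e3 := hmono' j
    rw [e1]
    nlinarith
  · intro j hj
    have a1 := hst j hj.le
    have a2 := hst (j + 1) hj
    have b1 : |t' j - t j| ≤ 2 * κ := by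
      by_cases h : j = 0
      · subst h
        simp only [ht', if_true]
        rw [zero_sub, abs_neg]
        exact h0
      · simp only [ht', if_neg h, if_pos hj, sub_self, abs_zero]
        positivity
    have b2 : |t' (j + 1) - t j| ≤ 2 * κ := by
      by_cases h : j + 1 < m
      · simp only [ht', if_neg (Nat.succ_ne_zero j), if_pos h]
        exact hstep j h
      · have h2 : j = m - 1 := by omega
        simp only [ht', if_neg (Nat.succ_ne_zero j), if_neg h]
        rw [h2]
        exact h1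
    constructor
    · have := abs_sub_le (s j) (t' j) (t j)
      linarith
    · have := abs_sub_le (s (j + 1)) (t' (j + 1)) (t j)
      linarith

/-- the inverse of the parametrisation of an edge -/
def ei : Ed n → ℂ → ℝ
  | Sum.inl k, z => z.re - (k : ℕ)
  | Sum.inr _, z => 1 - z.im

theorem ei_ep (e : Ed n) (s : ℝ) : ei e (ep e s) = s := by
  rcases e with k | k
  · simp only [ei]
    rw [ep_inl_re]
    ring
  · simp only [ei]
    rw [ep_inr_im]
    ring

theorem continuous_ei (e : Ed n) : Continuous (ei e) := by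
  rcases e with k | k
  · exact Complex.continuous_re.sub continuous_const
  · exact continuous_const.sub Complex.continuous_im

/-- the Markov property -/
def Markov (n : ℕ) (g : ℂ → ℂ) : Prop := ∀ (e : Ed n) (t : ℝ), 0 ≤ t → t ≤ 1 →
  ∃ (e' : Ed n) (u v s₀ : ℝ), 0 ≤ u ∧ u ≤ 1 ∧ 0 ≤ v ∧ v ≤ 1 ∧ u ≠ v ∧ |v - u| ≤ 1 / 4 ∧
    0 ≤ s₀ ∧ s₀ ≤ 1 ∧ t = u + s₀ * (v - u) ∧
    ∀ s, 0 ≤ s → s ≤ 1 → g (ep e (u + s * (v - u))) = ep e' s

theorem ep_ends {e e' : Ed n} (h : (ep e 0 = ep e' 0 ∧ ep e 1 = ep e' 1) ∨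
    (ep e 0 = ep e' 1 ∧ ep e 1 = ep e' 0)) : e = e' := by
  have a1 := ep_aff e 0 1 (1 / 2)
  have a2 := ep_aff e' 0 1 (1 / 2)
  have h1 : ep e (0 + 1 / 2 * (1 - 0)) = ep e' (0 + 1 / 2 * (1 - 0)) := by
    rw [← a1, ← a2]
    rcases h with ⟨h1, h2⟩ | ⟨h1, h2⟩
    · rw [h1, h2]
    · rw [h1, h2, add_comm]
      norm_num
  exact (ep_unique (by norm_num) (by norm_num) (by norm_num) (by norm_num) h1).1

theorem exists_phi1 {f : Sph → Sph} (hn : 1 ≤ n) (hf : Brc f (P0 n)) {δ : ℝ} (hδ : 0 < δ)
    (hE : Expand f δ) {r : ℝ} (hr : 0 < r) (hr1 : r ≤ 1 / 24) : ∃ N : ℕ, ∀ N' ≥ N,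
      ∃ φ g : ℂ → ℂ, ContinuousOn φ (comb n) ∧ InjOn φ (comb n) ∧
        (∀ z ∈ comb n, ‖φ z - z‖ < 4 * r) ∧ (∀ z ∈ tips n, φ z = z) ∧
        (∀ z ∈ comb n, g z ∈ comb n ∧ f^[N'] (φ z : Sph) = (g z : Sph)) ∧ Markov n g := by
  classical
  obtain ⟨N, hN⟩ := exists_tree1 hn hf hδ hE hr hr1
  refine ⟨N, fun N' hN' => ?_⟩
  obtain ⟨H, m, w, x, tl, hm, hwk, hnd, hdj, htip, hHn⟩ := hN N' hN'
  have hF := hf.iter N'
  set F := f^[N'] with hFdef
  -- labels
  have hclose : ∀ e, ∀ j < m e, ∀ j' < m e, ∀ (y : Sph) (s s' : I), x e j s = y → x e j' s' = y →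
      |tl e j - tl e j'| ≤ 2 * r := by
    intro e j hj j' hj' y s s' h1 h2
    obtain ⟨u, hu1, hu2⟩ := (hwk e).q j hj s
    obtain ⟨v, hv1, hv2⟩ := (hwk e).q j' hj' s'
    rw [h1] at hu1
    rw [h2] at hv1
    have huv : u = v := OnePoint.coe_injective (by rw [← hu1, hv1])
    rw [← ep_dist e]
    have h3 : ep e (tl e j) - ep e (tl e j') = (v - ep e (tl e j')) - (u - ep e (tl e j)) := by
      rw [huv]; ring
    rw [h3]
    refine (norm_sub_le _ _).trans ?_
    linarith
  have hend : ∀ e, ∀ j < m e, ∀ (s : I) (c : ℝ), ep e c ∈ V0 n → x e j s = H (ep e c) →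
      |tl e j - c| ≤ 2 * r := by
    intro e j hj s c hc h
    obtain ⟨u, hu1, hu2⟩ := (hwk e).q j hj s
    obtain ⟨v, hv1, hv2⟩ := hHn _ hc
    rw [h, hv1] at hu1
    have huv : v = u := OnePoint.coe_injective hu1
    rw [← ep_dist e]
    have h3 : ep e (tl e j) - ep e c = (v - ep e c) - (u - ep e (tl e j)) := by
      rw [huv]; ring
    rw [h3]
    refine (norm_sub_le _ _).trans ?_
    linarith
  have hbr : ∀ e, ∃ s : ℕ → ℝ, s 0 = 0 ∧ s (m e) = 1 ∧ (∀ j < m e, s j < s (j + 1)) ∧
      (∀ j < m e, |s j - tl e j| ≤ 3 * r ∧ |s (j + 1) - tl e j| ≤ 3 * r) := by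
    intro e
    refine exists_break (hm e) (hwk e).lab (hwk e).mono hr (by linarith) ?_ ?_ ?_
    · have := hend e 0 (hm e) 0 0 (ep_zero_mem e) (by rw [(hwk e).src 0 (hm e), (hwk e).first])
      simpa using this
    · have h2 := (hwk e).tgt (m e - 1) (by have := hm e; omega)
      rw [show m e - 1 + 1 = m e by have := hm e; omega, (hwk e).last] at h2
      have := hend e (m e - 1) (by have := hm e; omega) 1 1 (ep_one_mem e) h2
      rwa [abs_sub_comm]
    · intro j hj
      have h1 := (hwk e).tgt j (by omega)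
      have h2 := (hwk e).src (j + 1) hj
      exact hclose e (j + 1) hj j (by omega) _ 0 1 h2 h1
  choose s hs0 hsm hslt hst using hbr
  have hsle : ∀ e, ∀ i j, i ≤ j → j ≤ m e → s e i ≤ s e j := by
    intro e i j hij
    induction j with
    | zero =>
      intro _
      have : i = 0 := by omega
      rw [this]
    | succ j ih =>
      intro hj
      rcases Nat.eq_or_lt_of_le hij with h | h
      · rw [h]
      · exact (ih (by omega) (by omega)).trans (hslt e j (by omega)).le
  have hslt' : ∀ e, ∀ i j, i < j → j ≤ m e → s e i < s e j := by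
    intro e i j hij hj
    exact (hslt e i (by omega)).trans_le (hsle e (i + 1) j hij hj)
  -- pieces
  set Pc : Ed n → ℕ → ℝ → Prop := fun e j t => j < m e ∧ s e j ≤ t ∧ t ≤ s e (j + 1) with hPc
  have hPc01 : ∀ e j t, Pc e j t → 0 ≤ t ∧ t ≤ 1 := by
    rintro e j t ⟨h1, h2, h3⟩
    have a1 := hsle e 0 j (Nat.zero_le _) h1.le
    have a2 := hsle e (j + 1) (m e) h1 le_rfl
    rw [hs0] at a1
    rw [hsm] at a2
    constructor <;> linarith
  have hex : ∀ e t, 0 ≤ t → t ≤ 1 → ∃ j, Pc e j t := by
    intro e t h0 h1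
    have hP : ∃ j, t ≤ s e (j + 1) := by
      refine ⟨m e - 1, ?_⟩
      rw [show m e - 1 + 1 = m e by have := hm e; omega, hsm]
      exact h1
    refine ⟨Nat.find hP, ?_, ?_, Nat.find_spec hP⟩
    · have h3 : Nat.find hP ≤ m e - 1 := Nat.find_min' hP (by
        rw [show m e - 1 + 1 = m e by have := hm e; omega, hsm]
        exact h1)
      have := hm e
      omega
    · by_cases h2 : Nat.find hP = 0
      · rw [h2, hs0]; exact h0
      · have h3 := Nat.find_min hP (m := Nat.find hP - 1) (by omega)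
        rw [show Nat.find hP - 1 + 1 = Nat.find hP by omega] at h3
        exact (not_le.1 h3).le
  set par : Ed n → ℕ → ℝ → I := fun e j t => projIcc 0 1 zero_le_one
    ((t - s e j) / (s e (j + 1) - s e j)) with hpar
  have hpar_val : ∀ e j t, Pc e j t → (par e j t : ℝ) = (t - s e j) / (s e (j + 1) - s e j) := by
    rintro e j t ⟨h1, h2, h3⟩
    have h4 := hslt e j h1
    have h5 : (t - s e j) / (s e (j + 1) - s e j) ∈ Icc (0 : ℝ) 1 :=
      ⟨div_nonneg (by linarith) (by linarith), (div_le_one (by linarith)).2 (by linarith)⟩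
    simp only [hpar]
    rw [projIcc_of_mem _ h5]
  have hpar0 : ∀ e j, j < m e → par e j (s e j) = 0 := by
    intro e j hj
    refine Subtype.ext ?_
    rw [hpar_val e j _ ⟨hj, le_rfl, (hslt e j hj).le⟩]
    simp
  have hpar1 : ∀ e j, j < m e → par e j (s e (j + 1)) = 1 := by
    intro e j hj
    refine Subtype.ext ?_
    rw [hpar_val e j _ ⟨hj, (hslt e j hj).le, le_rfl⟩]
    have := hslt e j hj
    rw [div_self (by linarith)]
    rfl
  set val : Ed n → ℕ → ℝ → Sph := fun e j t => x e j (par e j t) with hval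
  have hval_cont : ∀ e j, Continuous (val e j) := by
    intro e j
    simp only [hval, hpar]
    exact (x e j).continuous.comp (continuous_projIcc.comp (by fun_prop))
  have hval0 : ∀ e j, j < m e → val e j (s e j) = w e j := by
    intro e j hj
    simp only [hval]
    rw [hpar0 e j hj, (hwk e).src j hj]
  have hval1 : ∀ e j, j < m e → val e j (s e (j + 1)) = w e (j + 1) := by
    intro e j hj
    simp only [hval]
    rw [hpar1 e j hj, (hwk e).tgt j hj]
  have hvert : ∀ e j t, Pc e j t → ep e t ∈ V0 n → val e j t = H (ep e t) := by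
    intro e j t hp hv
    obtain ⟨h0, h1⟩ := hPc01 e j t hp
    rcases ep_V0 h0 h1 hv with h | h
    · subst h
      have hj : j = 0 := by
        by_contra hcon
        have h2 := hslt' e 0 j (by omega) hp.1.le
        rw [hs0] at h2
        linarith [hp.2.1]
      subst hj
      have h3 := hval0 e 0 hp.1
      rw [hs0, (hwk e).first] at h3
      exact h3
    · subst h
      have hj : j + 1 = m e := by
        by_contra hcon
        have hj1 := hp.1
        have h2 := hslt' e (j + 1) (m e) (by omega) le_rfl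
        rw [hsm] at h2
        linarith [hp.2.2]
      have h3 := hval1 e j hp.1
      rw [hj, hsm, (hwk e).last] at h3
      exact h3
  have hsame : ∀ e j j' t, j < j' → Pc e j t → Pc e j' t → val e j t = val e j' t := by
    intro e j j' t hjj hp hp'
    have h1 := hsle e (j + 1) j' hjj hp'.1.le
    have h2 : t = s e (j + 1) := le_antisymm hp.2.2 (h1.trans hp'.2.1)
    have h3 : j + 1 = j' := by
      by_contra hcon
      have h4 := hslt' e (j + 1) j' (by omega) hp'.1.le
      linarith [hp.2.2, hp'.2.1]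
    subst h3
    rw [h2, hval1 e j hp.1, hval0 e (j + 1) hp'.1]
  have hcons : ∀ e j t e' j' t', Pc e j t → Pc e' j' t' → ep e t = ep e' t' →
      val e j t = val e' j' t' := by
    intro e j t e' j' t' hp hp' heq
    by_cases hv : ep e t ∈ V0 n
    · rw [hvert e j t hp hv, hvert e' j' t' hp' (by rwa [← heq]), heq]
    · obtain ⟨h0, h1⟩ := hPc01 e j t hp
      obtain ⟨h0', h1'⟩ := hPc01 e' j' t' hp'
      have c0 : t ≠ 0 := fun h => hv (by rw [h]; exact ep_zero_mem e)
      have c1 : t ≠ 1 := fun h => hv (by rw [h]; exact ep_one_mem e)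
      obtain ⟨h2, h3⟩ := ep_unique (lt_of_le_of_ne h0 (Ne.symm c0)) (lt_of_le_of_ne h1 c1) h0' h1' heq
      subst h2
      subst h3
      rcases lt_trichotomy j j' with h | h | h
      · exact hsame e j j' t h hp hp'
      · rw [h]
      · exact (hsame e j' j t h hp' hp).symm
  -- the map to the sphere
  obtain ⟨φS, hφS⟩ : ∃ φS : ℂ → Sph, ∀ e j t, Pc e j t → φS (ep e t) = val e j t := by
    refine ⟨fun z => if h : ∃ q : Ed n × ℕ × ℝ, Pc q.1 q.2.1 q.2.2 ∧ ep q.1 q.2.2 = z then
      val h.choose.1 h.choose.2.1 h.choose.2.2 else z, ?_⟩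
    intro e j t hp
    have h : ∃ q : Ed n × ℕ × ℝ, Pc q.1 q.2.1 q.2.2 ∧ ep q.1 q.2.2 = ep e t := ⟨(e, j, t), hp, rfl⟩
    simp only [dif_pos h]
    exact hcons _ _ _ _ _ _ h.choose_spec.1 hp h.choose_spec.2
  have hpc : ∀ z ∈ comb n, ∃ e j t, Pc e j t ∧ ep e t = z := by
    intro z hz
    obtain ⟨e, t, h0, h1, rfl⟩ := exists_ep hn hz
    obtain ⟨j, hj⟩ := hex e t h0 h1
    exact ⟨e, j, t, hj, rfl⟩
  have hφSc : ContinuousOn φS (comb n) := by
    set A : (Σ e : Ed n, Fin (m e)) → Set ℂ := fun q =>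
      ep q.1 '' Icc (s q.1 q.2) (s q.1 (q.2 + 1)) with hA
    have h1 : comb n ⊆ ⋃ q, A q := by
      intro z hz
      obtain ⟨e, j, t, hp, rfl⟩ := hpc z hz
      exact mem_iUnion.2 ⟨⟨e, j, hp.1⟩, t, ⟨hp.2.1, hp.2.2⟩, rfl⟩
    refine ContinuousOn.mono ?_ h1
    refine (locallyFinite_of_finite A).continuousOn_iUnion (fun q => ?_) (fun q => ?_)
    · exact (isCompact_Icc.image (continuous_ep q.1)).isClosed
    · have h2 : ContinuousOn (fun z => val q.1 q.2 (ei q.1 z)) (A q) :=
        ((hval_cont q.1 q.2).comp (continuous_ei q.1)).continuousOn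
      refine h2.congr ?_
      rintro _ ⟨t, ht, rfl⟩
      simp only []
      rw [ei_ep]
      exact hφS _ _ _ ⟨q.2.2, ht.1, ht.2⟩
  -- closeness
  have hnear : ∀ e j t, Pc e j t → ∃ u : ℂ, val e j t = (u : Sph) ∧ ‖u - ep e t‖ < 4 * r := by
    intro e j t hp
    obtain ⟨u, hu1, hu2⟩ := (hwk e).q j hp.1 (par e j t)
    refine ⟨u, hu1, ?_⟩
    obtain ⟨a1, a2⟩ := hst e j hp.1
    have a3 : |tl e j - t| ≤ 3 * r := by
      rw [abs_le] at a1 a2 ⊢
      constructor <;> linarith [a1.1, a1.2, a2.1, a2.2, hp.2.1, hp.2.2]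
    have a4 := norm_sub_le_norm_sub_add_norm_sub u (ep e (tl e j)) (ep e t)
    rw [ep_dist] at a4
    linarith
  have hlen : ∀ e j, j < m e → s e (j + 1) - s e j ≤ 6 * r := by
    intro e j hj
    obtain ⟨a1, a2⟩ := hst e j hj
    rw [abs_le] at a1 a2
    linarith [a1.1, a2.2]
  have hφ : ∀ z : ℂ, ∃ u : ℂ, z ∈ comb n → φS z = (u : Sph) ∧ ‖u - z‖ < 4 * r := by
    intro z
    by_cases hz : z ∈ comb n
    · obtain ⟨e, j, t, hp, rfl⟩ := hpc z hz
      obtain ⟨u, hu1, hu2⟩ := hnear e j t hp
      exact ⟨u, fun _ => ⟨by rw [hφS e j t hp, hu1], hu2⟩⟩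
    · exact ⟨0, fun h => absurd h hz⟩
  choose φ hφ using hφ
  have hgex : ∀ z : ℂ, ∃ u : ℂ, z ∈ comb n → u ∈ comb n ∧ F (φS z) = (u : Sph) := by
    intro z
    by_cases hz : z ∈ comb n
    · obtain ⟨e, j, t, hp, rfl⟩ := hpc z hz
      obtain ⟨u, hu1, hu2⟩ := ((hwk e).isE j hp.1).mem_comb (par e j t)
      exact ⟨u, fun _ => ⟨hu1, by rw [hφS e j t hp]; exact hu2⟩⟩
    · exact ⟨0, fun h => absurd h hz⟩
  choose g hg using hgex
  refine ⟨φ, g, ?_, ?_, ?_, ?_, ?_, ?_⟩
  · rw [isOpenEmbedding_coe.isInducing.continuousOn_iff]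
    refine hφSc.congr fun z hz => ?_
    exact ((hφ z hz).1).symm
  · intro z hz z' hz' heq
    have h1 : φS z = φS z' := by rw [(hφ z hz).1, (hφ z' hz').1, heq]
    obtain ⟨e, j, t, hp, rfl⟩ := hpc z hz
    obtain ⟨e', j', t', hp', rfl⟩ := hpc z' hz'
    rw [hφS e j t hp, hφS e' j' t' hp'] at h1
    -- vertices of the pieces
    have hj1 := hp.1
    have hj1' := hp'.1
    have key : ∀ i i', (i = j ∨ i = j + 1) → (i' = j' ∨ i' = j' + 1) → w e i = w e' i' →
        ep e (s e i) = ep e' (s e' i') := by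
      intro i i' hi hi' hw
      have b1 : i ≤ m e := by omega
      have b2 : i' ≤ m e' := by omega
      by_cases hee : e = e'
      · subst hee
        have := hnd e i b1 i' b2 hw
        rw [this]
      · obtain ⟨c1, c2, c3⟩ := hdj e e' hee i b1 i' b2 hw
        have c4 : s e i = if i = 0 then 0 else 1 := by
          rcases c1 with c | c
          · rw [c, hs0, if_pos rfl]
          · rw [if_neg (by have := hm e; omega), c, hsm]
        have c5 : s e' i' = if i' = 0 then 0 else 1 := by
          rcases c2 with c | c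
          · rw [c, hs0, if_pos rfl]
          · rw [if_neg (by have := hm e'; omega), c, hsm]
        rw [c4, c5, c3]
    by_cases hv : val e j t ∈ V1 n F
    · have b1 : t = s e j ∨ t = s e (j + 1) := by
        have h2 := hpar_val e j t hp
        have h3 := hslt e j hp.1
        rcases ((hwk e).isE j hp.1).vertex (s := par e j t) hv with h | h
        · left
          rw [h] at h2
          have h4 : (0 : ℝ) = (t - s e j) / (s e (j + 1) - s e j) := h2
          rw [eq_div_iff (by linarith)] at h4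
          linarith
        · right
          rw [h] at h2
          have h4 : (1 : ℝ) = (t - s e j) / (s e (j + 1) - s e j) := h2
          rw [eq_div_iff (by linarith)] at h4
          linarith
      have b2 : t' = s e' j' ∨ t' = s e' (j' + 1) := by
        have h2 := hpar_val e' j' t' hp'
        have h3 := hslt e' j' hp'.1
        rw [h1] at hv
        rcases ((hwk e').isE j' hp'.1).vertex (s := par e' j' t') hv with h | h
        · left
          rw [h] at h2
          have h4 : (0 : ℝ) = (t' - s e' j') / (s e' (j' + 1) - s e' j') := h2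
          rw [eq_div_iff (by linarith)] at h4
          linarith
        · right
          rw [h] at h2
          have h4 : (1 : ℝ) = (t' - s e' j') / (s e' (j' + 1) - s e' j') := h2
          rw [eq_div_iff (by linarith)] at h4
          linarith
      rcases b1 with b1 | b1 <;> rcases b2 with b2 | b2 <;> subst b1 <;> subst b2
      · rw [hval0 e j hp.1, hval0 e' j' hp'.1] at h1
        exact key _ _ (Or.inl rfl) (Or.inl rfl) h1
      · rw [hval0 e j hp.1, hval1 e' j' hp'.1] at h1
        exact key _ _ (Or.inl rfl) (Or.inr rfl) h1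
      · rw [hval1 e j hp.1, hval0 e' j' hp'.1] at h1
        exact key _ _ (Or.inr rfl) (Or.inl rfl) h1
      · rw [hval1 e j hp.1, hval1 e' j' hp'.1] at h1
        exact key _ _ (Or.inr rfl) (Or.inr rfl) h1
    · have hsrc := (hwk e).src j hp.1
      have htgt := (hwk e).tgt j hp.1
      have hsrc' := (hwk e').src j' hp'.1
      have htgt' := (hwk e').tgt j' hp'.1
      rcases IsE.eq_of_mem hF ((hwk e).isE j hp.1) ((hwk e').isE j' hp'.1) h1 hv with h | h
      · have c1 : w e j = w e' j' := by rw [← hsrc, ← hsrc', h.1]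
        have c2 : w e (j + 1) = w e' (j' + 1) := by rw [← htgt, ← htgt', h.1]
        by_cases hee : e = e'
        · subst hee
          have hjj := hnd e j hj1.le j' hj1'.le c1
          subst hjj
          have h2 := hpar_val e j t hp
          have h2' := hpar_val e j t' hp'
          rw [h.2] at h2
          rw [h2] at h2'
          have h3 := hslt e j hp.1
          rw [div_left_inj' (by linarith)] at h2'
          have h4 : t = t' := by linarith
          rw [h4]
        · exfalso
          obtain ⟨d1, d2, d3⟩ := hdj e e' hee j hj1.le j' hj1'.le c1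
          obtain ⟨d4, d5, d6⟩ := hdj e e' hee (j + 1) hj1 (j' + 1) hj1' c2
          rw [if_pos (by omega), if_pos (by omega)] at d3
          rw [if_neg (by omega), if_neg (by omega)] at d6
          exact hee (ep_ends (Or.inl ⟨d3, d6⟩))
      · have c1 : w e j = w e' (j' + 1) := by rw [← hsrc, ← htgt', h.1, rv_one]
        have c2 : w e (j + 1) = w e' j' := by rw [← htgt, ← hsrc', h.1, rv_zero]
        exfalso
        by_cases hee : e = e'
        · subst hee
          have h2 := hnd e j hj1.le (j' + 1) hj1' c1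
          have h3 := hnd e (j + 1) hj1 j' hj1'.le c2
          omega
        · obtain ⟨d1, d2, d3⟩ := hdj e e' hee j hj1.le (j' + 1) hj1' c1
          obtain ⟨d4, d5, d6⟩ := hdj e e' hee (j + 1) hj1 j' hj1'.le c2
          rw [if_pos (by omega), if_neg (by omega)] at d3
          rw [if_neg (by omega), if_pos (by omega)] at d6
          exact hee (ep_ends (Or.inr ⟨d3, d6⟩))
  · intro z hz
    exact (hφ z hz).2
  · intro z hz
    have hzc := tips_sub_comb n hz
    have hzV := tips_sub_V0 n hz
    obtain ⟨e, j, t, hp, hez⟩ := hpc z hzc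
    refine OnePoint.coe_injective ?_
    rw [← (hφ z hzc).1, ← htip z hz, ← hez, hφS e j t hp]
    exact hvert e j t hp (by rwa [hez])
  · intro z hz
    obtain ⟨h1, h2⟩ := hg z hz
    exact ⟨h1, by rw [← (hφ z hz).1]; exact h2⟩
  · intro e t h0 h1
    obtain ⟨j, hp⟩ := hex e t h0 h1
    have hj := hp.1
    have hlt := hslt e j hj
    have hl := hlen e j hj
    have hcomb : ∀ t', Pc e j t' → ep e t' ∈ comb n := fun t' hp' =>
      ep_mem e (hPc01 e j t' hp').1 (hPc01 e j t' hp').2
    have hs01 := hPc01 e j (s e j) ⟨hj, le_rfl, hlt.le⟩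
    have hs01' := hPc01 e j (s e (j + 1)) ⟨hj, hlt.le, le_rfl⟩
    have hd : s e (j + 1) - s e j ≠ 0 := by linarith
    obtain ⟨e', he' | he'⟩ := (hwk e).isE j hj
    · refine ⟨e', s e j, s e (j + 1), (t - s e j) / (s e (j + 1) - s e j), hs01.1, hs01.2, hs01'.1,
        hs01'.2, hlt.ne, ?_, div_nonneg (by linarith [hp.2.1]) (by linarith),
        (div_le_one (by linarith)).2 (by linarith [hp.2.2]), by field_simp; ring, ?_⟩
      · rw [abs_of_pos (by linarith)]; linarith
      · intro u hu0 hu1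
        have hp' : Pc e j (s e j + u * (s e (j + 1) - s e j)) := ⟨hj, by nlinarith, by nlinarith⟩
        have h3 := (hg _ (hcomb _ hp')).2
        rw [hφS e j _ hp'] at h3
        have h4 := hpar_val e j _ hp'
        have h5 : (s e j + u * (s e (j + 1) - s e j) - s e j) / (s e (j + 1) - s e j) = u := by
          rw [add_sub_cancel_left, mul_div_cancel_right₀ _ hd]
        rw [h5] at h4
        simp only [hval] at h3
        rw [he', h4] at h3
        exact (OnePoint.coe_injective h3).symm
    · refine ⟨e', s e (j + 1), s e j, (s e (j + 1) - t) / (s e (j + 1) - s e j), hs01'.1, hs01'.2,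
        hs01.1, hs01.2, hlt.ne', ?_, div_nonneg (by linarith [hp.2.2]) (by linarith),
        (div_le_one (by linarith)).2 (by linarith [hp.2.1]), by field_simp; ring, ?_⟩
      · rw [abs_of_neg (by linarith)]; linarith
      · intro u hu0 hu1
        have hp' : Pc e j (s e (j + 1) + u * (s e j - s e (j + 1))) := ⟨hj, by nlinarith, by nlinarith⟩
        have h3 := (hg _ (hcomb _ hp')).2
        rw [hφS e j _ hp'] at h3
        have h4 := hpar_val e j _ hp'
        have h5 : (s e (j + 1) + u * (s e j - s e (j + 1)) - s e j) / (s e (j + 1) - s e j) =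
            1 - u := by
          rw [div_eq_iff hd]
          ring
        rw [h5] at h4
        simp only [hval] at h3
        have h6 := he' (σ (par e j (s e (j + 1) + u * (s e j - s e (j + 1)))))
        rw [rv_apply, symm_symm', h3, coe_symm_eq, h4, sub_sub_cancel] at h6
        exact OnePoint.coe_injective h6

end Pool.Agent.H208.Tree
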