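import Pool.Agent.H208.Tree.Comb

set_option autoImplicit false

/-!
# Pushing points of the sphere to the preimage of the comb
-/

noncomputable section

namespace Pool.Agent.H208.Tree

open Set Filter Topology OnePoint Pool.Agent.H208.Thu unitInterval

variable {f : Sph → Sph} {P : Set Sph}

theorem exists_track (hf : Brc f P) {B : Set ℂ} {R : ℂ → I → ℂ}
    (hR : ContinuousOn (fun p : ℂ × I => R p.1 p.2) (B ×ˢ univ)) (h0 : ∀ z ∈ B, R z 0 = z)
    (hstop : ∀ z ∈ B, Stops P fun s => ((R z s : ℂ) : Sph)) :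
    ∃ G : Sph → I → Sph, (∀ (x : Sph) (z : ℂ), z ∈ B → f x = (z : Sph) → Continuous (G x) ∧
      G x 0 = x ∧ ∀ s : I, f (G x s) = ((R z s : ℂ) : Sph)) ∧
      ContinuousOn (fun x => G x 1) (f ⁻¹' ((↑) '' B)) := by
  have hinj : Function.Injective ((↑) : ℂ → Sph) := OnePoint.coe_injective
  set A : Set Sph := f ⁻¹' ((↑) '' B) with hA
  have hz : ∀ x : A, ∃ z ∈ B, (z : Sph) = f x := fun x => x.2
  choose z hzB hze using hz
  have hzc : Continuous z := by
    have h1 : Continuous fun x : A => (z x : Sph) := by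
      simp only [hze]
      exact hf.cont.comp continuous_subtype_val
    exact isOpenEmbedding_coe.isInducing.continuous_iff.2 h1
  have hHc : Continuous fun p : A × I => ((R (z p.1) p.2 : ℂ) : Sph) := by
    refine OnePoint.continuous_coe.comp ?_
    refine hR.comp_continuous (f := fun p : A × I => (z p.1, p.2)) (by fun_prop) fun p => ?_
    exact ⟨hzB p.1, mem_univ _⟩
  obtain ⟨G, h1, h2, h3⟩ := lift_homotopy hf hHc (fun x => hstop _ (hzB x))
    (h₀ := fun x : A => (x : Sph)) continuous_subtype_val (fun x => by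
      simp only []
      rw [h0 _ (hzB x)]
      exact (hze x).symm)
  classical
  refine ⟨fun x s => if h : x ∈ A then G (⟨x, h⟩, s) else x, ?_, ?_⟩
  · intro x w hw hfx
    have hx : x ∈ A := ⟨w, hw, hfx.symm⟩
    simp only [dif_pos hx]
    refine ⟨h1.comp (Continuous.prodMk_right _), h3 _, fun s => ?_⟩
    rw [h2]
    simp only []
    have : z ⟨x, hx⟩ = w := hinj (by rw [hze, ← hfx])
    rw [this]
  · rw [continuousOn_iff_continuous_domRestrict]
    have h4 : Continuous fun x : A => G (x, 1) := h1.comp (Continuous.prodMk_left 1)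
    refine h4.congr fun x => ?_
    show G (x, 1) = if h : (x : Sph) ∈ A then G (⟨x, h⟩, 1) else x
    rw [dif_pos x.2]

theorem lift_small {δ ε : ℝ} (hε : 0 ≤ ε) {F : Sph → Sph} (hF : ∀ A : Set Sph, IsPreconnected A →
    (∃ p, ∀ x ∈ A, dist (F x) p < δ) → ∀ x ∈ A, ∀ y ∈ A, dist x y < ε) {Γ : I → Sph}
    (hΓ : Continuous Γ) {M : ℕ} (hM : 0 < M)
    (h : ∀ s s' : I, |(s : ℝ) - s'| ≤ 1 / M → dist (F (Γ s)) (F (Γ s')) < δ) (s s' : I) :
    dist (Γ s) (Γ s') ≤ 2 * M * ε := by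
  have hM' : (0 : ℝ) < M := by exact_mod_cast hM
  have key : ∀ j : ℕ, ∀ s : I, (s : ℝ) ≤ j / M → dist (Γ 0) (Γ s) ≤ j * ε := by
    intro j
    induction j with
    | zero =>
      intro s hs
      have : s = 0 := Subtype.ext (by
        have h1 := s.2.1
        simp only [Nat.cast_zero, zero_div] at hs
        exact le_antisymm hs h1)
      rw [this, dist_self]
      positivity
    | succ j ih =>
      intro s hs
      by_cases hsj : (s : ℝ) ≤ j / M
      · refine (ih s hsj).trans ?_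
        push_cast
        nlinarith
      · rw [not_le] at hsj
        have hj0 : (0 : ℝ) ≤ j / M := by positivity
        set u : I := ⟨j / M, hj0, hsj.le.trans s.2.2⟩ with hu
        have hus : u ≤ s := hsj.le
        have h1 := ih u le_rfl
        have h2 := hF (Γ '' Icc u s) (isPreconnected_Icc.image _ hΓ.continuousOn) ⟨F (Γ u), by
          rintro _ ⟨v, hv, rfl⟩
          apply h
          have hv1 : (u : ℝ) ≤ v := hv.1
          have hv2 : (v : ℝ) ≤ s := hv.2
          have hu' : (u : ℝ) = j / M := rfl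
          rw [abs_of_nonneg (by linarith)]
          push_cast at hs
          rw [add_div] at hs
          linarith⟩ (Γ u) ⟨u, left_mem_Icc.2 hus, rfl⟩ (Γ s) ⟨s, right_mem_Icc.2 hus, rfl⟩
        have h3 := dist_triangle (Γ 0) (Γ u) (Γ s)
        push_cast
        nlinarith
  have h1 := key M s (by rw [div_self hM'.ne']; exact s.2.2)
  have h2 := key M s' (by rw [div_self hM'.ne']; exact s'.2.2)
  have h3 := dist_triangle_left (Γ s) (Γ s') (Γ 0)
  nlinarith

/-- radial projection to the disc of radius `R` -/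
def rho (R : ℝ) (z : ℂ) : ℂ := ((max 1 (‖z‖ / R))⁻¹ : ℝ) • z

theorem continuous_rho (R : ℝ) : Continuous (rho R) := by
  unfold rho
  have : ∀ z : ℂ, max 1 (‖z‖ / R) ≠ 0 := fun z => by
    have := le_max_left 1 (‖z‖ / R)
    intro h
    linarith
  fun_prop (disch := assumption)

theorem rho_of_le {R : ℝ} (hR : 0 < R) {z : ℂ} (h : ‖z‖ ≤ R) : rho R z = z := by
  rw [rho, max_eq_left ((div_le_one hR).2 h), inv_one, one_smul]

theorem rho_of_ge {R : ℝ} (hR : 0 < R) {z : ℂ} (h : R ≤ ‖z‖) : rho R z = ((R / ‖z‖ : ℝ)) • z := by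
  rw [rho, max_eq_right ((one_le_div hR).2 h), inv_div]

theorem norm_rho_le {R : ℝ} (hR : 0 < R) (z : ℂ) : ‖rho R z‖ ≤ R := by
  rcases le_total ‖z‖ R with h | h
  · rw [rho_of_le hR h]; exact h
  · have hz : 0 < ‖z‖ := hR.trans_le h
    rw [rho_of_ge hR h, norm_smul, Real.norm_of_nonneg (by positivity), div_mul_cancel₀ _ hz.ne']

theorem norm_rho_track {R : ℝ} (hR : 0 < R) {z : ℂ} (h : R ≤ ‖z‖) (s : I) :
    R ≤ ‖(1 - (s : ℝ)) • z + (s : ℝ) • rho R z‖ := by
  have hz : 0 < ‖z‖ := hR.trans_le h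
  rw [rho_of_ge hR h, smul_smul, ← add_smul, norm_smul, Real.norm_of_nonneg (by
    have := s.2.1
    have := s.2.2
    have : 0 ≤ R / ‖z‖ := by positivity
    have : (0 : ℝ) ≤ 1 - s := by linarith
    positivity), add_mul, mul_assoc, div_mul_cancel₀ _ hz.ne']
  have := s.2.1
  have := s.2.2
  nlinarith

theorem exists_far {δ : ℝ} (hδ : 0 < δ) : ∃ R : ℝ, ∀ z : ℂ, R ≤ ‖z‖ → dist (z : Sph) ∞ < δ := by
  have h1 : Tendsto ((↑) : ℂ → Sph) (cocompact ℂ) (𝓝 ∞) := by
    rw [← coclosedCompact_eq_cocompact]; exact OnePoint.tendsto_coe_infty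
  have h2 : ∀ᶠ z : ℂ in cocompact ℂ, dist (z : Sph) ∞ < δ := h1 (Metric.ball_mem_nhds _ hδ)
  rw [← Metric.cobounded_eq_cocompact, ← comap_norm_atTop, eventually_comap] at h2
  obtain ⟨R, hR⟩ := eventually_atTop.1 h2
  exact ⟨R, fun z hz => hR ‖z‖ hz z rfl⟩

theorem norm_comb {n : ℕ} {z : ℂ} (hz : z ∈ comb n) : ‖z‖ ≤ n + 1 := by
  have h1 := Complex.norm_le_abs_re_add_abs_im z
  rcases hz with ⟨h0, h2, h3⟩ | ⟨k, hk, h2, h3, h4⟩
  · rw [h3, abs_zero, abs_of_nonneg h0] at h1
    linarith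
  · have hk' : (k : ℝ) ≤ n := by exact_mod_cast hk
    rw [h2, abs_of_nonneg (Nat.cast_nonneg k), abs_of_nonneg h3] at h1
    linarith

/-- the push map -/
theorem push {n : ℕ} (hn : 1 ≤ n) (hf : Brc f (P0 n)) {δ : ℝ} (hδ : 0 < δ) (hE : Expand f δ)
    {ε : ℝ} (hε : 0 < ε) : ∃ N : ℕ, ∀ N' ≥ N, ∃ E : Sph → Sph,
      ContinuousOn E (f^[N'] ⁻¹' {∞}ᶜ) ∧
      (∀ (x : Sph) (z : ℂ), f^[N'] x = (z : Sph) → z ∈ comb n → E x = x) ∧
      (∀ x, f^[N'] x ≠ ∞ → ∃ z ∈ comb n, f^[N'] (E x) = (z : Sph)) ∧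
      ∀ x, f^[N'] x ≠ ∞ → dist x (E x) < ε := by
  obtain ⟨R₀, hR₀⟩ := exists_far hδ
  set R := max R₀ (n + 2) with hRdef
  have hRn : (n : ℝ) + 2 ≤ R := le_max_right _ _
  have hR : 0 < R := by
    have : (0 : ℝ) ≤ n := Nat.cast_nonneg n
    linarith
  have hfar : ∀ z : ℂ, R ≤ ‖z‖ → dist (z : Sph) ∞ < δ := fun z hz =>
    hR₀ z ((le_max_left _ _).trans hz)
  -- the modulus of the second homotopy
  obtain ⟨M, hM0, hM⟩ : ∃ M : ℕ, 0 < M ∧ ∀ z : ℂ, ‖z‖ ≤ R → ∀ s s' : I, |(s : ℝ) - s'| ≤ 1 / M →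
      dist (((1 - (s : ℝ)) • z + (s : ℝ) • r1 n z : ℂ) : Sph)
        (((1 - (s' : ℝ)) • z + (s' : ℝ) • r1 n z : ℂ) : Sph) < δ := by
    have hc : Continuous fun p : ℂ × I =>
        (((1 - (p.2 : ℝ)) • p.1 + (p.2 : ℝ) • r1 n p.1 : ℂ) : Sph) := by
      refine OnePoint.continuous_coe.comp ?_
      have := continuous_r1 n
      fun_prop
    have hu := (((isCompact_closedBall (0 : ℂ) R).prod (isCompact_univ (X := I)))).uniformContinuousOn_of_continuous
      hc.continuousOn
    rw [Metric.uniformContinuousOn_iff] at hu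
    obtain ⟨η, hη, hu⟩ := hu δ hδ
    obtain ⟨M, hM⟩ := exists_nat_one_div_lt hη
    refine ⟨M + 1, Nat.succ_pos M, fun z hz s s' hss => ?_⟩
    have hz' : z ∈ Metric.closedBall (0 : ℂ) R := by rwa [mem_closedBall_zero_iff]
    refine hu (z, s) ⟨hz', mem_univ _⟩ (z, s') ⟨hz', mem_univ _⟩ ?_
    rw [Prod.dist_eq, dist_self]
    refine max_lt hη ?_
    rw [Subtype.dist_eq, Real.dist_eq]
    refine hss.trans_lt ?_
    push_cast
    exact hM
  set ε' := ε / (2 * M + 2) with hε'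
  have hε'0 : 0 < ε' := by positivity
  obtain ⟨N, hN⟩ := hE ε' hε'0
  refine ⟨N, fun N' hN' => ?_⟩
  have hF := hf.iter N'
  have hFs := hN N' hN'
  set F := f^[N'] with hFdef
  -- first homotopy
  obtain ⟨G₁, h11, h12⟩ := exists_track hF (B := univ)
    (R := fun z s => (1 - (s : ℝ)) • z + (s : ℝ) • rho R z) (by
      apply Continuous.continuousOn
      have := continuous_rho R
      fun_prop) (fun z _ => by simp) (fun z _ s s' hss hs => by
      have h1 : ‖z‖ < R := by
        by_contra hcon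
        rw [not_lt] at hcon
        have h2 := norm_rho_track hR hcon s
        have h3 := norm_comb (tips_sub_comb n (coe_mem_P0.1 hs))
        linarith
      simp only []
      rw [rho_of_le hR h1.le]
      congr 1
      rw [← add_smul, ← add_smul]
      congr 1
      ring)
  -- second homotopy
  obtain ⟨G₂, h21, h22⟩ := exists_track hF (B := univ)
    (R := fun z s => (1 - (s : ℝ)) • z + (s : ℝ) • r1 n z) (by
      apply Continuous.continuousOn
      have := continuous_r1 n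
      fun_prop) (fun z _ => by simp) (fun z _ s s' hss hs => by
      have h1 := coe_mem_P0.1 hs
      by_cases hs1 : (s : ℝ) < 1
      · have h2 := r1_stop hn s.2.1 hs1 h1
        simp only []
        rw [h2]
        congr 1
        rw [← add_smul, ← add_smul]
        congr 1
        ring
      · have h3 : s = 1 := Subtype.ext (le_antisymm s.2.2 (not_lt.1 hs1))
        have h4 : s' = 1 := le_antisymm le_one' (h3 ▸ hss)
        rw [h3, h4])
  have hcoe : ∀ x : Sph, x ≠ ∞ → ∃ z : ℂ, x = (z : Sph) := fun x hx =>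
    (ne_infty_iff_exists.1 hx).imp fun z hz => hz.symm
  have e1 : ∀ (x : Sph) (z : ℂ), F x = (z : Sph) → F (G₁ x 1) = ((rho R z : ℂ) : Sph) := by
    intro x z hx
    have := (h11 x z (mem_univ _) hx).2.2 1
    simpa using this
  have e2 : ∀ (x : Sph) (z : ℂ), F x = (z : Sph) → F (G₂ x 1) = ((r1 n z : ℂ) : Sph) := by
    intro x z hx
    have := (h21 x z (mem_univ _) hx).2.2 1
    simpa using this
  have hpre : F ⁻¹' ((↑) '' (univ : Set ℂ)) = F ⁻¹' {∞}ᶜ := by
    rw [image_univ, OnePoint.compl_infty]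
  rw [hpre] at h12 h22
  refine ⟨fun x => G₂ (G₁ x 1) 1, ?_, ?_, ?_, ?_⟩
  · refine h22.comp h12 ?_
    intro x hx
    obtain ⟨z, hz⟩ := hcoe _ hx
    show F (G₁ x 1) ≠ ∞
    rw [e1 x z hz]
    exact coe_ne_infty _
  · intro x z hx hz
    have hzR : ‖z‖ ≤ R := by linarith [norm_comb hz]
    obtain ⟨a1, a2, a3⟩ := h11 x z (mem_univ _) hx
    have b1 : G₁ x 1 = x := by
      refine (const_fiber hF a1 (S := univ) isPreconnected_univ (y := (z : Sph)) (fun s _ => ?_)
        (mem_univ 1) (mem_univ 0)).trans a2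
      rw [a3, rho_of_le hR hzR, ← add_smul]
      simp
    obtain ⟨c1, c2, c3⟩ := h21 x z (mem_univ _) hx
    show G₂ (G₁ x 1) 1 = x
    rw [b1]
    refine (const_fiber hF c1 (S := univ) isPreconnected_univ (y := (z : Sph)) (fun s _ => ?_)
        (mem_univ 1) (mem_univ 0)).trans c2
    rw [c3, r1_eq hn hz, ← add_smul]
    simp
  · intro x hx
    obtain ⟨z, hz⟩ := hcoe _ hx
    exact ⟨r1 n (rho R z), r1_mem hn _, e2 _ _ (e1 x z hz)⟩
  · intro x hx
    obtain ⟨z, hz⟩ := hcoe _ hx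
    have d1 : dist x (G₁ x 1) ≤ ε' := by
      obtain ⟨a1, a2, a3⟩ := h11 x z (mem_univ _) hz
      rcases le_total ‖z‖ R with h | h
      · have b1 : G₁ x 1 = x := by
          refine (const_fiber hF a1 (S := univ) isPreconnected_univ (y := (z : Sph)) (fun s _ => ?_)
            (mem_univ 1) (mem_univ 0)).trans a2
          rw [a3, rho_of_le hR h, ← add_smul]
          simp
        rw [b1, dist_self]
        exact hε'0.le
      · refine (hFs (range (G₁ x)) (isPreconnected_range a1) ⟨∞, ?_⟩ x ⟨0, a2⟩ (G₁ x 1)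
          ⟨1, rfl⟩).le
        rintro _ ⟨s, rfl⟩
        rw [a3]
        exact hfar _ (norm_rho_track hR h s)
    have d2 : dist (G₁ x 1) (G₂ (G₁ x 1) 1) ≤ 2 * M * ε' := by
      obtain ⟨c1, c2, c3⟩ := h21 (G₁ x 1) (rho R z) (mem_univ _) (e1 x z hz)
      have h := lift_small hε'0.le hFs c1 hM0 (fun s s' hss => by
        rw [c3, c3]
        exact hM _ (norm_rho_le hR z) s s' hss) 0 1
      rwa [c2] at h
    have h3 := dist_triangle x (G₁ x 1) (G₂ (G₁ x 1) 1)
    have h4 : ε' * (2 * M + 2) = ε := by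
      rw [hε']
      field_simp
    show dist x (G₂ (G₁ x 1) 1) < ε
    nlinarith

end Pool.Agent.H208.Tree
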