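import Pool.Agent.H208.Tree.Log
import Pool.Agent.H208.Thu.Charts

set_option autoImplicit false

/-!
# Separation properties of subsets of the sphere
-/

noncomputable section

namespace Pool.Agent.H208.Tree

open Set Filter Topology OnePoint Pool.Agent.H208.Thu

/-- translations of the sphere -/
def trH (a : ℂ) : Sph ≃ₜ Sph := (Homeomorph.addRight a).onePointCongr

@[simp] theorem trH_coe (a z : ℂ) : trH a (z : Sph) = ((z + a : ℂ) : Sph) := rfl
@[simp] theorem trH_infty (a : ℂ) : trH a ∞ = ∞ := rfl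

theorem exists_mob1 (x : Sph) : ∃ m : Sph ≃ₜ Sph, m x = ∞ := by
  induction x using OnePoint.rec with
  | infty => exact ⟨Homeomorph.refl _, rfl⟩
  | coe z =>
    refine ⟨(trH (-z)).trans invH, ?_⟩
    show inv (trH (-z) z) = ∞
    rw [trH_coe, add_neg_cancel, inv_zero]

theorem exists_mob {x y : Sph} (h : x ≠ y) : ∃ m : Sph ≃ₜ Sph, m x = ((0 : ℂ) : Sph) ∧ m y = ∞ := by
  obtain ⟨m, hm⟩ := exists_mob1 y
  have h1 : m x ≠ ∞ := fun h' => h (m.injective (h'.trans hm.symm))
  obtain ⟨z, hz⟩ := ne_infty_iff_exists.1 h1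
  refine ⟨m.trans (trH (-z)), ?_, ?_⟩
  · show trH (-z) (m x) = _
    rw [← hz, trH_coe, add_neg_cancel]
  · show trH (-z) (m y) = _
    rw [hm, trH_infty]

/-- the affine chart with inverse `m⁻¹` -/
def emb (m : Sph ≃ₜ Sph) (z : ℂ) : Sph := m.symm (z : Sph)

theorem emb_open (m : Sph ≃ₜ Sph) : IsOpenEmbedding (emb m) :=
  m.symm.isOpenEmbedding.comp isOpenEmbedding_coe

theorem emb_cont (m : Sph ≃ₜ Sph) : Continuous (emb m) := (emb_open m).continuous

theorem m_emb (m : Sph ≃ₜ Sph) (z : ℂ) : m (emb m z) = (z : Sph) := m.apply_symm_apply _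

theorem mem_range_emb {m : Sph ≃ₜ Sph} {y x : Sph} (hy : m y = ∞) : x ∈ range (emb m) ↔ x ≠ y := by
  constructor
  · rintro ⟨z, rfl⟩ h
    have h1 := congrArg m h
    rw [m_emb, hy] at h1
    exact coe_ne_infty z h1
  · intro h
    have h1 : m x ≠ ∞ := fun h' => h (m.injective (h'.trans hy.symm))
    obtain ⟨z, hz⟩ := ne_infty_iff_exists.1 h1
    exact ⟨z, by rw [emb, hz, m.symm_apply_apply]⟩

theorem exists_ne_sph (x : Sph) : ∃ y : Sph, y ≠ x := by
  by_cases h : x = ∞
  · exact ⟨((0 : ℂ) : Sph), by rw [h]; exact coe_ne_infty _⟩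
  · exact ⟨∞, fun h' => h h'.symm⟩

instance : LocallyPathConnectedSpace Sph := by
  refine LocallyPathConnectedSpace.of_bases (ι := ℝ) (p := fun _ r => 0 < r)
    (s := fun x r => emb (exists_mob (exists_ne_sph x).choose_spec.symm).choose '' Metric.ball 0 r) ?_ ?_
  · intro x
    have h1 := (exists_mob (exists_ne_sph x).choose_spec.symm).choose_spec
    set m := (exists_mob (exists_ne_sph x).choose_spec.symm).choose
    have h2 : emb m 0 = x := by rw [emb, ← h1.1, m.symm_apply_apply]
    have h3 := (emb_open m).map_nhds_eq 0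
    rw [h2] at h3
    rw [← h3]
    exact Metric.nhds_basis_ball.map (emb m)
  · intro _ r hr
    exact ((convex_ball (0 : ℂ) r).isPathConnected ⟨0, Metric.mem_ball_self hr⟩).image (emb_cont _)

/-- `x` and `y` are in the same component of the complement of `K` -/
def SameComp (K : Set Sph) (x y : Sph) : Prop := y ∈ connectedComponentIn Kᶜ x

theorem SameComp.refl {K : Set Sph} {x : Sph} (h : x ∉ K) : SameComp K x x :=
  mem_connectedComponentIn h

theorem SameComp.symm {K : Set Sph} {x y : Sph} (h : SameComp K x y) : SameComp K y x := by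
  have hx : x ∈ Kᶜ := by
    by_contra hx
    rw [SameComp, connectedComponentIn_eq_empty hx] at h
    exact notMem_empty _ h
  rw [SameComp, ← connectedComponentIn_eq h]
  exact mem_connectedComponentIn hx

theorem SameComp.trans {K : Set Sph} {x y z : Sph} (h : SameComp K x y) (h' : SameComp K y z) :
    SameComp K x z := by
  rw [SameComp, connectedComponentIn_eq h]
  exact h'

theorem sameComp_of_conn {K S : Set Sph} (hS : IsPreconnected S) (hSK : S ⊆ Kᶜ) {x y : Sph}
    (hx : x ∈ S) (hy : y ∈ S) : SameComp K x y :=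
  hS.subset_connectedComponentIn hx hSK hy

/-- the preimage in the plane -/
def pre (m : Sph ≃ₜ Sph) (K : Set Sph) : Set ℂ := emb m ⁻¹' K

theorem coe_pre {m : Sph ≃ₜ Sph} {y : Sph} (hy : m y = ∞) {K : Set Sph} (hyK : y ∉ K) :
    ((↑) '' pre m K : Set Sph) = m '' K := by
  ext x
  constructor
  · rintro ⟨z, hz, rfl⟩
    exact ⟨emb m z, hz, m_emb m z⟩
  · rintro ⟨w, hw, rfl⟩
    obtain ⟨z, rfl⟩ := (mem_range_emb hy).2 (fun h : w = y => hyK (h ▸ hw))
    exact ⟨z, hw, (m_emb m z).symm⟩

theorem pre_compact {m : Sph ≃ₜ Sph} {y : Sph} (hy : m y = ∞) {K : Set Sph} (hK : IsClosed K)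
    (hyK : y ∉ K) : IsCompact (pre m K) :=
  (emb_open m).isInducing.isCompact_preimage' hK.isCompact fun x hx =>
    (mem_range_emb hy).2 (fun h => hyK (h ▸ hx))

theorem same_iff {m : Sph ≃ₜ Sph} {x y : Sph} (hx : m x = ((0 : ℂ) : Sph)) (hy : m y = ∞)
    {K : Set Sph} (hK : IsClosed K) (hxK : x ∉ K) (hyK : y ∉ K) :
    SameComp K x y ↔ LogOn (pre m K) 0 := by
  have h0 : (0 : ℂ) ∉ pre m K := by
    intro h
    have : emb m 0 = x := by rw [emb, ← hx, m.symm_apply_apply]
    exact hxK (this ▸ h)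
  have h1 : SameComp K x y ↔
      (∞ : Sph) ∈ connectedComponentIn ((↑) '' pre m K : Set Sph)ᶜ ((0 : ℂ) : Sph) := by
    rw [coe_pre hy hyK, ← hx, ← hy, ← image_compl_eq m.bijective,
      ← m.image_connectedComponentIn (show x ∈ Kᶜ from hxK)]
    constructor
    · intro h
      exact ⟨y, h, rfl⟩
    · rintro ⟨w, hw, hwy⟩
      rwa [← m.injective hwy]
  rw [h1]
  exact ⟨log_of_joined (pre_compact hy hK hyK) h0, sep_of_log (pre_compact hy hK hyK) h0⟩

/-- Janiszewski's theorem -/
theorem janis {K₁ K₂ : Set Sph} (h₁ : IsClosed K₁) (h₂ : IsClosed K₂)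
    (hc : IsPreconnected (K₁ ∩ K₂)) {x y : Sph} (hx₁ : x ∉ K₁) (hx₂ : x ∉ K₂) (hy₁ : y ∉ K₁)
    (hy₂ : y ∉ K₂) (s₁ : SameComp K₁ x y) (s₂ : SameComp K₂ x y) : SameComp (K₁ ∪ K₂) x y := by
  by_cases hxy : x = y
  · subst hxy
    exact SameComp.refl (by rintro (h | h) <;> contradiction)
  obtain ⟨m, hx, hy⟩ := exists_mob hxy
  rw [same_iff hx hy (h₁.union h₂) (by rintro (h | h) <;> contradiction)
    (by rintro (h | h) <;> contradiction)]
  have hpu : pre m (K₁ ∪ K₂) = pre m K₁ ∪ pre m K₂ := rfl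
  rw [hpu]
  refine LogOn.union (h₁.preimage (emb_cont m)) (h₂.preimage (emb_cont m)) ?_
    ((same_iff hx hy h₁ hx₁ hy₁).1 s₁) ((same_iff hx hy h₂ hx₂ hy₂).1 s₂)
  show IsPreconnected (emb m ⁻¹' (K₁ ∩ K₂))
  exact hc.preimage_of_isOpenMap (emb_open m).injective (emb_open m).isOpenMap fun w hw =>
    (mem_range_emb hy).2 (fun h => hy₁ (h ▸ hw.1))

/-- every nonvanishing continuous function on `K` has a logarithm -/
def Simply (K : Set Sph) : Prop := ∀ f : Sph → ℂ, ContinuousOn f K → (∀ z ∈ K, f z ≠ 0) →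
  ∃ g : Sph → ℂ, ContinuousOn g K ∧ ∀ z ∈ K, Complex.exp (g z) = f z

theorem Simply.same {K : Set Sph} (hK : IsClosed K) (hS : Simply K) {x y : Sph} (hx : x ∉ K)
    (hy : y ∉ K) : SameComp K x y := by
  by_cases hxy : x = y
  · subst hxy
    exact SameComp.refl hx
  obtain ⟨m, hmx, hmy⟩ := exists_mob hxy
  rw [same_iff hmx hmy hK hx hy]
  obtain ⟨g, hg, he⟩ := hS (fun z => toC (m z)) (by
    intro z hz
    have h1 : m z ≠ ∞ := fun h => hy (by rwa [m.injective (h.trans hmy.symm)] at hz)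
    exact ((continuousAt_toC h1).comp m.continuous.continuousAt).continuousWithinAt) (by
    intro z hz h
    have h1 : m z ≠ ∞ := fun h => hy (by rwa [m.injective (h.trans hmy.symm)] at hz)
    obtain ⟨w, hw⟩ := ne_infty_iff_exists.1 h1
    rw [← hw, toC_coe] at h
    rw [h, ← hmx] at hw
    exact hx (by rwa [m.injective hw]))
  refine ⟨fun z => g (emb m z), hg.comp (emb_cont m).continuousOn fun z hz => hz, fun z hz => ?_⟩
  rw [he _ hz, m_emb, toC_coe, sub_zero]

theorem simply_range {A B : Type*} [TopologicalSpace A] [CompactSpace A] [TopologicalSpace B]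
    [SimplyConnectedSpace B] [LocallyPathConnectedSpace B] {γ : A → Sph} (hγ : Continuous γ)
    (hi : Function.Injective γ) {ρ : B → A} (hρ : Continuous ρ) {s : A → B} (hs : Continuous s)
    (hρs : ∀ a, ρ (s a) = a) : Simply (range γ) := by
  intro f hf h0
  obtain ⟨L, hLc, hL⟩ := exists_log (f := fun b => f (γ (ρ b)))
    (hf.comp_continuous (hγ.comp hρ) fun b => ⟨ρ b, rfl⟩) fun b => h0 _ ⟨ρ b, rfl⟩
  obtain ⟨G, hG⟩ := ContinuousMap.exists_extension (X := Sph) (hγ.isClosedEmbedding hi)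
    (⟨fun a => L (s a), hLc.comp hs⟩ : C(A, ℂ))
  refine ⟨G, G.continuous.continuousOn, ?_⟩
  rintro _ ⟨a, rfl⟩
  have h1 : G (γ a) = L (s a) := DFunLike.congr_fun hG a
  rw [h1, hL, hρs]

theorem simply_arc {c : ℝ → Sph} {a b : ℝ} (hab : a ≤ b) (hc : ContinuousOn c (Icc a b))
    (hi : InjOn c (Icc a b)) : Simply (c '' Icc a b) := by
  have h1 : range (fun t : Icc a b => c t) = c '' Icc a b := by
    ext x
    simp [mem_image]
  rw [← h1]
  exact simply_range (B := ℝ) (γ := fun t : Icc a b => c t) (hc.comp_continuous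
    continuous_subtype_val fun t => t.2) (fun s t h => Subtype.ext (hi s.2 t.2 h))
    (continuous_projIcc (h := hab)) continuous_subtype_val fun t => projIcc_val hab t

/-! Jordan curves -/

theorem jordan_split {γ : Circle → Sph} (hγ : Continuous γ) (hi : Function.Injective γ) (θ : Circle)
    {D : Set Sph} (hD : IsOpen D) (hθ : γ θ ∈ D) :
    ∃ J : Set Sph, IsClosed J ∧ IsPreconnected J ∧ Simply J ∧ J ⊆ range γ ∧ γ θ ∉ J ∧
      range γ \ D ⊆ J := by
  obtain ⟨t₀, rfl⟩ := Circle.exp_surjective θ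
  set c : ℝ → Sph := fun t => γ (Circle.exp t) with hc
  have hcc : Continuous c := hγ.comp (by fun_prop)
  obtain ⟨ε', hε', hball⟩ := Metric.isOpen_iff.1 (hD.preimage hcc) t₀ hθ
  set ε := min (ε' / 2) 1 with hε
  have hε0 : 0 < ε := lt_min (half_pos hε') one_pos
  have hε1 : ε ≤ 1 := min_le_right _ _
  have hε2 : ε ≤ ε' / 2 := min_le_left _ _
  have hpi := Real.pi_gt_three
  have hle : t₀ + ε ≤ t₀ + 2 * Real.pi - ε := by linarith
  have hinj : InjOn c (Icc (t₀ + ε) (t₀ + 2 * Real.pi - ε)) :=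
    hi.comp_injOn (Circle.exp_injOn_Icc (by linarith))
  refine ⟨c '' Icc (t₀ + ε) (t₀ + 2 * Real.pi - ε), (isCompact_Icc.image hcc).isClosed,
    isPreconnected_Icc.image _ hcc.continuousOn, simply_arc hle hcc.continuousOn hinj,
    ?_, ?_, ?_⟩
  · rintro _ ⟨t, -, rfl⟩
    exact ⟨_, rfl⟩
  · rintro ⟨t, ht, h⟩
    have h1 := hi h
    rw [Circle.exp_eq_exp] at h1
    obtain ⟨k, hk⟩ := h1
    have h2 : (0 : ℝ) < k * (2 * Real.pi) := by linarith [ht.1]
    have h3 : (k : ℝ) * (2 * Real.pi) < 1 * (2 * Real.pi) := by linarith [ht.2]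
    have h4 : (0 : ℝ) < k := by
      by_contra h
      rw [not_lt] at h
      nlinarith
    have h5 : (k : ℝ) < 1 := lt_of_mul_lt_mul_right h3 (by positivity)
    have h6 : (0 : ℤ) < k := by exact_mod_cast h4
    have h7 : k < 1 := by exact_mod_cast h5
    omega
  · rintro _ ⟨⟨w, rfl⟩, hw⟩
    obtain ⟨s, rfl⟩ := Circle.exp_surjective w
    have h1 := toIcoMod_mem_Ico Real.two_pi_pos (t₀ - ε) s
    have h2 := toIcoMod_add_toIcoDiv_zsmul Real.two_pi_pos (t₀ - ε) s
    set s' := toIcoMod Real.two_pi_pos (t₀ - ε) s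
    have h3 : Circle.exp s' = Circle.exp s := by
      rw [Circle.exp_eq_exp]
      refine ⟨-toIcoDiv Real.two_pi_pos (t₀ - ε) s, ?_⟩
      rw [zsmul_eq_mul] at h2
      push_cast
      linarith
    by_cases hlt : s' < t₀ + ε
    · exfalso
      apply hw
      rw [← h3]
      apply hball
      rw [Metric.mem_ball, Real.dist_eq, abs_lt]
      constructor <;> linarith [h1.1]
    · rw [not_lt] at hlt
      exact ⟨s', ⟨hlt, by linarith [h1.2]⟩, by rw [hc]; simp only []; rw [h3]⟩

/-- each component of the complement of a Jordan curve has every point of the curve in its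
closure -/
theorem jordan_closure {γ : Circle → Sph} (hγ : Continuous γ) (hi : Function.Injective γ) {x : Sph}
    (hx : x ∉ range γ) (θ : Circle) : γ θ ∈ closure (connectedComponentIn (range γ)ᶜ x) := by
  by_contra hcon
  set W := connectedComponentIn (range γ)ᶜ x with hW
  have hCc : IsClosed (range γ) := (isCompact_range hγ).isClosed
  have hWo : IsOpen W := hCc.isOpen_compl.connectedComponentIn
  obtain ⟨J, hJc, -, hJs, hJC, hJθ, hJD⟩ := jordan_split hγ hi θ (isClosed_closure (s := W)).isOpen_compl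
    hcon
  have hxJ : x ∉ J := fun h => hx (hJC h)
  have h1 := hJs.same hJc hxJ hJθ
  have hxW : x ∈ W := mem_connectedComponentIn hx
  -- the component is relatively clopen in the complement of `J`
  have h2 : closure W ∩ Jᶜ ⊆ W := by
    rintro z ⟨hz, hzJ⟩
    by_cases hzC : z ∈ range γ
    · exact absurd (hJD ⟨hzC, fun h => h hz⟩) hzJ
    · exact closure_comp_subset ⟨hz, hzC⟩
  have h3 : connectedComponentIn Jᶜ x ⊆ W := by
    have h4 : connectedComponentIn Jᶜ x ⊆ W ∪ (closure W)ᶜ := by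
      intro z hz
      by_cases hzW : z ∈ closure W
      · exact Or.inl (h2 ⟨hzW, connectedComponentIn_subset _ _ hz⟩)
      · exact Or.inr hzW
    refine isPreconnected_connectedComponentIn.subset_left_of_subset_union hWo
      isClosed_closure.isOpen_compl ?_ h4 ⟨x, mem_connectedComponentIn hxJ, hxW⟩
    exact disjoint_left.2 fun z hz hz' => hz' (subset_closure hz)
  exact connectedComponentIn_subset _ _ (h3 h1) ⟨θ, rfl⟩

theorem compl_pair_preconnected {a b : Sph} (hab : a ≠ b) : IsPreconnected ({a, b}ᶜ : Set Sph) := by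
  obtain ⟨m, ha, hb⟩ := exists_mob hab
  have h1 : ({a, b}ᶜ : Set Sph) = emb m '' {0}ᶜ := by
    ext x
    constructor
    · intro hx
      rw [mem_compl_iff, mem_insert_iff, mem_singleton_iff, not_or] at hx
      obtain ⟨z, rfl⟩ := (mem_range_emb hb).2 hx.2
      refine ⟨z, fun h => hx.1 ?_, rfl⟩
      rw [mem_singleton_iff] at h
      rw [h, emb, ← ha, m.symm_apply_apply]
    · rintro ⟨z, hz, rfl⟩
      rw [mem_compl_iff, mem_insert_iff, mem_singleton_iff, not_or]
      refine ⟨fun h => hz ?_, fun h => ?_⟩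
      · have h2 := congrArg m h
        rw [m_emb, ha, OnePoint.coe_eq_coe] at h2
        exact h2
      · have h2 := congrArg m h
        rw [m_emb, hb] at h2
        exact coe_ne_infty z h2
  rw [h1]
  exact (isConnected_compl_singleton_of_one_lt_rank (by simp) (0 : ℂ)).isPreconnected.image _
    (emb_cont m).continuousOn

theorem jordan_ne_univ {γ : Circle → Sph} (hγ : Continuous γ) (hi : Function.Injective γ) :
    ∃ x, x ∉ range γ := by
  by_contra hcon
  push Not at hcon
  have hs : Function.Surjective γ := fun x => hcon x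
  set e := Continuous.homeoOfEquivCompactToT2 (f := Equiv.ofBijective γ ⟨hi, hs⟩) hγ with he
  have heγ : ∀ w, e.symm (γ w) = w := fun w => e.symm_apply_apply w
  have hne : γ (Circle.exp 0) ≠ γ (Circle.exp Real.pi) := by
    intro h
    have h1 := hi h
    have h2 := congrArg (fun w : Circle => (w : ℂ)) h1
    simp only [Circle.coe_exp, Complex.ofReal_zero, zero_mul, Complex.exp_zero,
      Complex.exp_pi_mul_I] at h2
    norm_num at h2
  have h1 := compl_pair_preconnected hne
  have h2 : IsPreconnected ((fun x => ((e.symm x : Circle) : ℂ).im) ''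
      ({γ (Circle.exp 0), γ (Circle.exp Real.pi)}ᶜ : Set Sph)) := by
    apply h1.image
    apply Continuous.continuousOn
    exact Complex.continuous_im.comp (continuous_subtype_val.comp e.symm.continuous)
  have hmem : ∀ t : ℝ, Real.sin t ≠ 0 → Real.sin t ∈ ((fun x => ((e.symm x : Circle) : ℂ).im) ''
      ({γ (Circle.exp 0), γ (Circle.exp Real.pi)}ᶜ : Set Sph)) := by
    intro t ht
    refine ⟨γ (Circle.exp t), ?_, ?_⟩
    · rw [mem_compl_iff, mem_insert_iff, mem_singleton_iff, not_or]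
      have h4 : ((Circle.exp t : Circle) : ℂ).im = Real.sin t := by
        rw [Circle.coe_exp, Complex.exp_ofReal_mul_I_im]
      constructor
      · intro h
        have h3 := hi h
        rw [h3, Circle.coe_exp, Complex.exp_ofReal_mul_I_im, Real.sin_zero] at h4
        exact ht h4.symm
      · intro h
        have h3 := hi h
        rw [h3, Circle.coe_exp, Complex.exp_ofReal_mul_I_im, Real.sin_pi] at h4
        exact ht h4.symm
    · show ((e.symm (γ (Circle.exp t)) : Circle) : ℂ).im = _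
      rw [heγ, Circle.coe_exp, Complex.exp_ofReal_mul_I_im]
  have hp := hmem (Real.pi / 2) (by rw [Real.sin_pi_div_two]; norm_num)
  have hn := hmem (-(Real.pi / 2)) (by rw [Real.sin_neg, Real.sin_pi_div_two]; norm_num)
  rw [Real.sin_pi_div_two] at hp
  rw [Real.sin_neg, Real.sin_pi_div_two] at hn
  have h0 : (0 : ℝ) ∈ Icc (-1 : ℝ) 1 := ⟨by norm_num, by norm_num⟩
  obtain ⟨x, hx, hx0⟩ := h2.Icc_subset hn hp h0
  obtain ⟨w, rfl⟩ := hs x
  obtain ⟨t, rfl⟩ := Circle.exp_surjective w
  change ((e.symm (γ (Circle.exp t)) : Circle) : ℂ).im = 0 at hx0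
  rw [heγ] at hx0
  rw [Circle.coe_exp, Complex.exp_ofReal_mul_I_im] at hx0
  rw [mem_compl_iff, mem_insert_iff, mem_singleton_iff, not_or] at hx
  rw [Real.sin_eq_zero_iff] at hx0
  obtain ⟨n, hn⟩ := hx0
  rcases Int.even_or_odd' n with ⟨k, hk | hk⟩
  · apply hx.1
    congr 1
    rw [Circle.exp_eq_exp]
    refine ⟨k, ?_⟩
    rw [← hn, hk]
    push_cast
    ring
  · apply hx.2
    congr 1
    rw [Circle.exp_eq_exp]
    refine ⟨k, ?_⟩
    rw [← hn, hk]
    push_cast
    ring

theorem jordan_dense {γ : Circle → Sph} (hγ : Continuous γ) (hi : Function.Injective γ) :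
    Dense (range γ)ᶜ := by
  obtain ⟨x, hx⟩ := jordan_ne_univ hγ hi
  intro z
  by_cases hz : z ∈ range γ
  · obtain ⟨θ, rfl⟩ := hz
    exact closure_mono (connectedComponentIn_subset _ _) (jordan_closure hγ hi hx θ)
  · exact subset_closure hz

/-- the components of the complement of a Jordan curve are uniformly locally connected -/
theorem jordan_local {γ : Circle → Sph} (hγ : Continuous γ) (hi : Function.Injective γ) (θ : Circle)
    {D : Set Sph} (hD : IsOpen D) (hθ : γ θ ∈ D) :
    ∃ B : Set Sph, IsOpen B ∧ γ θ ∈ B ∧ B ⊆ D ∧ ∀ x ∈ B, ∀ y ∈ B, x ∉ range γ → y ∉ range γ →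
      SameComp (range γ) x y → y ∈ connectedComponentIn (D \ range γ) x := by
  obtain ⟨J, hJc, hJp, hJs, hJC, hJθ, hJD⟩ := jordan_split hγ hi θ hD hθ
  set B := connectedComponentIn (D \ J) (γ θ) with hB
  have hDJ : IsOpen (D \ J) := hD.sdiff hJc
  have hBsub : B ⊆ D \ J := connectedComponentIn_subset _ _
  refine ⟨B, hDJ.connectedComponentIn, mem_connectedComponentIn ⟨hθ, hJθ⟩,
    fun z hz => (hBsub hz).1, ?_⟩
  intro x hx y hy hxC hyC hs
  have hCc : IsClosed (range γ) := (isCompact_range hγ).isClosed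
  have h1 : SameComp (J ∪ Dᶜ) x y := by
    refine sameComp_of_conn (S := B) isPreconnected_connectedComponentIn ?_ hx hy
    intro z hz
    rintro (h | h)
    · exact (hBsub hz).2 h
    · exact h (hBsub hz).1
  have h2 : range γ ∩ (J ∪ Dᶜ) = J := by
    ext z
    constructor
    · rintro ⟨hz, h | h⟩
      · exact h
      · exact hJD ⟨hz, h⟩
    · intro h
      exact ⟨hJC h, Or.inl h⟩
  have h3 := janis hCc (hJc.union hD.isClosed_compl) (by rw [h2]; exact hJp) hxC
    (by rintro (h | h); exacts [(hBsub hx).2 h, h (hBsub hx).1]) hyC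
    (by rintro (h | h); exacts [(hBsub hy).2 h, h (hBsub hy).1]) hs h1
  have h4 : (range γ ∪ (J ∪ Dᶜ))ᶜ = D \ range γ := by
    ext z
    constructor
    · intro hz
      refine ⟨?_, fun h => hz (Or.inl h)⟩
      by_contra hzD
      exact hz (Or.inr (Or.inr hzD))
    · rintro ⟨hzD, hzC⟩
      rintro (h | h | h)
      · exact hzC h
      · exact hzC (hJC h)
      · exact h hzD
  rw [SameComp, h4] at h3
  exact h3

end Pool.Agent.H208.Tree
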