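import Pool.Agent.H208.Tree.Walk

set_option autoImplicit false

/-!
# A tree in the preimage of the comb close to the comb
-/

noncomputable section

namespace Pool.Agent.H208.Tree

open Set Filter Topology OnePoint Pool.Agent.H208.Thu unitInterval

variable {F : Sph → Sph} {n : ℕ}

/-- the label of a vertex -/
def lam (t : ℕ → ℝ) (m i : ℕ) : ℝ := if i < m then t i else t (m - 1)

theorem Wk.lam_mono {Q : ℝ → C(I, Sph) → Prop} {a b : Sph} {lo hi : ℝ} {m : ℕ} {w : ℕ → Sph}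
    {x : ℕ → C(I, Sph)} {t : ℕ → ℝ} (h : Wk n F Q a b lo hi m w x t) (hm : 0 < m) {i j : ℕ}
    (hij : i ≤ j) : lam t m i ≤ lam t m j := by
  unfold lam
  by_cases hj : j < m
  · rw [if_pos hj, if_pos (by omega)]
    exact h.mono i j hij hj
  · rw [if_neg hj]
    by_cases hi : i < m
    · rw [if_pos hi]
      exact h.mono i (m - 1) (by omega) (by omega)
    · rw [if_neg hi]

theorem Wk.near {K : ℝ → ℂ} {r : ℝ} {a b : Sph} {lo hi : ℝ} {m : ℕ} {w : ℕ → Sph}
    {x : ℕ → C(I, Sph)} {t : ℕ → ℝ} (h : Wk n F (Near K r) a b lo hi m w x t) (hm : 0 < m) {i : ℕ}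
    (hi : i ≤ m) : ∃ u : ℂ, w i = (u : Sph) ∧ ‖u - K (lam t m i)‖ < r := by
  unfold lam
  by_cases him : i < m
  · rw [if_pos him, ← h.src i him]
    exact h.q i him 0
  · have h1 : i = m := by omega
    subst h1
    rw [if_neg him]
    have h2 := h.tgt (i - 1) (by omega)
    rw [show i - 1 + 1 = i by omega] at h2
    rw [← h2]
    exact h.q (i - 1) (by omega) 1

theorem Wk.jump {K : ℝ → ℂ} {r : ℝ} {a b : Sph} {lo hi : ℝ} {m : ℕ} {w : ℕ → Sph}
    {x : ℕ → C(I, Sph)} {t : ℕ → ℝ} (h : Wk n F (Near K r) a b lo hi m w x t) {i : ℕ}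
    (hi : i < m) {u v : ℂ} (hu : w i = (u : Sph)) (hv : w (i + 1) = (v : Sph)) :
    ‖v - K (t i)‖ < r ∧ ‖u - K (t i)‖ < r := by
  obtain ⟨u', h1, h2⟩ := h.q i hi 0
  obtain ⟨v', h3, h4⟩ := h.q i hi 1
  rw [h.src i hi, hu] at h1
  rw [h.tgt i hi, hv] at h3
  rw [OnePoint.coe_injective h1, OnePoint.coe_injective h3]
  exact ⟨h4, h2⟩

/-- the guide path of the spine -/
def Ksp (t : ℝ) : ℂ := t

/-- the guide path of a tooth -/
def Kto (k : ℕ) (t : ℝ) : ℂ := (k : ℂ) + (1 - t) * Complex.I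

theorem Kto_re (k : ℕ) (t : ℝ) : (Kto k t).re = k := by simp [Kto]
theorem Kto_im (k : ℕ) (t : ℝ) : (Kto k t).im = 1 - t := by simp [Kto]

theorem tip_mem_V1 (hF : Brc F (P0 n)) {z : ℂ} (hz : z ∈ tips n) : (z : Sph) ∈ V1 n F := by
  obtain ⟨k, hk, h⟩ := hF.map _ (coe_mem_P0.2 hz)
  exact ⟨_, ⟨k, hk, Or.inr rfl⟩, h⟩

theorem re_le_norm (z : ℂ) : |z.re| ≤ ‖z‖ := Complex.abs_re_le_norm z
theorem im_le_norm (z : ℂ) : |z.im| ≤ ‖z‖ := Complex.abs_im_le_norm z

/-- the spine walk passes close to each integer point -/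
theorem Wk.exists_near {r : ℝ} {a b : ℂ} {m : ℕ} {w : ℕ → Sph}
    {x : ℕ → C(I, Sph)} {t : ℕ → ℝ} (h : Wk n F (Near Ksp r) a b 0 n m w x t) (hm : 0 < m)
    (ha : ‖a - Ksp 0‖ < r / 8) (hb : ‖b - Ksp n‖ < r / 8) {k : ℕ} (hk : k ≤ n) :
    ∃ i ≤ m, ∃ u : ℂ, w i = (u : Sph) ∧ ‖u - k‖ < 3 * r := by
  classical
  have hr : 0 < r := by
    have := norm_nonneg (a - Ksp 0)
    linarith
  have hu : ∀ i, ∃ u : ℂ, i ≤ m → w i = (u : Sph) ∧ ‖u - Ksp (lam t m i)‖ < r := by
    intro i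
    by_cases hi : i ≤ m
    · obtain ⟨u, hu⟩ := h.near hm hi
      exact ⟨u, fun _ => hu⟩
    · exact ⟨0, fun h => absurd h hi⟩
  choose u hu using hu
  have hkn : (k : ℝ) ≤ n := by exact_mod_cast hk
  have hk0 : (0 : ℝ) ≤ k := Nat.cast_nonneg k
  have hu0 : u 0 = a := OnePoint.coe_injective (by rw [← (hu 0 (Nat.zero_le _)).1, h.first])
  have hum : u m = b := OnePoint.coe_injective (by rw [← (hu m le_rfl).1, h.last])
  have hex : ∃ i, i ≤ m ∧ (k : ℝ) - r ≤ (u i).re := by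
    refine ⟨m, le_rfl, ?_⟩
    have h1 := (re_le_norm _).trans_lt hb
    rw [hum]
    simp only [Ksp, Complex.sub_re, Complex.ofReal_re, abs_lt] at h1
    linarith [h1.1]
  obtain ⟨h1, h2⟩ := Nat.find_spec hex
  set i := Nat.find hex with hi
  refine ⟨i, h1, u i, (hu i h1).1, ?_⟩
  have him : |(u i).im| < r := by
    have h3 := (im_le_norm _).trans_lt (hu i h1).2
    simpa [Ksp] using h3
  have hre : |(u i).re - k| < 2 * r := by
    by_cases h0 : i = 0
    · have h3 := (re_le_norm _).trans_lt ha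
      rw [← hu0, ← h0] at h3
      simp only [Ksp, Complex.sub_re, Complex.ofReal_re, abs_lt] at h3
      rw [abs_lt]
      constructor <;> linarith [h3.2]
    · have h3 := Nat.find_min hex (m := i - 1) (by omega)
      rw [not_and, not_le] at h3
      have h4 := h3 (by omega)
      obtain ⟨h5, h6⟩ := h.jump (i := i - 1) (by omega) (hu (i - 1) (by omega)).1
        (by rw [show i - 1 + 1 = i by omega]; exact (hu i h1).1)
      have h7 := (re_le_norm _).trans_lt h5
      have h8 := (re_le_norm _).trans_lt h6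
      simp only [Complex.sub_re, abs_lt] at h7 h8
      rw [abs_lt]
      constructor <;> linarith [h7.2, h8.1]
  refine (Complex.norm_le_abs_re_add_abs_im _).trans_lt ?_
  simp only [Complex.sub_re, Complex.natCast_re, Complex.sub_im, Complex.natCast_im, sub_zero]
  linarith

/-- truncation as in `cl` is monotone -/
theorem cl_mono {a b : ℝ} (h : a ≤ b) : cl a ≤ cl b := max_le_max le_rfl (min_le_min h le_rfl)

theorem cl_dist {a c : ℝ} (hc : 0 ≤ c) (h0 : -c ≤ a) (h1 : a ≤ 1 + c) : |a - cl a| ≤ c := by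
  rcases le_total a 0 with h | h
  · rw [cl_of_nonpos h, abs_le]; constructor <;> linarith
  · rcases le_total a 1 with h' | h'
    · rw [cl_of_mem h h', sub_self, abs_zero]; exact hc
    · rw [cl_of_ge h', abs_le]; constructor <;> linarith

theorem exists_tree1 {f : Sph → Sph} (hn : 1 ≤ n) (hf : Brc f (P0 n)) {δ : ℝ} (hδ : 0 < δ)
    (hE : Expand f δ) {r : ℝ} (hr : 0 < r) (hr1 : r ≤ 1 / 24) : ∃ N : ℕ, ∀ N' ≥ N,
      ∃ (H : ℂ → Sph) (m : Ed n → ℕ) (w : Ed n → ℕ → Sph) (x : Ed n → ℕ → C(I, Sph))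
        (t : Ed n → ℕ → ℝ), (∀ e, 0 < m e) ∧
        (∀ e, Wk n (f^[N']) (Near (ep e) r) (H (ep e 0)) (H (ep e 1)) 0 1 (m e) (w e) (x e) (t e)) ∧
        (∀ e, ∀ i ≤ m e, ∀ j ≤ m e, w e i = w e j → i = j) ∧
        (∀ e e', e ≠ e' → ∀ i ≤ m e, ∀ j ≤ m e', w e i = w e' j → (i = 0 ∨ i = m e) ∧
          (j = 0 ∨ j = m e') ∧ ep e (if i = 0 then 0 else 1) = ep e' (if j = 0 then 0 else 1)) ∧
        (∀ z ∈ tips n, H z = (z : Sph)) ∧
        (∀ z ∈ V0 n, ∃ u : ℂ, H z = (u : Sph) ∧ ‖u - z‖ < r) := by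
  classical
  -- the radii
  set rt := r / 4 with hrt
  set rs := rt / 32 with hrs
  have hrt0 : 0 < rt := by positivity
  have hrs0 : 0 < rs := by positivity
  have hrt1 : rt ≤ 1 := by linarith
  have hrs1 : rs ≤ 1 := by linarith
  obtain ⟨N₁, hN₁⟩ := guide hn hf hδ hE hrs0 hrs1
  obtain ⟨N₂, hN₂⟩ := guide hn hf hδ hE hrt0 hrt1
  refine ⟨max N₁ N₂, fun N' hN' => ?_⟩
  obtain ⟨hvs, hgs⟩ := hN₁ N' ((le_max_left _ _).trans hN')
  obtain ⟨-, hgt⟩ := hN₂ N' ((le_max_right _ _).trans hN')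
  have hF := hf.iter N'
  set F := f^[N'] with hFdef
  -- the spine
  have hc0 : (0 : ℂ) ∈ comb n := Or.inl (by simp)
  have hcn : (n : ℂ) ∈ comb n := Or.inl (by simp)
  obtain ⟨a, haV, haK⟩ := hvs 0 hc0
  obtain ⟨b, hbV, hbK⟩ := hvs n hcn
  have haK' : ‖a - Ksp 0‖ < rs / 8 := by simpa [Ksp] using haK
  have hbK' : ‖b - Ksp n‖ < rs / 8 := by simpa [Ksp] using hbK
  have hsw := hgs Ksp n (Nat.cast_nonneg n) (fun s t => by
    unfold Ksp
    rw [← Complex.ofReal_sub, Complex.norm_real, Real.norm_eq_abs]) (fun t h0 h1 => by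
    left
    simp only [Ksp, Complex.ofReal_re, Complex.ofReal_im]
    exact ⟨h0, h1, trivial⟩) a b haV hbV haK' hbK'
  obtain ⟨m, w, x, t, hwk, hnd⟩ := hsw.simple
  have hn1 : (1 : ℝ) ≤ n := by exact_mod_cast hn
  have hm : 0 < m := by
    rcases Nat.eq_zero_or_pos m with h0 | h0
    · exfalso
      have h1 : a = b := OnePoint.coe_injective (by rw [← hwk.first, ← hwk.last, h0])
      have h2 := (re_le_norm _).trans_lt haK
      have h3 := (re_le_norm _).trans_lt hbK
      rw [h1] at h2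
      simp only [Complex.sub_re, Complex.zero_re, Complex.natCast_re, abs_lt] at h2 h3
      linarith [h2.2, h3.1]
    · exact h0
  -- the teeth
  have htooth : ∀ k : ℕ, ∃ (p : ℕ) (y : ℕ → Sph) (x' : ℕ → C(I, Sph)) (t' : ℕ → ℝ) (i : ℕ),
      k ≤ n → (i ≤ m ∧ 0 < p ∧ Wk n F (Near (Kto k) rt) (((k : ℂ) + Complex.I : ℂ) : Sph) (w i) 0 1
        p y x' t' ∧ (∀ i ≤ p, ∀ j ≤ p, y i = y j → i = j) ∧
        (∀ j < p, ∀ i' ≤ m, y j ≠ w i')) := by
    intro k
    by_cases hk : k ≤ n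
    swap
    · exact ⟨0, w, x, t, 0, fun h => absurd h hk⟩
    obtain ⟨i₀, hi₀, u₀, hu₀, hu₀k⟩ := hwk.exists_near hm haK' hbK' hk
    have htip : (k : ℂ) + Complex.I ∈ tips n := ⟨k, hk, rfl⟩
    have hu₀V : (u₀ : Sph) ∈ V1 n F := by
      rw [← hu₀]
      by_cases h : i₀ < m
      · rw [← hwk.src i₀ h]; exact (hwk.isE i₀ h).zero_mem
      · have h1 : i₀ = m - 1 + 1 := by omega
        rw [h1, ← hwk.tgt (m - 1) (by omega)]
        exact (hwk.isE (m - 1) (by omega)).one_mem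
    have hgw := hgt (Kto k) 1 zero_le_one (fun s t => by
      have : Kto k s - Kto k t = ((t - s : ℝ) : ℂ) * Complex.I := by
        unfold Kto; push_cast; ring
      rw [this, norm_mul, Complex.norm_I, mul_one, Complex.norm_real, Real.norm_eq_abs,
        abs_sub_comm]) (fun t h0 h1 => by
      right
      refine ⟨k, hk, Kto_re k t, ?_, ?_⟩ <;> rw [Kto_im] <;> linarith) ((k : ℂ) + Complex.I) u₀
      (tip_mem_V1 hF htip) hu₀V (by simp [Kto]; positivity) (by
        have : u₀ - Kto k 1 = u₀ - k := by simp [Kto]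
        rw [this]
        linarith)
    obtain ⟨p₀, y, x', t', hy, hynd⟩ := hgw.simple
    have hex : ∃ j, ∃ i' ≤ m, y j = w i' := ⟨p₀, i₀, hi₀, by rw [hy.last, hu₀]⟩
    obtain ⟨i, hi, hyi⟩ := Nat.find_spec hex
    set p := Nat.find hex with hp
    have hpp : p ≤ p₀ := Nat.find_min' hex ⟨i₀, hi₀, by rw [hy.last, hu₀]⟩
    have hp0 : 0 < p := by
      rcases Nat.eq_zero_or_pos p with h0 | h0
      · exfalso
        rw [h0, hy.first] at hyi
        obtain ⟨u, hu1, hu2⟩ := hwk.near hm hi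
        rw [← hyi] at hu1
        rw [← OnePoint.coe_injective hu1] at hu2
        have h2 := (im_le_norm _).trans_lt hu2
        simp only [Ksp, Complex.sub_im, Complex.add_im, Complex.natCast_im, Complex.I_im,
          Complex.ofReal_im, abs_lt] at h2
        linarith [h2.2]
      · exact h0
    have hpor := hy.portion (Nat.zero_le p) hpp
    simp only [Nat.sub_zero, Nat.zero_add] at hpor
    rw [hy.first, hyi] at hpor
    refine ⟨p, y, x', t', i, fun _ => ⟨hi, hp0, hpor, fun i hi j hj => hynd i (by omega) j (by omega),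
      fun j hj i' hi' heq => ?_⟩⟩
    exact Nat.find_min hex hj ⟨i', hi', heq⟩
  choose p y x' t' ii hto using htooth
  -- position of the feet of the teeth
  have hfoot : ∀ k ≤ n, ∃ u : ℂ, w (ii k) = (u : Sph) ∧ |u.re - k| < rt ∧ |u.im| < rs ∧
      |lam t m (ii k) - k| < rt + rs := by
    intro k hk
    obtain ⟨h1, h2, h3, h4, h5⟩ := hto k hk
    obtain ⟨u, hu1, hu2⟩ := hwk.near hm h1
    obtain ⟨v, hv1, hv2⟩ := h3.near h2 (le_refl (p k))
    rw [h3.last, hu1] at hv1
    rw [← OnePoint.coe_injective hv1] at hv2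
    have a1 := (re_le_norm _).trans_lt hv2
    have a2 := (im_le_norm _).trans_lt hu2
    have a3 := (re_le_norm _).trans_lt hu2
    rw [Complex.sub_re, Kto_re] at a1
    simp only [Ksp, Complex.sub_im, Complex.ofReal_im, sub_zero] at a2
    simp only [Ksp, Complex.sub_re, Complex.ofReal_re] at a3
    refine ⟨u, hu1, a1, a2, ?_⟩
    rw [abs_lt] at a1 a3 ⊢
    constructor <;> linarith [a1.1, a1.2, a3.1, a3.2]
  have hii : ∀ k, k < n → ii k < ii (k + 1) := by
    intro k hk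
    by_contra hcon
    rw [not_lt] at hcon
    obtain ⟨-, -, -, -, b1⟩ := hfoot k hk.le
    obtain ⟨-, -, -, -, b2⟩ := hfoot (k + 1) hk
    have b3 := hwk.lam_mono hm hcon
    rw [abs_lt] at b1 b2
    push_cast at b2
    linarith [b1.2, b2.1]
  have hiimono : ∀ k l, k < l → l ≤ n → ii k < ii l := by
    intro k l hkl
    induction l with
    | zero => omega
    | succ l ih =>
      intro hl
      rcases Nat.eq_or_lt_of_le (Nat.lt_succ_iff.1 hkl) with h | h
      · rw [h]; exact hii l (by omega)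
      · exact (ih h (by omega)).trans (hii l (by omega))
  have him : ∀ k ≤ n, ii k ≤ m := fun k hk => (hto k hk).1
  have hiile : ∀ k l, k ≤ l → l ≤ n → ii k ≤ ii l := by
    intro k l hkl hl
    rcases Nat.eq_or_lt_of_le hkl with h | h
    · rw [h]
    · exact (hiimono k l h hl).le
  have hiiinj : ∀ k l, k ≤ n → l ≤ n → ii k = ii l → k = l := by
    intro k l hk hl h
    rcases lt_trichotomy k l with h1 | h1 | h1
    · exact absurd h (hiimono k l h1 hl).ne
    · exact h1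
    · exact absurd h.symm (hiimono l k h1 hk).ne
  set H : ℂ → Sph := fun z => if z.im = 0 then w (ii ⌊z.re⌋₊) else z with hH
  have hHk : ∀ k : ℕ, H (k : ℂ) = w (ii k) := by
    intro k
    simp [hH]
  have hHI : ∀ k : ℕ, H ((k : ℂ) + Complex.I) = (((k : ℂ) + Complex.I : ℂ) : Sph) := by
    intro k
    simp [hH]
  have hlab : ∀ k < n, ∀ j < ii (k + 1) - ii k, -(rt + rs) ≤ t (ii k + j) - k ∧
      t (ii k + j) - k ≤ 1 + (rt + rs) := by
    intro k hk j hj
    obtain ⟨-, -, -, -, b1⟩ := hfoot k hk.le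
    obtain ⟨-, -, -, -, b2⟩ := hfoot (k + 1) hk
    have hjm : ii k + j < m := by
      have := him (k + 1) hk
      omega
    have c1 := hwk.lam_mono hm (show ii k ≤ ii k + j by omega)
    have c2 := hwk.lam_mono hm (show ii k + j ≤ ii (k + 1) by omega)
    have c3 : lam t m (ii k + j) = t (ii k + j) := if_pos hjm
    rw [c3] at c1 c2
    rw [abs_lt] at b1 b2
    push_cast at b2
    constructor <;> linarith [b1.1, b1.2, b2.1, b2.2]
  set mE : Ed n → ℕ := Sum.elim (fun k : Fin n => ii ((k : ℕ) + 1) - ii k)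
    (fun k : Fin (n + 1) => p k) with hmE
  set wE : Ed n → ℕ → Sph := Sum.elim (fun (k : Fin n) j => w (ii k + j))
    (fun (k : Fin (n + 1)) => y k) with hwE
  set xE : Ed n → ℕ → C(I, Sph) := Sum.elim (fun (k : Fin n) j => x (ii k + j))
    (fun (k : Fin (n + 1)) => x' k) with hxE
  set tE : Ed n → ℕ → ℝ := Sum.elim (fun (k : Fin n) j => cl (t (ii k + j) - (k : ℕ)))
    (fun (k : Fin (n + 1)) => t' k) with htE
  have hsymm : ∀ e e' : Ed n, (∀ i ≤ mE e, ∀ j ≤ mE e', wE e i = wE e' j → (i = 0 ∨ i = mE e) ∧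
          (j = 0 ∨ j = mE e') ∧ ep e (if i = 0 then 0 else 1) = ep e' (if j = 0 then 0 else 1)) →
      (∀ i ≤ mE e', ∀ j ≤ mE e, wE e' i = wE e j → (i = 0 ∨ i = mE e') ∧
          (j = 0 ∨ j = mE e) ∧ ep e' (if i = 0 then 0 else 1) = ep e (if j = 0 then 0 else 1)) := by
    intro e e' h i hi j hj hij
    obtain ⟨h1, h2, h3⟩ := h j hj i hi hij.symm
    exact ⟨h2, h1, h3.symm⟩
  have hpos : ∀ e, 0 < mE e := by
    rintro (k | k)
    · simp only [hmE, Sum.elim_inl]
      have := hii k k.2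
      omega
    · simp only [hmE, Sum.elim_inr]
      exact (hto k (by have := k.2; omega)).2.1
  have hll : ∀ k k' : Fin n, (k : ℕ) < k' → (∀ i ≤ mE (Sum.inl k), ∀ j ≤ mE (Sum.inl k'),
      wE (Sum.inl k) i = wE (Sum.inl k') j → (i = 0 ∨ i = mE (Sum.inl k)) ∧
          (j = 0 ∨ j = mE (Sum.inl k')) ∧ ep (Sum.inl k : Ed n) (if i = 0 then 0 else 1) =
            ep (Sum.inl k' : Ed n) (if j = 0 then 0 else 1)) := by
    intro k k' hkk i hi j hj hij
    simp only [hmE, hwE, Sum.elim_inl] at hi hj hij ⊢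
    have a1 := hii k k.2
    have a2 := hii k' k'.2
    have a3 := him (k + 1) k.2
    have a4 := him (k' + 1) k'.2
    have a5 := hiile (k + 1) k' hkk k'.2.le
    have a6 := hnd (ii k + i) (by omega) (ii k' + j) (by omega) hij
    have a7 : ii (k + 1) = ii k' := by omega
    have a8 := hiiinj (k + 1) k' k.2 k'.2.le a7
    have a9 : i ≠ 0 := by omega
    have a10 : j = 0 := by omega
    refine ⟨Or.inr (by omega), Or.inl a10, ?_⟩
    rw [if_neg a9, if_pos a10]
    simp only [ep]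
    rw [← a8]
    push_cast
    ring
  have hlr : ∀ (k : Fin n) (k' : Fin (n + 1)), (∀ i ≤ mE (Sum.inl k), ∀ j ≤ mE (Sum.inr k'),
      wE (Sum.inl k) i = wE (Sum.inr k') j → (i = 0 ∨ i = mE (Sum.inl k)) ∧
          (j = 0 ∨ j = mE (Sum.inr k')) ∧ ep (Sum.inl k : Ed n) (if i = 0 then 0 else 1) =
            ep (Sum.inr k' : Ed n) (if j = 0 then 0 else 1)) := by
    intro k k' i hi j hj hij
    simp only [hmE, hwE, Sum.elim_inl, Sum.elim_inr] at hi hj hij ⊢
    have hk' : (k' : ℕ) ≤ n := by have := k'.2; omega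
    obtain ⟨b1, b2, b3, b4, b5⟩ := hto k' hk'
    have a1 := hii k k.2
    have a3 := him (k + 1) k.2
    have c1 : j = p k' := by
      by_contra hcon
      exact b5 j (by omega) (ii k + i) (by omega) hij.symm
    subst c1
    rw [b3.last] at hij
    have a6 := hnd (ii k + i) (by omega) (ii k') b1 hij
    have c2 : (k : ℕ) ≤ k' := by
      by_contra hcon
      have := hiimono k' k (by omega) k.2.le
      omega
    have c3 : (k' : ℕ) ≤ k + 1 := by
      by_contra hcon
      have := hiimono (k + 1) k' (by omega) hk'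
      omega
    rw [if_neg (show ¬ p k' = 0 by omega)]
    rcases Nat.eq_or_lt_of_le c2 with c4 | c4
    · have c5 : i = 0 := by rw [← c4] at a6; omega
      refine ⟨Or.inl c5, Or.inr rfl, ?_⟩
      rw [if_pos c5]
      simp only [ep]
      rw [← c4]
      simp
    · have c5 : (k' : ℕ) = k + 1 := by omega
      have c6 : i = ii (k + 1) - ii k := by rw [c5] at a6; omega
      refine ⟨Or.inr c6, Or.inr rfl, ?_⟩
      rw [if_neg (show ¬ i = 0 by omega)]
      simp only [ep]
      rw [c5]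
      simp
  have hrr : ∀ (k k' : Fin (n + 1)), k ≠ k' → ∀ i ≤ mE (Sum.inr k), ∀ j ≤ mE (Sum.inr k'),
      wE (Sum.inr k) i ≠ wE (Sum.inr k') j := by
    intro k k' hkk i hi j hj hij
    simp only [hmE, hwE, Sum.elim_inr] at hi hj hij
    have hk : (k : ℕ) ≤ n := by have := k.2; omega
    have hk' : (k' : ℕ) ≤ n := by have := k'.2; omega
    obtain ⟨b1, b2, b3, b4, b5⟩ := hto k hk
    obtain ⟨c1, c2, c3, c4, c5⟩ := hto k' hk'
    obtain ⟨u, hu1, hu2⟩ := b3.near b2 hi
    obtain ⟨v, hv1, hv2⟩ := c3.near c2 hj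
    rw [hij, hv1] at hu1
    rw [← OnePoint.coe_injective hu1] at hu2
    have d1 := (re_le_norm _).trans_lt hu2
    have d2 := (re_le_norm _).trans_lt hv2
    rw [Complex.sub_re, Kto_re, abs_lt] at d1 d2
    have d3 : ((k : ℕ) : ℝ) < (k' : ℕ) + 1 := by linarith [d1.1, d1.2, d2.1, d2.2]
    have d4 : ((k' : ℕ) : ℝ) < (k : ℕ) + 1 := by linarith [d1.1, d1.2, d2.1, d2.2]
    have d5 : (k : ℕ) < (k' : ℕ) + 1 := by exact_mod_cast d3
    have d6 : (k' : ℕ) < (k : ℕ) + 1 := by exact_mod_cast d4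
    exact hkk (Fin.ext (by omega))
  refine ⟨H, mE, wE, xE, tE, hpos, ?_, ?_, ?_, ?_, ?_⟩
  · rintro (k | k)
    · simp only [hmE, hwE, hxE, htE, Sum.elim_inl]
      have hp := hwk.portion (hii k k.2).le (him (k + 1) k.2)
      refine ⟨?_, ?_, hp.isE, hp.src, hp.tgt, ?_, ?_, ?_⟩
      · have : ep (Sum.inl k : Ed n) 0 = ((k : ℕ) : ℂ) := by simp [ep]
        rw [this, hHk, Nat.add_zero]
      · have : ep (Sum.inl k : Ed n) 1 = ((k + 1 : ℕ) : ℂ) := by simp [ep]
        rw [this, hHk, Nat.add_sub_cancel' (hii k k.2).le]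
      · intro j hj s
        obtain ⟨u, hu1, hu2⟩ := hp.q j hj s
        refine ⟨u, hu1, ?_⟩
        obtain ⟨l1, l2⟩ := hlab k k.2 j hj
        have l3 := cl_dist (show 0 ≤ rt + rs by positivity) l1 l2
        have l4 : Ksp (t (ii k + j)) - ep (Sum.inl k : Ed n) (cl (t (ii k + j) - (k : ℕ))) =
            ((t (ii k + j) - (k : ℕ) - cl (t (ii k + j) - (k : ℕ)) : ℝ) : ℂ) := by
          simp only [Ksp, ep]
          push_cast
          ring
        have l5 : ‖Ksp (t (ii k + j)) - ep (Sum.inl k : Ed n) (cl (t (ii k + j) - (k : ℕ)))‖ ≤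
            rt + rs := by
          rw [l4, Complex.norm_real, Real.norm_eq_abs]
          exact l3
        have l6 := norm_sub_le_norm_sub_add_norm_sub u (Ksp (t (ii k + j)))
          (ep (Sum.inl k : Ed n) (cl (t (ii k + j) - (k : ℕ))))
        linarith
      · intro j hj
        exact ⟨cl_nonneg _, cl_le _⟩
      · intro i j hij hj
        have := hp.mono i j hij hj
        exact cl_mono (by linarith)
    · simp only [hmE, hwE, hxE, htE, Sum.elim_inr]
      obtain ⟨b1, b2, b3, b4, b5⟩ := hto k (by have := k.2; omega)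
      refine ⟨?_, ?_, b3.isE, b3.src, b3.tgt, ?_, b3.lab, b3.mono⟩
      · have : ep (Sum.inr k : Ed n) 0 = ((k : ℕ) : ℂ) + Complex.I := by simp [ep]
        rw [this, hHI, b3.first]
      · have : ep (Sum.inr k : Ed n) 1 = ((k : ℕ) : ℂ) := by simp [ep]
        rw [this, hHk, b3.last]
      · intro j hj s
        obtain ⟨u, hu1, hu2⟩ := b3.q j hj s
        refine ⟨u, hu1, hu2.trans_le (by linarith)⟩
  · rintro (k | k) i hi j hj hij
    · simp only [hmE, hwE, Sum.elim_inl] at hi hj hij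
      have a3 := him (k + 1) k.2
      have a1 := hii k k.2
      have := hnd (ii k + i) (by omega) (ii k + j) (by omega) hij
      omega
    · simp only [hmE, hwE, Sum.elim_inr] at hi hj hij
      exact (hto k (by have := k.2; omega)).2.2.2.1 i hi j hj hij
  · rintro (k | k) (k' | k') hne
    · have hne' : (k : ℕ) ≠ k' := fun h => hne (by rw [Fin.ext h])
      rcases lt_or_gt_of_ne hne' with h | h
      · exact hll k k' h
      · exact hsymm _ _ (hll k' k h)
    · exact hlr k k'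
    · exact hsymm _ _ (hlr k' k)
    · intro i hi j hj hij
      exact absurd hij (hrr k k' (fun h => hne (by rw [h])) i hi j hj)
  · rintro z ⟨k, hk, rfl⟩
    exact hHI k
  · rintro z ⟨k, hk, rfl | rfl⟩
    · obtain ⟨u, hu1, hu2, hu3, -⟩ := hfoot k hk
      refine ⟨u, by rw [hHk, hu1], ?_⟩
      refine (Complex.norm_le_abs_re_add_abs_im _).trans_lt ?_
      simp only [Complex.sub_re, Complex.natCast_re, Complex.sub_im, Complex.natCast_im, sub_zero]
      linarith
    · exact ⟨_, hHI k, by simpa using hr⟩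

end Pool.Agent.H208.Tree
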