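import Pool.Agent.H208.Tree.Edge

set_option autoImplicit false

/-!
# Walks in the preimage of the comb
-/

noncomputable section

namespace Pool.Agent.H208.Tree

open Set Filter Topology OnePoint Pool.Agent.H208.Thu unitInterval

variable {F : Sph → Sph} {n : ℕ} {Q : ℝ → C(I, Sph) → Prop}

/-- a labelled walk of length `m` with vertices `w`, edges `x` and nondecreasing labels `t` -/
structure Wk (n : ℕ) (F : Sph → Sph) (Q : ℝ → C(I, Sph) → Prop) (a b : Sph) (lo hi : ℝ) (m : ℕ)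
    (w : ℕ → Sph) (x : ℕ → C(I, Sph)) (t : ℕ → ℝ) : Prop where
  first : w 0 = a
  last : w m = b
  isE : ∀ j < m, IsE n F (x j)
  src : ∀ j < m, x j 0 = w j
  tgt : ∀ j < m, x j 1 = w (j + 1)
  q : ∀ j < m, Q (t j) (x j)
  lab : ∀ j < m, lo ≤ t j ∧ t j ≤ hi
  mono : ∀ i j, i ≤ j → j < m → t i ≤ t j

/-- existence of a labelled walk -/
def HasWk (n : ℕ) (F : Sph → Sph) (Q : ℝ → C(I, Sph) → Prop) (a b : Sph) (lo hi : ℝ) : Prop :=
  ∃ m w x t, Wk n F Q a b lo hi m w x t

theorem HasWk.refl (a : Sph) (lo hi : ℝ) : HasWk n F Q a a lo hi :=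
  ⟨0, fun _ => a, fun _ => ContinuousMap.const I a, fun _ => 0, rfl, rfl, fun j hj => by omega,
    fun j hj => by omega, fun j hj => by omega, fun j hj => by omega, fun j hj => by omega,
    fun i j _ hj => by omega⟩

theorem HasWk.single {x : C(I, Sph)} (hx : IsE n F x) {t : ℝ} (hq : Q t x) :
    HasWk n F Q (x 0) (x 1) t t :=
  ⟨1, fun j => if j = 0 then x 0 else x 1, fun _ => x, fun _ => t, rfl, rfl, fun j _ => hx,
    fun j hj => by
      have : j = 0 := by omega
      rw [if_pos this], fun j hj => by rw [if_neg (by omega)], fun j _ => hq,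
    fun j _ => ⟨le_rfl, le_rfl⟩, fun i j _ _ => le_rfl⟩

theorem HasWk.trans {a b c : Sph} {lo mid mid' hi : ℝ} (h₁ : HasWk n F Q a b lo mid)
    (h₂ : HasWk n F Q b c mid' hi) (hm : mid ≤ mid') (hlo : lo ≤ mid') (hhi : mid ≤ hi) :
    HasWk n F Q a c lo hi := by
  obtain ⟨m₁, w₁, x₁, t₁, h₁⟩ := h₁
  obtain ⟨m₂, w₂, x₂, t₂, h₂⟩ := h₂
  refine ⟨m₁ + m₂, fun j => if j < m₁ then w₁ j else w₂ (j - m₁),
    fun j => if j < m₁ then x₁ j else x₂ (j - m₁),
    fun j => if j < m₁ then t₁ j else t₂ (j - m₁), ?_, ?_, ?_, ?_, ?_, ?_, ?_, ?_⟩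
  · by_cases h : 0 < m₁
    · simp only [if_pos h]; exact h₁.first
    · have h0 : m₁ = 0 := by omega
      subst h0
      simp only [lt_irrefl, if_false, Nat.sub_zero]
      rw [h₂.first, ← h₁.last, h₁.first]
  · simp only [if_neg (show ¬ m₁ + m₂ < m₁ by omega), Nat.add_sub_cancel_left]
    exact h₂.last
  · intro j hj
    by_cases h : j < m₁
    · simp only [if_pos h]; exact h₁.isE j h
    · simp only [if_neg h]; exact h₂.isE _ (by omega)
  · intro j hj
    by_cases h : j < m₁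
    · simp only [if_pos h]; exact h₁.src j h
    · simp only [if_neg h]; exact h₂.src _ (by omega)
  · intro j hj
    by_cases h : j < m₁
    · by_cases h' : j + 1 < m₁
      · simp only [if_pos h, if_pos h']; exact h₁.tgt j h
      · have h3 : j + 1 = m₁ := by omega
        simp only [if_pos h, if_neg h']
        rw [h₁.tgt j h, h3, Nat.sub_self, h₂.first, h₁.last]
    · simp only [if_neg h, if_neg (show ¬ j + 1 < m₁ by omega)]
      rw [h₂.tgt _ (by omega)]
      congr 1
      omega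
  · intro j hj
    by_cases h : j < m₁
    · simp only [if_pos h]; exact h₁.q j h
    · simp only [if_neg h]; exact h₂.q _ (by omega)
  · intro j hj
    by_cases h : j < m₁
    · simp only [if_pos h]
      have := h₁.lab j h
      constructor <;> linarith
    · simp only [if_neg h]
      have := h₂.lab (j - m₁) (by omega)
      constructor <;> linarith
  · intro i j hij hj
    by_cases h : j < m₁
    · simp only [if_pos h, if_pos (show i < m₁ by omega)]
      exact h₁.mono i j hij h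
    · by_cases h' : i < m₁
      · simp only [if_neg h, if_pos h']
        have a1 := (h₁.lab i h').2
        have a2 := (h₂.lab (j - m₁) (by omega)).1
        linarith
      · simp only [if_neg h, if_neg h']
        exact h₂.mono _ _ (by omega) (by omega)

theorem HasWk.weaken {a b : Sph} {lo hi lo' hi' : ℝ} (h : HasWk n F Q a b lo hi) (h1 : lo' ≤ lo)
    (h2 : hi ≤ hi') : HasWk n F Q a b lo' hi' := by
  obtain ⟨m, w, x, t, h⟩ := h
  exact ⟨m, w, x, t, h.first, h.last, h.isE, h.src, h.tgt, h.q,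
    fun j hj => ⟨h1.trans (h.lab j hj).1, (h.lab j hj).2.trans h2⟩, h.mono⟩

/-- a walk of minimal length has distinct vertices -/
theorem HasWk.simple {a b : Sph} {lo hi : ℝ} (h : HasWk n F Q a b lo hi) :
    ∃ m w x t, Wk n F Q a b lo hi m w x t ∧ ∀ i ≤ m, ∀ j ≤ m, w i = w j → i = j := by
  classical
  have hex : ∃ m, ∃ w x t, Wk n F Q a b lo hi m w x t := h
  obtain ⟨w, x, t, hw⟩ := Nat.find_spec hex
  set m := Nat.find hex with hm
  refine ⟨m, w, x, t, hw, ?_⟩
  have key : ∀ i j, i < j → j ≤ m → w i ≠ w j := by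
    intro i j hij hj heq
    set d := j - i with hd
    refine Nat.find_min hex (m := m - d) (by omega) ⟨fun k => if k < i then w k else w (k + d),
      fun k => if k < i then x k else x (k + d), fun k => if k < i then t k else t (k + d),
      ?_, ?_, ?_, ?_, ?_, ?_, ?_, ?_⟩
    · by_cases h : 0 < i
      · simp only [if_pos h]; exact hw.first
      · have h0 : i = 0 := by omega
        simp only [if_neg h]
        rw [← hw.first]
        have : 0 + d = j := by omega
        rw [this, ← heq, h0]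
    · simp only [if_neg (show ¬ m - d < i by omega)]
      rw [show m - d + d = m by omega]
      exact hw.last
    · intro k hk
      by_cases h : k < i
      · simp only [if_pos h]; exact hw.isE k (by omega)
      · simp only [if_neg h]; exact hw.isE _ (by omega)
    · intro k hk
      by_cases h : k < i
      · simp only [if_pos h]; exact hw.src k (by omega)
      · simp only [if_neg h]; exact hw.src _ (by omega)
    · intro k hk
      by_cases h : k < i
      · by_cases h' : k + 1 < i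
        · simp only [if_pos h, if_pos h']; exact hw.tgt k (by omega)
        · simp only [if_pos h, if_neg h']
          rw [hw.tgt k (by omega), show k + 1 = i by omega, show i + d = j by omega, heq]
      · simp only [if_neg h, if_neg (show ¬ k + 1 < i by omega)]
        rw [hw.tgt _ (by omega)]
        congr 1
        omega
    · intro k hk
      by_cases h : k < i
      · simp only [if_pos h]; exact hw.q k (by omega)
      · simp only [if_neg h]; exact hw.q _ (by omega)
    · intro k hk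
      by_cases h : k < i
      · simp only [if_pos h]; exact hw.lab k (by omega)
      · simp only [if_neg h]; exact hw.lab _ (by omega)
    · intro k l hkl hl
      by_cases h : l < i
      · simp only [if_pos h, if_pos (show k < i by omega)]
        exact hw.mono k l hkl (by omega)
      · by_cases h' : k < i
        · simp only [if_neg h, if_pos h']
          exact hw.mono _ _ (by omega) (by omega)
        · simp only [if_neg h, if_neg h']
          exact hw.mono _ _ (by omega) (by omega)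
  intro i hi j hj heq
  rcases lt_trichotomy i j with h | h | h
  · exact absurd heq (key i j h hj)
  · exact h
  · exact absurd heq.symm (key j i h hi)

/-- portion of a walk -/
theorem Wk.portion {a b : Sph} {lo hi : ℝ} {m : ℕ} {w : ℕ → Sph} {x : ℕ → C(I, Sph)} {t : ℕ → ℝ}
    (h : Wk n F Q a b lo hi m w x t) {i j : ℕ} (hij : i ≤ j) (hj : j ≤ m) :
    Wk n F Q (w i) (w j) lo hi (j - i) (fun k => w (i + k)) (fun k => x (i + k))
      (fun k => t (i + k)) := by
  refine ⟨rfl, by rw [Nat.add_sub_cancel' hij], fun k hk => h.isE _ (by omega),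
    fun k hk => h.src _ (by omega), fun k hk => h.tgt _ (by omega), fun k hk => h.q _ (by omega),
    fun k hk => h.lab _ (by omega), fun k l hkl hl => h.mono _ _ (by omega) (by omega)⟩

/-- walks inside a connected subset of the preimage of the comb -/
theorem walk_of_conn (hF : Brc F (P0 n)) (hn : 1 ≤ n) {M : Set Sph} (hM : IsPreconnected M)
    (hMc : ∀ y ∈ M, ∃ z ∈ comb n, F y = (z : Sph)) {a b : Sph} (ha : a ∈ M) (hb : b ∈ M)
    (hav : a ∈ V1 n F) (hbv : b ∈ V1 n F) {t₀ : ℝ}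
    (hQ : ∀ x : C(I, Sph), IsE n F x → (range x ∩ M).Nonempty → Q t₀ x) :
    HasWk n F Q a b t₀ t₀ := by
  set R : Sph → Prop := fun w => HasWk n F Q a w t₀ t₀ with hR
  have hstep : ∀ x : C(I, Sph), IsE n F x → (range x ∩ M).Nonempty → R (x 0) → R (x 1) := by
    intro x hx hxM hx0
    exact HasWk.trans hx0 (HasWk.single hx (hQ x hx hxM)) le_rfl le_rfl le_rfl
  have hstep' : ∀ x : C(I, Sph), IsE n F x → (range x ∩ M).Nonempty → R (x 1) → R (x 0) := by
    intro x hx hxM hx1
    have := hstep (rv x) hx.rev (by rwa [range_rv]) (by rwa [rv_zero])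
    rwa [rv_one] at this
  set S₁ : Set C(I, Sph) := {x | IsE n F x ∧ R (x 0) ∧ (range x ∩ M).Nonempty} with hS₁
  set S₂ : Set C(I, Sph) := {x | IsE n F x ∧ ¬ R (x 0) ∧ (range x ∩ M).Nonempty} with hS₂
  have hfin := isE_finite hF
  have hc₁ : IsClosed (⋃ x ∈ S₁, range x) :=
    (hfin.subset fun x hx => hx.1).isClosed_biUnion fun x _ => (isCompact_range x.continuous).isClosed
  have hc₂ : IsClosed (⋃ x ∈ S₂, range x) :=
    (hfin.subset fun x hx => hx.1).isClosed_biUnion fun x _ => (isCompact_range x.continuous).isClosed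
  have hcover : M ⊆ (⋃ x ∈ S₁, range x) ∪ (⋃ x ∈ S₂, range x) := by
    intro y hy
    obtain ⟨z, hz, hyz⟩ := hMc y hy
    obtain ⟨e, x, s, hx, hxs⟩ := exists_lift_at hF hn hyz hz
    have hxE : IsE n F x := ⟨e, Or.inl hx⟩
    have hne : (range x ∩ M).Nonempty := ⟨y, ⟨s, hxs⟩, hy⟩
    by_cases h : R (x 0)
    · exact Or.inl (mem_iUnion₂.2 ⟨x, ⟨hxE, h, hne⟩, ⟨s, hxs⟩⟩)
    · exact Or.inr (mem_iUnion₂.2 ⟨x, ⟨hxE, h, hne⟩, ⟨s, hxs⟩⟩)
  have hdisj : ∀ y, y ∈ (⋃ x ∈ S₁, range x) → y ∈ (⋃ x ∈ S₂, range x) → False := by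
    intro y hy1 hy2
    obtain ⟨x, ⟨hxE, hxR, hxM⟩, s, hs⟩ := mem_iUnion₂.1 hy1
    obtain ⟨x', ⟨hxE', hxR', hxM'⟩, s', hs'⟩ := mem_iUnion₂.1 hy2
    have hx1 := hstep x hxE hxM hxR
    by_cases hv : y ∈ V1 n F
    · have e1 : R y := by
        rcases hxE.vertex (s := s) (by rw [hs]; exact hv) with h | h
        · rw [← hs, h]; exact hxR
        · rw [← hs, h]; exact hx1
      rcases hxE'.vertex (s := s') (by rw [hs']; exact hv) with h | h
      · rw [h] at hs'
        exact hxR' (by rw [hs']; exact e1)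
      · rw [h] at hs'
        exact hxR' (hstep' x' hxE' hxM' (by rw [hs']; exact e1))
    · rcases IsE.eq_of_mem hF hxE hxE' (hs.trans hs'.symm) (by rw [hs]; exact hv) with h | h
      · exact hxR' (by rw [h.1]; exact hxR)
      · apply hxR'
        rw [h.1, rv_zero]
        exact hx1
  have haS : a ∈ ⋃ x ∈ S₁, range x := by
    rcases hcover ha with h | h
    · exact h
    · exfalso
      obtain ⟨x, ⟨hxE, hxR, hxM⟩, s, hs⟩ := mem_iUnion₂.1 h
      rcases hxE.vertex (s := s) (by rw [hs]; exact hav) with h' | h'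
      · apply hxR
        rw [← h', hs]
        exact HasWk.refl _ _ _
      · apply hxR
        apply hstep' x hxE hxM
        rw [← h', hs]
        exact HasWk.refl _ _ _
  have hsub : M ⊆ ⋃ x ∈ S₁, range x := by
    rcases (isPreconnected_iff_subset_of_disjoint_closed.1 hM) _ _ hc₁ hc₂ hcover (by
      rw [eq_empty_iff_forall_notMem]
      rintro y ⟨-, hy1, hy2⟩
      exact hdisj y hy1 hy2) with h | h
    · exact h
    · exact (hdisj a haS (h ha)).elim
  obtain ⟨x, ⟨hxE, hxR, hxM⟩, s, hs⟩ := mem_iUnion₂.1 (hsub hb)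
  rcases hxE.vertex (s := s) (by rw [hs]; exact hbv) with h' | h'
  · rw [← hs, h']; exact hxR
  · rw [← hs, h']; exact hstep x hxE hxM hxR

/-! Walks along a guide path -/

theorem compare (R : ℝ) {η : ℝ} (hη : 0 < η) : ∃ η' > 0, ∀ z : ℂ, ‖z‖ ≤ R → ∀ x : Sph,
    dist x (z : Sph) < η' → ∃ w : ℂ, x = (w : Sph) ∧ ‖w - z‖ < η := by
  have hK : IsCompact ((↑) '' Metric.closedBall (0 : ℂ) R : Set Sph) :=
    (isCompact_closedBall (0 : ℂ) R).image OnePoint.continuous_coe
  obtain ⟨δ, hδ, h⟩ := lebesgue_number_lemma_of_metric (ι := ℂ)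
    (c := fun z => ((↑) '' Metric.ball z (η / 2) : Set Sph)) hK
    (fun z => OnePoint.isOpenMap_coe _ Metric.isOpen_ball) (by
      rintro _ ⟨z, hz, rfl⟩
      exact mem_iUnion.2 ⟨z, z, Metric.mem_ball_self (half_pos hη), rfl⟩)
  refine ⟨δ, hδ, fun z hz x hx => ?_⟩
  obtain ⟨c, hc⟩ := h (z : Sph) ⟨z, by rwa [mem_closedBall_zero_iff], rfl⟩
  obtain ⟨z', hz', hzz⟩ := hc (Metric.mem_ball_self hδ)
  obtain ⟨w, hw, hwx⟩ := hc (show x ∈ Metric.ball (z : Sph) δ from hx)
  rw [OnePoint.coe_injective hzz, Metric.mem_ball, dist_eq_norm] at hz'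
  rw [Metric.mem_ball, dist_eq_norm] at hw
  refine ⟨w, hwx.symm, ?_⟩
  have : w - z = (w - c) - (z - c) := by ring
  rw [this]
  refine (norm_sub_le _ _).trans_lt ?_
  linarith

theorem ball_diff_preconnected (c : ℂ) {r : ℝ} (hr : 0 < r) {S : Set ℂ} (hS : S.Finite) :
    IsPreconnected (Metric.ball c r \ S) := by
  set φ : OpenPartialHomeomorph ℂ ℂ := OpenPartialHomeomorph.univBall c r with hφ
  have h1 : φ.source = univ := OpenPartialHomeomorph.univBall_source c r
  have h2 : φ.target = Metric.ball c r := OpenPartialHomeomorph.univBall_target c hr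
  have h3 : Metric.ball c r \ S = φ '' (φ ⁻¹' S)ᶜ := by
    ext z
    constructor
    · rintro ⟨hz, hzS⟩
      rw [← h2] at hz
      refine ⟨φ.symm z, ?_, φ.right_inv hz⟩
      intro h
      rw [mem_preimage, φ.right_inv hz] at h
      exact hzS h
    · rintro ⟨u, hu, rfl⟩
      refine ⟨?_, hu⟩
      rw [← h2]
      exact φ.map_source (by rw [h1]; trivial)
  rw [h3]
  have h4 : (φ ⁻¹' S).Finite := hS.preimage (fun u _ v _ huv =>
    φ.injOn (by rw [h1]; trivial) (by rw [h1]; trivial) huv)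
  exact (h4.countable.isConnected_compl_of_one_lt_rank (by simp)).isPreconnected.image _
    (OpenPartialHomeomorph.continuous_univBall c r).continuousOn

theorem edges_small {f : Sph → Sph} {δ : ℝ} (hδ : 0 < δ) (hE : Expand f δ) {η : ℝ} (hη : 0 < η) :
    ∃ N : ℕ, ∀ N' ≥ N, ∀ x : C(I, Sph), IsE n (f^[N']) x → ∀ s s', dist (x s) (x s') < η := by
  obtain ⟨M, hM0, hM⟩ : ∃ M : ℕ, 0 < M ∧ ∀ e : Ed n, ∀ s s' : I, |(s : ℝ) - s'| ≤ 1 / M →
      dist ((ep e s : ℂ) : Sph) ((ep e s' : ℂ) : Sph) < δ := by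
    have hu : ∀ e : Ed n, ∃ ζ > 0, ∀ s s' : I, dist s s' < ζ →
        dist ((ep e s : ℂ) : Sph) ((ep e s' : ℂ) : Sph) < δ := by
      intro e
      have h1 : Continuous fun s : I => ((ep e s : ℂ) : Sph) :=
        OnePoint.continuous_coe.comp ((continuous_ep e).comp continuous_subtype_val)
      have h2 := CompactSpace.uniformContinuous_of_continuous h1
      rw [Metric.uniformContinuous_iff] at h2
      obtain ⟨ζ, hζ, h3⟩ := h2 δ hδ
      exact ⟨ζ, hζ, fun s s' h => h3 h⟩
    choose ζ hζ hu using hu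
    obtain ⟨ζ₀, hζ₀, hζle⟩ : ∃ ζ₀ > 0, ∀ e, ζ₀ ≤ ζ e := by
      rcases isEmpty_or_nonempty (Ed n) with h | h
      · exact ⟨1, one_pos, fun e => h.elim e⟩
      · obtain ⟨e₀, he₀⟩ := Finite.exists_min ζ
        exact ⟨ζ e₀, hζ e₀, he₀⟩
    obtain ⟨M, hM⟩ := exists_nat_one_div_lt hζ₀
    refine ⟨M + 1, Nat.succ_pos M, fun e s s' hss => hu e s s' ?_⟩
    rw [Subtype.dist_eq, Real.dist_eq]
    refine hss.trans_lt (lt_of_lt_of_le ?_ (hζle e))
    push_cast
    exact hM
  set ε' := η / (4 * M + 1) with hε'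
  have hε'0 : 0 < ε' := by positivity
  obtain ⟨N, hN⟩ := hE ε' hε'0
  refine ⟨N, fun N' hN' x hx s s' => ?_⟩
  have key : ∀ (e : Ed n) (x : C(I, Sph)), IsLift (f^[N']) e x → ∀ s s', dist (x s) (x s') < η := by
    intro e x hx s s'
    have h1 := lift_small hε'0.le (hN N' hN') x.continuous hM0 (fun s s' hss => by
      rw [hx, hx]
      exact hM e s s' hss) s s'
    refine h1.trans_lt ?_
    rw [hε', mul_div_assoc', div_lt_iff₀ (by positivity)]
    nlinarith
  obtain ⟨e, hx | hx⟩ := hx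
  · exact key e x hx s s'
  · have := key e (rv x) hx (σ s) (σ s')
    simpa using this

/-- the edge `x` is close to the point `K t` -/
def Near (K : ℝ → ℂ) (r : ℝ) (t : ℝ) (x : C(I, Sph)) : Prop :=
  ∀ s, ∃ w : ℂ, x s = (w : Sph) ∧ ‖w - K t‖ < r

theorem guide {f : Sph → Sph} (hn : 1 ≤ n) (hf : Brc f (P0 n)) {δ : ℝ} (hδ : 0 < δ)
    (hE : Expand f δ) {r : ℝ} (hr : 0 < r) (hr1 : r ≤ 1) : ∃ N : ℕ, ∀ N' ≥ N,
      (∀ c ∈ comb n, ∃ v : ℂ, (v : Sph) ∈ V1 n (f^[N']) ∧ ‖v - c‖ < r / 8) ∧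
      (∀ (K : ℝ → ℂ) (l : ℝ), 0 ≤ l → (∀ s t, ‖K s - K t‖ ≤ |s - t|) →
        (∀ t, 0 ≤ t → t ≤ l → K t ∈ comb n) → ∀ a b : ℂ, (a : Sph) ∈ V1 n (f^[N']) →
        (b : Sph) ∈ V1 n (f^[N']) → ‖a - K 0‖ < r / 8 → ‖b - K l‖ < r / 8 →
        HasWk n (f^[N']) (Near K r) a b 0 l) := by
  obtain ⟨η, hη, hcmp⟩ := compare (n + 3) (η := r / 32) (by positivity)
  obtain ⟨N₁, hN₁⟩ := push hn hf hδ hE hη
  obtain ⟨N₂, hN₂⟩ := edges_small (n := n) hδ hE hη
  refine ⟨max N₁ N₂, fun N' hN' => ?_⟩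
  obtain ⟨E, hEc, hEid, hEmem, hEd⟩ := hN₁ N' ((le_max_left _ _).trans hN')
  have hsm := hN₂ N' ((le_max_right _ _).trans hN')
  have hF := hf.iter N'
  set F := f^[N'] with hFdef
  have hfin : (((↑) : ℂ → Sph) ⁻¹' (F ⁻¹' {∞})).Finite :=
    (hF.fib ∞).preimage OnePoint.coe_injective.injOn
  -- the connected sets
  have hMset : ∀ (c : ℂ) (ρ : ℝ), 0 < ρ → IsPreconnected (E '' ((↑) ''
      (Metric.ball c ρ \ ((↑) : ℂ → Sph) ⁻¹' (F ⁻¹' {∞})))) := by
    intro c ρ hρ
    refine ((ball_diff_preconnected c hρ hfin).image _ OnePoint.continuous_coe.continuousOn).image _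
      (hEc.mono ?_)
    rintro _ ⟨z, hz, rfl⟩
    exact fun h => hz.2 h
  have hpt : ∀ (c : ℂ) (ρ : ℝ), c ∈ comb n → 0 < ρ → ρ ≤ 1 →
      ∀ y ∈ E '' ((↑) '' (Metric.ball c ρ \ ((↑) : ℂ → Sph) ⁻¹' (F ⁻¹' {∞}))),
      ∀ x : C(I, Sph), IsE n F x → y ∈ range x → ∀ s, ∃ w : ℂ, x s = (w : Sph) ∧
        ‖w - c‖ < ρ + r / 16 := by
    rintro c ρ hc hρ hρ1 _ ⟨_, ⟨u, ⟨hu, huS⟩, rfl⟩, rfl⟩ x hx ⟨s₀, hs₀⟩ s
    rw [Metric.mem_ball, dist_eq_norm] at hu
    have hcn := norm_comb hc
    have hun : ‖u‖ ≤ n + 2 := by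
      have : u = (u - c) + c := by ring
      rw [this]
      refine (norm_add_le _ _).trans ?_
      linarith
    obtain ⟨w₀, hw₀, hw₀u⟩ := hcmp u (by linarith) (E u) (by
      rw [dist_comm]
      exact hEd _ (fun h => huS h))
    have hw₀n : ‖w₀‖ ≤ n + 3 := by
      have : w₀ = (w₀ - u) + u := by ring
      rw [this]
      refine (norm_add_le _ _).trans ?_
      linarith
    obtain ⟨w, hw, hww₀⟩ := hcmp w₀ hw₀n (x s) (by
      rw [← hw₀, ← hs₀]
      exact hsm x hx s s₀)
    refine ⟨w, hw, ?_⟩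
    have : w - c = (w - w₀) + (w₀ - u) + (u - c) := by ring
    rw [this]
    refine (norm_add₃_le).trans_lt ?_
    linarith
  have hvert : ∀ c ∈ comb n, ∃ v : ℂ, (v : Sph) ∈ V1 n F ∧ ‖v - c‖ < r / 8 := by
    intro c hc
    -- a point near `c` which is not mapped to infinity
    obtain ⟨u, hu⟩ : (Metric.ball c (r / 64) \ ((↑) : ℂ → Sph) ⁻¹' (F ⁻¹' {∞})).Nonempty := by
      have h1 : (Metric.ball c (r / 64)).Infinite := by
        have := infinite_of_mem_nhds c (Metric.ball_mem_nhds c (show 0 < r / 64 by positivity))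
        exact this
      exact (h1.sdiff hfin).nonempty
    obtain ⟨z, hz, hFz⟩ := hEmem u (fun h => hu.2 h)
    obtain ⟨e, x, s, hx, hxs⟩ := exists_lift_at hF hn hFz hz
    have hxE : IsE n F x := ⟨e, Or.inl hx⟩
    obtain ⟨w, hw, hwc⟩ := hpt c (r / 64) hc (by positivity) (by linarith) (E u)
      ⟨_, ⟨u, hu, rfl⟩, rfl⟩ x hxE ⟨s, hxs⟩ 0
    refine ⟨w, by rw [← hw]; exact hxE.zero_mem, by linarith⟩
  refine ⟨hvert, ?_⟩
  intro K l hl hLip hKc a b ha hb haK hbK
  obtain ⟨m₀, hm₀⟩ := exists_nat_gt (8 * l / r)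
  set m := m₀ + 1 with hm
  have hmpos : (0 : ℝ) < m := by positivity
  set h := l / m with hh
  have hh0 : 0 ≤ h := by positivity
  have hhr : h < r / 8 := by
    rw [hh, div_lt_iff₀ hmpos]
    rw [div_lt_iff₀ hr] at hm₀
    have h1 : (m : ℝ) = m₀ + 1 := by rw [hm]; push_cast; rfl
    rw [h1]
    nlinarith
  have hmh : m * h = l := by rw [hh]; field_simp
  have hv : ∀ j : ℕ, ∃ v : ℂ, j ≤ m → ((v : Sph) ∈ V1 n F ∧ ‖v - K (j * h)‖ < r / 8 ∧
      (j = 0 → v = a) ∧ (j = m → v = b)) := by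
    intro j
    by_cases hj : j ≤ m
    swap
    · exact ⟨0, fun h => absurd h hj⟩
    by_cases h0 : j = 0
    · subst h0
      refine ⟨a, fun _ => ⟨ha, by simpa using haK, fun _ => rfl, fun h => by omega⟩⟩
    · by_cases h1 : j = m
      · subst h1
        refine ⟨b, fun _ => ⟨hb, by rw [hmh]; exact hbK, fun h => absurd h h0, fun _ => rfl⟩⟩
      · have hjm : (j : ℝ) ≤ m := by exact_mod_cast hj
        obtain ⟨v, hv1, hv2⟩ := hvert (K (j * h)) (hKc _ (by positivity) (by
          rw [← hmh]; exact mul_le_mul_of_nonneg_right hjm hh0))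
        exact ⟨v, fun _ => ⟨hv1, hv2, fun h => absurd h h0, fun h => absurd h h1⟩⟩
  choose v hv using hv
  have key : ∀ j ≤ m, HasWk n F (Near K r) a (v j) 0 (j * h) := by
    intro j
    induction j with
    | zero =>
      intro _
      rw [(hv 0 (Nat.zero_le _)).2.2.1 rfl]
      exact HasWk.refl _ _ _
    | succ j ih =>
      intro hj
      have hj' : j ≤ m := by omega
      obtain ⟨a1, a2, -, -⟩ := hv j hj'
      obtain ⟨b1, b2, -, -⟩ := hv (j + 1) hj
      have hjm : (j : ℝ) ≤ m := by exact_mod_cast hj'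
      have hcK : K (j * h) ∈ comb n := hKc _ (by positivity) (by
        rw [← hmh]; exact mul_le_mul_of_nonneg_right hjm hh0)
      have hmem : ∀ u : ℂ, (u : Sph) ∈ V1 n F → ‖u - K (j * h)‖ < r / 2 → (u : Sph) ∈ E '' ((↑) ''
          (Metric.ball (K (j * h)) (r / 2) \ ((↑) : ℂ → Sph) ⁻¹' (F ⁻¹' {∞}))) := by
        rintro u ⟨z, hz, hzu⟩ hu
        refine ⟨u, ⟨u, ⟨?_, ?_⟩, rfl⟩, hEid _ z hzu (V0_sub_comb n hz)⟩
        · rw [Metric.mem_ball, dist_eq_norm]; exact hu
        · intro hmem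
          rw [mem_preimage, mem_preimage, mem_singleton_iff, hzu] at hmem
          exact coe_ne_infty z hmem
      have hKK : ‖K ((j + 1 : ℕ) * h) - K (j * h)‖ ≤ h := by
        refine (hLip _ _).trans ?_
        have : ((j + 1 : ℕ) : ℝ) * h - j * h = h := by push_cast; ring
        rw [this, abs_of_nonneg hh0]
      have hw := walk_of_conn hF hn (Q := Near K r) (t₀ := j * h)
        (hMset (K (j * h)) (r / 2) (by positivity)) (by
          rintro _ ⟨_, ⟨u, hu, rfl⟩, rfl⟩
          exact hEmem _ (fun h => hu.2 h)) (hmem (v j) a1 (by linarith)) (hmem (v (j + 1)) b1 (by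
          have : v (j + 1) - K (j * h) = (v (j + 1) - K ((j + 1 : ℕ) * h)) +
            (K ((j + 1 : ℕ) * h) - K (j * h)) := by ring
          rw [this]
          refine (norm_add_le _ _).trans_lt ?_
          linarith)) a1 b1 (by
          rintro x hx ⟨y, hyx, hyM⟩ s
          obtain ⟨w, hw, hwc⟩ := hpt (K (j * h)) (r / 2) hcK (by positivity) (by linarith) y hyM x
            hx hyx s
          exact ⟨w, hw, by linarith⟩)
      refine HasWk.trans (ih hj') (hw.weaken le_rfl (hi' := ((j + 1 : ℕ) : ℝ) * h) ?_) le_rfl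
        (by positivity) ?_
      · push_cast; nlinarith
      · push_cast; nlinarith
  have h1 := key m le_rfl
  rw [(hv m le_rfl).2.2.2 rfl, hmh] at h1
  exact h1

end Pool.Agent.H208.Tree
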